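import Mathlib
import Pool.Agent.H761R2.SV.Pomp

/-! Definitions for project RD (random diagonal perturbations have hyperinvariant subspaces). -/

set_option autoImplicit false
open MeasureTheory Complex Filter Topology ProbabilityTheory
open scoped ENNReal
open Pool.Agent.H761R2.SV (dbar)

namespace Pool.Agent.J4.H86.RD

section crit
variable {X : Type*} [NormedAddCommGroup X] [NormedSpace ℂ X]

/-- `g` is a locally integrable local resolvent of `T` at `e`:
`(T - z) g(z) = e` for almost every `z`. -/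
structure LocRes (T : X →L[ℂ] X) (e : X) (g : ℂ → X) : Prop where
  loc : LocallyIntegrable g volume
  eq : ∀ᵐ z : ℂ, T (g z) - z • g z = e

/-- `h` is a locally integrable local resolvent of the dual operator of `T` at `f`. -/
structure LocResDual (T : X →L[ℂ] X) (f : X →L[ℂ] ℂ) (h : ℂ → (X →L[ℂ] ℂ)) : Prop where
  loc : LocallyIntegrable h volume
  eq : ∀ᵐ z : ℂ, ∀ v : X, h z (T v) - z * h z v = f v

/-- `φ` is (real) continuously differentiable with compact support. -/
def Tst (φ : ℂ → ℂ) : Prop := ContDiff ℝ 1 φ ∧ HasCompactSupport φ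

/-- all the integrals `∫ (∂̄φ) F_k` vanish. -/
def NN {κ : Type*} (F : κ → ℂ → ℂ) (φ : ℂ → ℂ) : Prop := ∀ k, ∫ z, dbar φ z * F k z = 0

/-- `T` has a closed subspace other than `0` and `X` that is invariant under every bounded
operator commuting with `T`. -/
def HasHyper (T : X →L[ℂ] X) : Prop :=
  ∃ M : Submodule ℂ X, IsClosed (M : Set X) ∧ M ≠ ⊥ ∧ M ≠ ⊤ ∧
    ∀ S : X →L[ℂ] X, S ∘L T = T ∘L S → ∀ x ∈ M, S x ∈ M

end crit

section fv
variable {ι : Type*} [DecidableEq ι]

/-- the matrix on the finite set `A` with diagonal `l` and off-diagonal entries `B`. -/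
def Mat (B : ι → ι → ℂ) (A : Finset ι) (l : ι → ℂ) : Matrix A A ℂ :=
  Matrix.of fun i j => if i = j then l i else B i j

/-- the inverse of `Mat B A l`, extended by zero to `ι × ι` (it is `0` if not invertible). -/
noncomputable def G (B : ι → ι → ℂ) (A : Finset ι) (l : ι → ℂ) (x y : ι) : ℂ :=
  if h : x ∈ A ∧ y ∈ A then (Mat B A l)⁻¹ ⟨x, h.1⟩ ⟨y, h.2⟩ else 0

/-- the self energy of the site `x`. -/
noncomputable def beta (B : ι → ι → ℂ) (A : Finset ι) (l : ι → ℂ) (x : ι) : ℂ :=
  ∑ w ∈ A, ∑ u ∈ A, B x w * G B A l w u * B u x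

/-- the weighted Schur condition, outside the finite set `F`. -/
structure Wt (C : ι → ℝ≥0∞) (B : ι → ι → ℂ) (t : ι → ℝ≥0∞) (F : Finset ι) : Prop where
  pos : ∀ x, t x ≠ 0
  fin : ∀ x, t x ≠ ⊤
  row : ∀ x, x ∉ F → C x * (1 + ∑' w, (if w = x then 0 else ‖B x w‖ₑ * t w)) ≤ t x
  exc : ∀ x ∈ F, ∑' w, (if w = x then 0 else ‖B x w‖ₑ * t w) ≠ ⊤

end fv

end Pool.Agent.J4.H86.RD
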