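import Pool.Agent.J4.H86.RD.Defs

/-! Definitions for project RD, version with `s`-th moments, `1 < s < 2`. -/

set_option autoImplicit false
open MeasureTheory Complex Filter Topology ProbabilityTheory
open scoped ENNReal

namespace Pool.Agent.J4.H86.RD

/-- Independent random variables with `E |lam x - b|^(-s) ≤ C` and the decoupling inequality
`k E |lam x - b|^(-s) ≤ E (|lam x - z|^s |lam x - b|^(-s))`. -/
structure Dis {Ω ι : Type*} [MeasurableSpace Ω] (P : Measure Ω) (lam : ι → Ω → ℂ) (s : ℝ)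
    (C k : ℝ≥0∞) : Prop where
  meas : ∀ i, Measurable (lam i)
  indep : iIndepFun lam P
  mom : ∀ (x : ι) (b : ℂ), ∫⁻ ω, ‖lam x ω - b‖ₑ⁻¹ ^ s ∂P ≤ C
  dec : ∀ (x : ι) (z b : ℂ), k * ∫⁻ ω, ‖lam x ω - b‖ₑ⁻¹ ^ s ∂P ≤
    ∫⁻ ω, ‖lam x ω - z‖ₑ ^ s * ‖lam x ω - b‖ₑ⁻¹ ^ s ∂P

/-- The rows of `B` are `q`-summable and the off-diagonal part of `B`, with the finitely many rows
in `F` omitted, is bounded on `ℓ^s` with `‖·‖^s ≤ κ`. -/
structure Sml {ι : Type*} [DecidableEq ι] (s q : ℝ) (κ : ℝ≥0∞) (B : ι → ι → ℂ)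
    (F : Finset ι) : Prop where
  row : ∀ x, Summable (fun w => ‖B x w‖ ^ q)
  small : ∀ (A : Finset ι) (u : ι → ℂ),
    ∑ x ∈ A \ F, ‖∑ w ∈ A.erase x, B x w * u w‖ₑ ^ s ≤ κ * ∑ w ∈ A, ‖u w‖ₑ ^ s

/-- The vectors `e x` satisfy an upper `s`-estimate. -/
def Upper {ι X : Type*} [NormedAddCommGroup X] [NormedSpace ℂ X] (s K : ℝ) (e : ι → X) : Prop :=
  ∀ (A : Finset ι) (c : ι → ℂ), ‖∑ x ∈ A, c x • e x‖ ≤ K * (∑ x ∈ A, ‖c x‖ ^ s) ^ (1 / s)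

end Pool.Agent.J4.H86.RD
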