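import Pool.Agent.J4.H86.RD.Defs

set_option autoImplicit false
open MeasureTheory Complex Filter Topology ProbabilityTheory
open scoped ENNReal
open Pool.Agent.H761R2.SV (dbar)

namespace Pool.Agent.J4.H86.RD

namespace Dir

theorem cs_dbar {φ : ℂ → ℂ} (h : HasCompactSupport φ) : HasCompactSupport (dbar φ) := by
  refine h.mono' ?_
  intro z hz
  by_contra hn
  apply hz
  have h1 : fderiv ℝ φ z = 0 := by
    by_contra h2
    exact hn (support_fderiv_subset ℝ h2)
  simp [dbar, h1]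

theorem int_dbar {φ : ℂ → ℂ} (h : Tst φ) {f : ℂ → ℂ} (hf : LocallyIntegrable f volume) :
    Integrable (fun z => dbar φ z * f z) := by
  have := hf.integrable_smul_left_of_hasCompactSupport
    (Pool.Agent.H761R2.SV.continuous_dbar h.1) (cs_dbar h.2)
  simpa only [smul_eq_mul] using this

/-- the function `a (L z - x0) χ z` -/
noncomputable def Phi (L : ℂ →L[ℝ] ℝ) (x0 : ℝ) (χ : ℂ → ℂ) (a : ℝ → ℝ) (z : ℂ) : ℂ :=
  ((a (L z - x0) : ℝ) : ℂ) * χ z

variable {L : ℂ →L[ℝ] ℝ} {x0 : ℝ} {χ : ℂ → ℂ}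

theorem cd_fst {a : ℝ → ℝ} (ha : ContDiff ℝ 1 a) :
    ContDiff ℝ 1 (fun z : ℂ => ((a (L z - x0) : ℝ) : ℂ)) := by
  have h1 : ContDiff ℝ 1 (fun z : ℂ => L z - x0) := L.contDiff.sub contDiff_const
  exact Complex.ofRealCLM.contDiff.comp (ha.comp h1)

theorem tst_Phi (hχ : Tst χ) {a : ℝ → ℝ} (ha : ContDiff ℝ 1 a) : Tst (Phi L x0 χ a) :=
  ⟨(cd_fst ha).mul hχ.1, hχ.2.mul_left⟩

theorem dbar_Phi (hχ : Tst χ) {a : ℝ → ℝ} (ha : ContDiff ℝ 1 a) (z : ℂ) :
    dbar (Phi L x0 χ a) z = ((deriv a (L z - x0) : ℝ) : ℂ) * (((L 1 : ℝ) + I * (L I : ℝ)) / 2) * χ z +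
      ((a (L z - x0) : ℝ) : ℂ) * dbar χ z := by
  have e : Phi L x0 χ a = fun z => ((a (L z - x0) : ℝ) : ℂ) * χ z := rfl
  rw [e, Pool.Agent.H761R2.SV.dbar_mul (cd_fst ha) hχ.1]
  congr 2
  have h1 : HasFDerivAt (fun z : ℂ => L z - x0) L z := L.hasFDerivAt.sub_const x0
  have h2 : HasDerivAt a (deriv a (L z - x0)) (L z - x0) :=
    (ha.differentiable (by simp) _).hasDerivAt
  have h3 := Complex.ofRealCLM.hasFDerivAt.comp z (h2.comp_hasFDerivAt z h1)
  have h4 : ∀ v : ℂ, fderiv ℝ (fun z : ℂ => ((a (L z - x0) : ℝ) : ℂ)) z v =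
      ((deriv a (L z - x0) * L v : ℝ) : ℂ) := by
    intro v
    have h5 : fderiv ℝ (fun z : ℂ => ((a (L z - x0) : ℝ) : ℂ)) z = _ := h3.fderiv
    rw [h5]
    simp
  simp only [dbar, h4]
  push_cast
  ring

/-- the cut-offs -/
noncomputable def pp (t : ℝ) : ℝ := t * Real.smoothTransition (t - 1)
noncomputable def qq (t : ℝ) : ℝ := t * Real.smoothTransition (-t - 1)
noncomputable def rr (t : ℝ) : ℝ := t - pp t - qq t
/-- scaling -/
noncomputable def scl (n : ℝ) (a : ℝ → ℝ) (t : ℝ) : ℝ := n⁻¹ * a (n * t)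

theorem cd_pp : ContDiff ℝ 1 pp :=
  contDiff_id.mul (Real.smoothTransition.contDiff.comp (contDiff_id.sub contDiff_const))
theorem cd_qq : ContDiff ℝ 1 qq :=
  contDiff_id.mul (Real.smoothTransition.contDiff.comp (contDiff_id.neg.sub contDiff_const))
theorem cd_rr : ContDiff ℝ 1 rr := (contDiff_id.sub cd_pp).sub cd_qq
theorem cd_scl {a : ℝ → ℝ} (ha : ContDiff ℝ 1 a) (n : ℝ) : ContDiff ℝ 1 (scl n a) :=
  contDiff_const.mul (ha.comp (contDiff_const.mul contDiff_id))

theorem pp_zero {t : ℝ} (h : t ≤ 1) : pp t = 0 := by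
  unfold pp
  rw [Real.smoothTransition.zero_of_nonpos (by linarith), mul_zero]
theorem qq_zero {t : ℝ} (h : -1 ≤ t) : qq t = 0 := by
  unfold qq
  rw [Real.smoothTransition.zero_of_nonpos (by linarith), mul_zero]

theorem rr_zero {t : ℝ} (h : t ∉ Set.Icc (-2 : ℝ) 2) : rr t = 0 := by
  unfold rr
  rw [Set.mem_Icc, not_and_or, not_le, not_le] at h
  rcases h with h | h
  · rw [pp_zero (by linarith)]
    unfold qq
    rw [Real.smoothTransition.one_of_one_le (by linarith)]
    ring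
  · rw [qq_zero (by linarith)]
    unfold pp
    rw [Real.smoothTransition.one_of_one_le (by linarith)]
    ring

theorem cs_rr : HasCompactSupport rr :=
  HasCompactSupport.intro isCompact_Icc fun _ h => rr_zero h

theorem drr_zero {t : ℝ} (h : t ∉ Set.Icc (-2 : ℝ) 2) : deriv rr t = 0 := by
  by_contra h1
  have h2 : t ∈ tsupport rr := support_deriv_subset h1
  have h3 : tsupport rr ⊆ Set.Icc (-2 : ℝ) 2 := by
    refine closure_minimal (fun s hs => ?_) isClosed_Icc
    by_contra h4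
    exact hs (rr_zero h4)
  exact h (h3 h2)

theorem deriv_scl {a : ℝ → ℝ} (ha : ContDiff ℝ 1 a) {n : ℝ} (hn : n ≠ 0) (t : ℝ) :
    deriv (scl n a) t = deriv a (n * t) := by
  have h1 : HasDerivAt a (deriv a (n * t)) (n * t) := (ha.differentiable (by simp) _).hasDerivAt
  have h2 : HasDerivAt (fun t : ℝ => n * t) n t := by
    simpa using (hasDerivAt_id t).const_mul n
  have h3 := (h1.comp t h2).const_mul n⁻¹
  have h4 : deriv (scl n a) t = _ := h3.deriv
  rw [h4]
  field_simp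

theorem scl_sum {n : ℝ} (hn : n ≠ 0) (t : ℝ) : t = scl n pp t + scl n qq t + scl n rr t := by
  unfold scl rr
  field_simp
  ring

/-- `L z = x0` only on a null set -/
theorem ae_ne (hL : L ≠ 0) (x0 : ℝ) : ∀ᵐ z : ℂ, L z ≠ x0 := by
  obtain ⟨v, hv⟩ : ∃ v, L v ≠ 0 := by
    by_contra h
    push Not at h
    exact hL (ContinuousLinearMap.ext h)
  obtain ⟨z0, hz0⟩ : ∃ z0, L z0 = x0 := ⟨(x0 / L v) • v, by
    rw [map_smul, smul_eq_mul]; field_simp⟩
  have hs : (AffineSubspace.mk' z0 (LinearMap.ker (L : ℂ →ₗ[ℝ] ℝ))) ≠ ⊤ := by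
    intro h
    have h1 : z0 + v ∈ (AffineSubspace.mk' z0 (LinearMap.ker (L : ℂ →ₗ[ℝ] ℝ))) := by
      rw [h]; exact AffineSubspace.mem_top ℝ ℂ _
    rw [AffineSubspace.mem_mk'] at h1
    simp at h1
    exact hv h1
  have h2 := Measure.addHaar_affineSubspace (volume : Measure ℂ) _ hs
  rw [ae_iff]
  refine measure_mono_null (fun z hz => ?_) h2
  simp only [not_not, Set.mem_ofPred_eq] at hz
  rw [SetLike.mem_coe, AffineSubspace.mem_mk']
  simp [hz, hz0]

end Dir

variable {X : Type*} [NormedAddCommGroup X] [NormedSpace ℂ X]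

open Dir in
theorem dir {κ : Type*} (F : κ → ℂ → ℂ) (hF : ∀ k, LocallyIntegrable (F k) volume)
    (hdich : ∀ φ ψ : ℂ → ℂ, Tst φ → Tst ψ → Disjoint (tsupport φ) (tsupport ψ) →
      NN F φ ∨ NN F ψ) (L : ℂ →L[ℝ] ℝ) (hL : L ≠ 0) (χ : ℂ → ℂ) (hχ : Tst χ)
    (hne : ¬ NN F χ) : ∃ x0 : ℝ, NN F (fun z => ((L z - x0 : ℝ) : ℂ) * χ z) := by
  obtain ⟨A, hA⟩ : ∃ A : Set ℝ, A = {c | ∀ φ, Tst φ → tsupport φ ⊆ {z | L z < c} → NN F φ} :=
    ⟨_, rfl⟩
  have hK : IsCompact (tsupport χ) := hχ.2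
  obtain ⟨m, hm⟩ := hK.bddBelow_image L.continuous.continuousOn
  obtain ⟨M, hM⟩ := hK.bddAbove_image L.continuous.continuousOn
  have hne' : A.Nonempty := by
    refine ⟨m, ?_⟩
    rw [hA]
    intro φ hφ hs
    rcases hdich φ χ hφ hχ (by
      rw [Set.disjoint_left]
      intro z hz hz'
      have h1 : L z < m := hs hz
      have h2 : m ≤ L z := hm ⟨z, hz', rfl⟩
      linarith) with h | h
    · exact h
    · exact absurd h hne
  have hbd : BddAbove A := by
    refine ⟨M + 1, fun c hc => ?_⟩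
    by_contra hcon
    push Not at hcon
    rw [hA] at hc
    refine hne (hc χ hχ fun z hz => ?_)
    have h2 : L z ≤ M := hM ⟨z, hz, rfl⟩
    show L z < c
    linarith
  obtain ⟨x0, hx0⟩ : ∃ x0 : ℝ, x0 = sSup A := ⟨_, rfl⟩
  have claim1 : ∀ φ, Tst φ → tsupport φ ⊆ {z | L z < x0} → NN F φ := by
    intro φ hφ hs
    rcases (tsupport φ).eq_empty_or_nonempty with he | he
    · obtain ⟨c, hc⟩ := hne'
      rw [hA] at hc
      exact hc φ hφ (by rw [he]; exact Set.empty_subset _)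
    · obtain ⟨z0, hz0, hmax⟩ := hφ.2.isCompact.exists_isMaxOn he L.continuous.continuousOn
      have h1 : L z0 < sSup A := by rw [← hx0]; exact hs hz0
      obtain ⟨c, hc, hlt⟩ := exists_lt_of_lt_csSup hne' h1
      rw [hA] at hc
      exact hc φ hφ fun z hz => lt_of_le_of_lt (hmax hz) hlt
  have claim2 : ∀ φ, Tst φ → tsupport φ ⊆ {z | x0 < L z} → NN F φ := by
    intro φ hφ hs
    rcases (tsupport φ).eq_empty_or_nonempty with he | he
    · obtain ⟨c, hc⟩ := hne'
      rw [hA] at hc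
      exact hc φ hφ (by rw [he]; exact Set.empty_subset _)
    · obtain ⟨z0, hz0, hmin⟩ := hφ.2.isCompact.exists_isMinOn he L.continuous.continuousOn
      obtain ⟨c, hc1, hc2⟩ := exists_between (show x0 < L z0 from hs hz0)
      have hcA : c ∉ A := fun hcA => by
        have := le_csSup hbd hcA
        rw [← hx0] at this
        linarith
      rw [hA] at hcA
      simp only [Set.mem_ofPred_eq, not_forall] at hcA
      obtain ⟨ψ, hψ, hψs, hψn⟩ := hcA
      rcases hdich φ ψ hφ hψ (by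
        rw [Set.disjoint_left]
        intro z hz hz'
        have h1 : L z < c := hψs hz'
        have h2 : L z0 ≤ L z := hmin hz
        linarith) with h | h
      · exact h
      · exact absurd h hψn
  refine ⟨x0, fun k => ?_⟩
  -- the three parts
  have hsum : ∀ n : ℝ, 0 < n → ∫ z, dbar (Phi L x0 χ (fun t => t)) z * F k z =
      ∫ z, dbar (Phi L x0 χ (scl n rr)) z * F k z := by
    intro n hn
    have hp := cd_scl cd_pp n
    have hq := cd_scl cd_qq n
    have hr := cd_scl cd_rr n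
    have e : ∀ z, dbar (Phi L x0 χ (fun t => t)) z * F k z =
        dbar (Phi L x0 χ (scl n pp)) z * F k z + dbar (Phi L x0 χ (scl n qq)) z * F k z +
          dbar (Phi L x0 χ (scl n rr)) z * F k z := by
      intro z
      have e1 : (fun t : ℝ => t) = fun t => scl n pp t + scl n qq t + scl n rr t :=
        funext fun t => scl_sum hn.ne' t
      have e2 : deriv (fun t : ℝ => t) (L z - x0) = deriv (scl n pp) (L z - x0) +
          deriv (scl n qq) (L z - x0) + deriv (scl n rr) (L z - x0) := by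
        rw [e1]
        have d1 : DifferentiableAt ℝ (scl n pp) (L z - x0) := hp.differentiable (by simp) _
        have d2 : DifferentiableAt ℝ (scl n qq) (L z - x0) := hq.differentiable (by simp) _
        have d3 : DifferentiableAt ℝ (scl n rr) (L z - x0) := hr.differentiable (by simp) _
        exact ((d1.hasDerivAt.add d2.hasDerivAt).add d3.hasDerivAt).deriv
      have hid := dbar_Phi (L := L) (x0 := x0) hχ (a := fun t : ℝ => t) contDiff_id z
      rw [hid, dbar_Phi hχ hp, dbar_Phi hχ hq, dbar_Phi hχ hr]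
      have e4 := scl_sum hn.ne' (L z - x0)
      have e5 : ((L z - x0 : ℝ) : ℂ) = ((scl n pp (L z - x0) : ℝ) : ℂ) +
          ((scl n qq (L z - x0) : ℝ) : ℂ) + ((scl n rr (L z - x0) : ℝ) : ℂ) := by
        rw [← ofReal_add, ← ofReal_add, ← e4]
      have e6 : ((deriv (fun t : ℝ => t) (L z - x0) : ℝ) : ℂ) = ((deriv (scl n pp) (L z - x0) : ℝ) : ℂ) +
          ((deriv (scl n qq) (L z - x0) : ℝ) : ℂ) + ((deriv (scl n rr) (L z - x0) : ℝ) : ℂ) := by
        rw [← ofReal_add, ← ofReal_add, ← e2]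
      show (((deriv (fun t : ℝ => t) (L z - x0) : ℝ) : ℂ) * _ * χ z + ((L z - x0 : ℝ) : ℂ) * dbar χ z) * F k z = _
      rw [e5, e6]
      ring
    have i1 : Integrable (fun z => dbar (Phi L x0 χ (scl n pp)) z * F k z) := int_dbar (tst_Phi hχ hp) (hF k)
    have i2 : Integrable (fun z => dbar (Phi L x0 χ (scl n qq)) z * F k z) := int_dbar (tst_Phi hχ hq) (hF k)
    have i3 : Integrable (fun z => dbar (Phi L x0 χ (scl n rr)) z * F k z) := int_dbar (tst_Phi hχ hr) (hF k)
    have z1 : ∫ z, dbar (Phi L x0 χ (scl n pp)) z * F k z = 0 := by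
      refine claim2 _ (tst_Phi hχ hp) ?_ k
      have hcl : IsClosed {z : ℂ | x0 + n⁻¹ ≤ L z} := isClosed_le continuous_const L.continuous
      have : tsupport (Phi L x0 χ (scl n pp)) ⊆ {z : ℂ | x0 + n⁻¹ ≤ L z} := by
        refine closure_minimal (fun z hz => ?_) hcl
        by_contra hcon
        simp only [Set.mem_ofPred_eq, not_le] at hcon
        apply hz
        have h1 : n * (L z - x0) ≤ 1 := by
          have h2 : L z - x0 ≤ n⁻¹ := by linarith
          calc n * (L z - x0) ≤ n * n⁻¹ := mul_le_mul_of_nonneg_left h2 hn.le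
            _ = 1 := mul_inv_cancel₀ hn.ne'
        simp [Phi, scl, pp_zero h1]
      refine this.trans fun z hz => ?_
      have h3 : x0 + n⁻¹ ≤ L z := hz
      have h4 : 0 < n⁻¹ := inv_pos.mpr hn
      show x0 < L z
      linarith
    have z2 : ∫ z, dbar (Phi L x0 χ (scl n qq)) z * F k z = 0 := by
      refine claim1 _ (tst_Phi hχ hq) ?_ k
      have hcl : IsClosed {z : ℂ | L z ≤ x0 - n⁻¹} := isClosed_le L.continuous continuous_const
      have : tsupport (Phi L x0 χ (scl n qq)) ⊆ {z : ℂ | L z ≤ x0 - n⁻¹} := by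
        refine closure_minimal (fun z hz => ?_) hcl
        by_contra hcon
        simp only [Set.mem_ofPred_eq, not_le] at hcon
        apply hz
        have h1 : -1 ≤ n * (L z - x0) := by
          have h2 : -n⁻¹ ≤ L z - x0 := by linarith
          calc (-1 : ℝ) = n * (-n⁻¹) := by rw [mul_neg, mul_inv_cancel₀ hn.ne']
            _ ≤ n * (L z - x0) := mul_le_mul_of_nonneg_left h2 hn.le
        simp [Phi, scl, qq_zero h1]
      refine this.trans fun z hz => ?_
      have h3 : L z ≤ x0 - n⁻¹ := hz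
      have h4 : 0 < n⁻¹ := inv_pos.mpr hn
      show L z < x0
      linarith
    have s1 := integral_add (i1.add i2) i3
    have s2 := integral_add i1 i2
    simp only [Pi.add_apply] at s1 s2
    rw [integral_congr_ae (Eventually.of_forall e), s1, s2, z1, z2, zero_add, zero_add]
  -- the limit
  obtain ⟨C1, hC1⟩ := cs_rr.exists_bound_of_continuous cd_rr.continuous
  obtain ⟨C2, hC2⟩ := cs_rr.deriv.exists_bound_of_continuous (cd_rr.continuous_deriv (by simp))
  obtain ⟨ℓ, hℓ⟩ : ∃ ℓ : ℂ, ℓ = (((L 1 : ℝ) + I * (L I : ℝ)) / 2) := ⟨_, rfl⟩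
  have hlim : Tendsto (fun n : ℕ => ∫ z, dbar (Phi L x0 χ (scl ((n : ℝ) + 1) rr)) z * F k z) atTop
      (𝓝 (∫ _z : ℂ, (0 : ℂ))) := by
    have ib1 : Integrable (fun z => χ z * F k z) := by
      have := (hF k).integrable_smul_left_of_hasCompactSupport hχ.1.continuous hχ.2
      simpa only [smul_eq_mul] using this
    have ib2 : Integrable (fun z => dbar χ z * F k z) := int_dbar hχ (hF k)
    refine tendsto_integral_of_dominated_convergence
      (fun z => C2 * ‖ℓ‖ * ‖χ z * F k z‖ + C1 * ‖dbar χ z * F k z‖) ?_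
      ((ib1.norm.const_mul _).add (ib2.norm.const_mul _)) ?_ ?_
    · intro n
      exact (int_dbar (tst_Phi hχ (cd_scl cd_rr _)) (hF k)).aestronglyMeasurable
    · intro n
      refine Eventually.of_forall fun z => ?_
      have hn : (0 : ℝ) < (n : ℝ) + 1 := by positivity
      rw [dbar_Phi hχ (cd_scl cd_rr _), ← hℓ, deriv_scl cd_rr hn.ne']
      have h1 : ‖((deriv rr (((n : ℝ) + 1) * (L z - x0)) : ℝ) : ℂ)‖ ≤ C2 := by
        rw [Complex.norm_real]; exact hC2 _
      have h2 : ‖((scl ((n : ℝ) + 1) rr (L z - x0) : ℝ) : ℂ)‖ ≤ C1 := by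
        rw [Complex.norm_real]
        unfold scl
        rw [norm_mul]
        have h3 : ‖((n : ℝ) + 1)⁻¹‖ ≤ 1 := by
          rw [Real.norm_of_nonneg (by positivity)]
          exact inv_le_one_of_one_le₀ (by linarith [Nat.cast_nonneg (α := ℝ) n])
        calc ‖((n : ℝ) + 1)⁻¹‖ * ‖rr (((n : ℝ) + 1) * (L z - x0))‖ ≤ 1 * C1 :=
            mul_le_mul h3 (hC1 _) (norm_nonneg _) zero_le_one
          _ = C1 := one_mul _
      calc ‖(((deriv rr (((n : ℝ) + 1) * (L z - x0)) : ℝ) : ℂ) * ℓ * χ z +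
            ((scl ((n : ℝ) + 1) rr (L z - x0) : ℝ) : ℂ) * dbar χ z) * F k z‖
          = ‖((deriv rr (((n : ℝ) + 1) * (L z - x0)) : ℝ) : ℂ) * ℓ * (χ z * F k z) +
            ((scl ((n : ℝ) + 1) rr (L z - x0) : ℝ) : ℂ) * (dbar χ z * F k z)‖ := by
            congr 1; ring
        _ ≤ ‖((deriv rr (((n : ℝ) + 1) * (L z - x0)) : ℝ) : ℂ) * ℓ * (χ z * F k z)‖ +
            ‖((scl ((n : ℝ) + 1) rr (L z - x0) : ℝ) : ℂ) * (dbar χ z * F k z)‖ := norm_add_le _ _
        _ = ‖((deriv rr (((n : ℝ) + 1) * (L z - x0)) : ℝ) : ℂ)‖ * ‖ℓ‖ * ‖χ z * F k z‖ +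
            ‖((scl ((n : ℝ) + 1) rr (L z - x0) : ℝ) : ℂ)‖ * ‖dbar χ z * F k z‖ := by
            rw [norm_mul, norm_mul, norm_mul (((scl ((n : ℝ) + 1) rr (L z - x0) : ℝ) : ℂ))]
        _ ≤ _ := by gcongr
    · filter_upwards [ae_ne hL x0] with z hz
      have hu : 0 < |L z - x0| := abs_pos.mpr (sub_ne_zero.mpr hz)
      obtain ⟨N, hN⟩ := exists_nat_gt (2 / |L z - x0|)
      refine tendsto_const_nhds.congr' ?_
      filter_upwards [eventually_ge_atTop N] with n hn
      have hn0 : (0 : ℝ) < (n : ℝ) + 1 := by positivity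
      have h1 : 2 < |((n : ℝ) + 1) * (L z - x0)| := by
        rw [abs_mul, abs_of_pos hn0]
        have h2 : 2 / |L z - x0| < (n : ℝ) + 1 := by
          have : (N : ℝ) ≤ n := by exact_mod_cast hn
          linarith
        rwa [div_lt_iff₀ hu] at h2
      have h3 : ((n : ℝ) + 1) * (L z - x0) ∉ Set.Icc (-2 : ℝ) 2 := by
        intro h4
        have : |((n : ℝ) + 1) * (L z - x0)| ≤ 2 := abs_le.mpr ⟨h4.1, h4.2⟩
        linarith
      rw [dbar_Phi hχ (cd_scl cd_rr _), deriv_scl cd_rr hn0.ne', drr_zero h3]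
      have h5 : scl ((n : ℝ) + 1) rr (L z - x0) = 0 := by
        unfold scl
        rw [rr_zero h3, mul_zero]
      rw [h5]
      simp
  have hconst : ∀ n : ℕ, ∫ z, dbar (Phi L x0 χ (scl ((n : ℝ) + 1) rr)) z * F k z =
      ∫ z, dbar (Phi L x0 χ (fun t => t)) z * F k z := fun n =>
    (hsum _ (by positivity)).symm
  simp only [hconst] at hlim
  have := tendsto_nhds_unique hlim tendsto_const_nhds
  rw [integral_zero] at this
  exact this.symm

end Pool.Agent.J4.H86.RD
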