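import Pool.Agent.J4.H86.RD.CRIT0
import Pool.Agent.J4.H86.RD.DIR

/-! Project RD (helper86), piece CRIT (helper30): the hyperinvariant criterion. -/

set_option autoImplicit false
open MeasureTheory Complex Filter Topology ProbabilityTheory
open scoped ENNReal
open Pool.Agent.H761R2.SV (dbar)

namespace Pool.Agent.J4.H86.RD

section crit
variable {X : Type*} [NormedAddCommGroup X] [NormedSpace ℂ X]

theorem crit [CompleteSpace X] {ι : Type*} (T : X →L[ℂ] X) (e : ι → X) (f : ι → (X →L[ℂ] ℂ))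
    (he : Dense (Submodule.span ℂ (Set.range e) : Set X)) (hf : ∀ v, (∀ i, f i v = 0) → v = 0)
    (hg : ∀ i, ∃ g, LocRes T (e i) g) (hh : ∀ i, ∃ h, LocResDual T (f i) h) :
    (∃ c : ℂ, ∀ v, T v = c • v) ∨ HasHyper T :=
  crit_of_dir (fun F hF hd L hL χ hχ hn => dir F hF hd L hL χ hχ hn) T e f he hf hg hh

end crit

end Pool.Agent.J4.H86.RD
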