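import Pool.Agent.J4.H86.RD.FIXL
import Pool.Agent.J4.H86.RD.CRIT

/-! Project RD, piece FIX. -/

set_option autoImplicit false
open MeasureTheory Complex Filter Topology ProbabilityTheory
open scoped ENNReal
open Pool.Agent.H761R2.SV (dbar)

namespace Pool.Agent.J4.H86.RD

section fix
variable {X : Type*} [NormedAddCommGroup X] [NormedSpace ℂ X] [CompleteSpace X]
variable {ι : Type*} [DecidableEq ι]

theorem fix' [Countable ι] (T : X →L[ℂ] X) (e : ι → X) (f : ι → (X →L[ℂ] ℂ)) {s K : ℝ}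
    (hs : 1 ≤ s) (heU : Upper s K e) (hfU : Upper s K f)
    (he : Dense (Submodule.span ℂ (Set.range e) : Set X)) (hf : ∀ v, (∀ i, f i v = 0) → v = 0)
    (hbi : ∀ x y, f x (e y) = if x = y then 1 else 0) (B : ι → ι → ℂ) (l : ι → ℂ)
    (hT : ∀ x y, f x (T (e y)) = if x = y then l x else B x y)
    (hcol : ∀ y, ∃ L : ℂ → ℝ≥0∞, Measurable L ∧
      (∀ R : ℝ, ∫⁻ z in Metric.closedBall (0 : ℂ) R, L z ≠ ⊤) ∧
      ∀ᵐ z : ℂ, ∃ g : ι → ℂ, ∑' x, ‖g x‖ₑ ^ s ≤ L z ∧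
        ∀ x, (l x - z) * g x + ∑' w, (if w = x then 0 else B x w * g w)
          = if x = y then 1 else 0)
    (hrow : ∀ x, ∃ L : ℂ → ℝ≥0∞, Measurable L ∧
      (∀ R : ℝ, ∫⁻ z in Metric.closedBall (0 : ℂ) R, L z ≠ ⊤) ∧
      ∀ᵐ z : ℂ, ∃ h : ι → ℂ, ∑' x, ‖h x‖ₑ ^ s ≤ L z ∧
        ∀ y, (l y - z) * h y + ∑' w, (if w = y then 0 else B w y * h w)
          = if y = x then 1 else 0) :
    (∃ c : ℂ, ∀ v, T v = c • v) ∨ HasHyper T := by
  obtain ⟨hg, hh⟩ := fix_loc' T e f hs heU hfU he hf hbi B l hT hcol hrow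
  exact crit T e f he hf hg hh

end fix

end Pool.Agent.J4.H86.RD
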