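import Pool.Agent.J4.H86.RD.Defs

set_option autoImplicit false
open MeasureTheory Complex Filter Topology ProbabilityTheory
open scoped ENNReal
open Pool.Agent.H761R2.SV (dbar)

namespace Pool.Agent.J4.H86.RD

section fv
variable {ι : Type*} [DecidableEq ι]

theorem G_col (B : ι → ι → ℂ) (A : Finset ι) (l : ι → ℂ) (hA : IsUnit (Mat B A l)) (x y : ι)
    (hx : x ∈ A) (hy : y ∈ A) :
    l x * G B A l x y + ∑ w ∈ A.erase x, B x w * G B A l w y = if x = y then 1 else 0 := by
  have hdet : IsUnit (Mat B A l).det := (Matrix.isUnit_iff_isUnit_det _).1 hA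
  have h1 : (Mat B A l * (Mat B A l)⁻¹) ⟨x, hx⟩ ⟨y, hy⟩ = if x = y then 1 else 0 := by
    rw [Matrix.mul_nonsing_inv _ hdet, Matrix.one_apply]
    simp only [Subtype.mk.injEq]
  rw [← h1, Matrix.mul_apply]
  have h2 : ∑ j : A, Mat B A l ⟨x, hx⟩ j * (Mat B A l)⁻¹ j ⟨y, hy⟩
      = ∑ j ∈ A, (if x = j then l x else B x j) * G B A l j y := by
    rw [← Finset.sum_coe_sort A]
    refine Finset.sum_congr rfl fun j _ => ?_
    have h3 : G B A l (j : ι) y = (Mat B A l)⁻¹ j ⟨y, hy⟩ := by
      unfold G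
      rw [dif_pos ⟨j.2, hy⟩]
    rw [h3]
    congr 1
    simp only [Mat, Matrix.of_apply, Subtype.ext_iff]
  rw [h2, ← Finset.add_sum_erase A _ hx]
  congr 1
  · rw [if_pos rfl]
  · refine Finset.sum_congr rfl fun w hw => ?_
    rw [if_neg (fun h => (Finset.ne_of_mem_erase hw) h.symm)]

theorem GBASaux.Mat_transpose (B : ι → ι → ℂ) (A : Finset ι) (l : ι → ℂ) :
    Mat (fun a b => B b a) A l = (Mat B A l).transpose := by
  ext i j
  simp only [Mat, Matrix.of_apply, Matrix.transpose_apply]
  by_cases h : i = j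
  · subst h; simp
  · rw [if_neg h, if_neg (fun h' => h h'.symm)]

theorem G_trans (B : ι → ι → ℂ) (A : Finset ι) (l : ι → ℂ) (x y : ι) :
    G (fun a b => B b a) A l x y = G B A l y x := by
  unfold G
  by_cases h : x ∈ A ∧ y ∈ A
  · rw [dif_pos h, dif_pos ⟨h.2, h.1⟩, GBASaux.Mat_transpose, ← Matrix.transpose_nonsing_inv,
      Matrix.transpose_apply]
  · rw [dif_neg h, dif_neg (fun h' => h ⟨h'.2, h'.1⟩)]

theorem Mat_trans (B : ι → ι → ℂ) (A : Finset ι) (l : ι → ℂ) :
    IsUnit (Mat (fun a b => B b a) A l) ↔ IsUnit (Mat B A l) := by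
  rw [GBASaux.Mat_transpose, Matrix.isUnit_iff_isUnit_det, Matrix.isUnit_iff_isUnit_det,
    Matrix.det_transpose]

theorem Mat_congr (B : ι → ι → ℂ) (A : Finset ι) (l l' : ι → ℂ) (h : ∀ i ∈ A, l i = l' i) :
    Mat B A l = Mat B A l' := by
  ext i j
  simp only [Mat, Matrix.of_apply]
  rw [h i i.2]

theorem G_congr (B : ι → ι → ℂ) (A : Finset ι) (l l' : ι → ℂ) (h : ∀ i ∈ A, l i = l' i)
    (x y : ι) : G B A l x y = G B A l' x y := by
  unfold G
  rw [Mat_congr B A l l' h]

theorem GBASaux.measurable_Mat_entry (B : ι → ι → ℂ) (A : Finset ι) (i j : A) :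
    Measurable (fun l : ι → ℂ => Mat B A l i j) := by
  simp only [Mat, Matrix.of_apply]
  by_cases h : i = j
  · simp only [h, if_true]
    exact measurable_pi_apply _
  · simp only [h, if_false]
    exact measurable_const

theorem GBASaux.measurable_det_of {n : Type*} [Fintype n] [DecidableEq n] {α : Type*} [MeasurableSpace α]
    (M : α → Matrix n n ℂ) (hM : ∀ i j, Measurable (fun a => M a i j)) :
    Measurable (fun a => (M a).det) := by
  simp only [Matrix.det_apply]
  refine Finset.measurable_fun_sum _ fun σ _ => ?_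
  refine Measurable.const_smul (c := Equiv.Perm.sign σ) ?_
  exact Finset.measurable_fun_prod _ fun i _ => hM _ _

theorem measurable_G (B : ι → ι → ℂ) (A : Finset ι) (x y : ι) :
    Measurable (fun l : ι → ℂ => G B A l x y) := by
  unfold G
  by_cases h : x ∈ A ∧ y ∈ A
  · simp only [dif_pos h]
    have h1 : ∀ l : ι → ℂ, (Mat B A l)⁻¹ ⟨x, h.1⟩ ⟨y, h.2⟩
        = ((Mat B A l).det)⁻¹ * ((Mat B A l).adjugate ⟨x, h.1⟩ ⟨y, h.2⟩) := by
      intro l
      rw [Matrix.inv_def, Matrix.smul_apply, Ring.inverse_eq_inv', smul_eq_mul]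
    simp only [h1]
    refine Measurable.mul ?_ ?_
    · exact (GBASaux.measurable_det_of _ (GBASaux.measurable_Mat_entry B A)).inv
    · simp only [Matrix.adjugate_apply]
      refine GBASaux.measurable_det_of _ fun i j => ?_
      simp only [Matrix.updateRow_apply]
      by_cases hi : i = ⟨y, h.2⟩
      · simp only [hi, if_true]
        exact measurable_const
      · simp only [hi, if_false]
        exact GBASaux.measurable_Mat_entry B A i j
  · simp only [dif_neg h]
    exact measurable_const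

theorem measurableSet_unit (B : ι → ι → ℂ) (A : Finset ι) :
    MeasurableSet {l : ι → ℂ | IsUnit (Mat B A l)} := by
  have h1 : {l : ι → ℂ | IsUnit (Mat B A l)}
      = (fun l : ι → ℂ => (Mat B A l).det) ⁻¹' {0}ᶜ := by
    ext l
    simp only [Set.mem_ofPred_eq, Set.mem_preimage, Set.mem_compl_iff, Set.mem_singleton_iff,
      Matrix.isUnit_iff_isUnit_det, isUnit_iff_ne_zero, ne_eq]
  rw [h1]
  exact (GBASaux.measurable_det_of _ (GBASaux.measurable_Mat_entry B A)) (measurableSet_singleton _).compl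

end fv

end Pool.Agent.J4.H86.RD
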