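import Pool.Agent.J4.H86.RD.SCHUR
import Pool.Agent.J4.H86.RD.GBAS
import Pool.Agent.J4.H86.RD.Defs2

/-! Project RD, piece STEP. -/

set_option autoImplicit false
open MeasureTheory Complex Filter Topology ProbabilityTheory
open scoped ENNReal
open Pool.Agent.H761R2.SV (dbar)

namespace Pool.Agent.J4.H86.RD

section prob
variable {Ω : Type*} [MeasurableSpace Ω] {P : Measure Ω} [IsProbabilityMeasure P]

namespace STEPaux

lemma fub {α : Type*} [MeasurableSpace α] {U : Ω → ℂ} {V : Ω → α} (hU : Measurable U)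
    (hV : Measurable V) (hind : IndepFun U V P) {Φ : ℂ → ℂ → ℝ≥0∞}
    (hΦ : Measurable (Function.uncurry Φ))
    {b : α → ℂ} {w : α → ℝ≥0∞} (hb : Measurable b) (hw : Measurable w) :
    ∫⁻ ω, w (V ω) * Φ (U ω) (b (V ω)) ∂P =
      ∫⁻ v, w v * (∫⁻ ω, Φ (U ω) (b v) ∂P) ∂(P.map V) := by
  have h1 : P.map (fun ω => (U ω, V ω)) = (P.map U).prod (P.map V) :=
    (indepFun_iff_map_prod_eq_prod_map_map hU.aemeasurable hV.aemeasurable).1 hind
  have hF : Measurable fun p : ℂ × α => w p.2 * Φ p.1 (b p.2) :=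
    (hw.comp measurable_snd).mul
      (hΦ.comp (measurable_fst.prodMk (hb.comp measurable_snd)))
  have h2 : ∫⁻ ω, w (V ω) * Φ (U ω) (b (V ω)) ∂P =
      ∫⁻ p, w p.2 * Φ p.1 (b p.2) ∂((P.map U).prod (P.map V)) := by
    rw [← h1, lintegral_map hF (hU.prodMk hV)]
  have : IsProbabilityMeasure (P.map V) := Measure.isProbabilityMeasure_map hV.aemeasurable
  have : IsProbabilityMeasure (P.map U) := Measure.isProbabilityMeasure_map hU.aemeasurable
  rw [h2, lintegral_prod_symm _ hF.aemeasurable]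
  refine lintegral_congr fun v => ?_
  have h3 : Measurable fun u : ℂ => Φ u (b v) := hΦ.comp (measurable_id.prodMk measurable_const)
  have h4 : ∫⁻ u : ℂ, w v * Φ u (b v) ∂(P.map U) = w v * ∫⁻ ω, Φ (U ω) (b v) ∂P := by
    rw [lintegral_const_mul _ h3, lintegral_map h3 hU]
  exact h4

lemma ind {α : Type*} [MeasurableSpace α] {U : Ω → ℂ} {V : Ω → α} (hU : Measurable U)
    (hV : Measurable V) (hind : IndepFun U V P) {Φ Ψ : ℂ → ℂ → ℝ≥0∞}
    (hΦ : Measurable (Function.uncurry Φ)) (hΨ : Measurable (Function.uncurry Ψ))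
    (h : ∀ b : ℂ, ∫⁻ ω, Φ (U ω) b ∂P ≤ ∫⁻ ω, Ψ (U ω) b ∂P)
    {b : α → ℂ} {w : α → ℝ≥0∞} (hb : Measurable b) (hw : Measurable w) :
    ∫⁻ ω, w (V ω) * Φ (U ω) (b (V ω)) ∂P ≤ ∫⁻ ω, w (V ω) * Ψ (U ω) (b (V ω)) ∂P := by
  rw [fub hU hV hind hΦ hb hw, fub hU hV hind hΨ hb hw]
  exact lintegral_mono fun v => mul_le_mul_right (h (b v)) _

end STEPaux

variable {ι : Type*} [DecidableEq ι]

namespace STEPaux

/-- extension of a vector on `A` by zero, shifted by `z` on `A`. -/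
noncomputable def ex (A : Finset ι) (z : ℂ) (v : A → ℂ) (i : ι) : ℂ :=
  if h : i ∈ A then v ⟨i, h⟩ - z else 0

lemma measurable_ex (A : Finset ι) (z : ℂ) : Measurable (ex A z) := by
  refine measurable_pi_lambda _ fun i => ?_
  by_cases h : i ∈ A
  · simp only [ex, h, dif_pos]
    have h1 : Measurable fun v : A → ℂ => v ⟨i, h⟩ := measurable_pi_apply (⟨i, h⟩ : A)
    exact h1.sub_const z
  · simp only [ex, h, dif_neg, not_false_eq_true]
    exact measurable_const

omit [DecidableEq ι] [IsProbabilityMeasure P] in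
lemma indep {lam : ι → Ω → ℂ} (hm : ∀ i, Measurable (lam i)) (hind : iIndepFun lam P)
    (A : Finset ι) (x : ι) (hx : x ∉ A) :
    IndepFun (lam x) (fun ω (i : A) => lam i ω) P := by
  have h := hind.indepFun_finset {x} A (by simpa using hx) hm
  have h1 : Measurable fun v : ({x} : Finset ι) → ℂ => v ⟨x, Finset.mem_singleton_self x⟩ :=
    measurable_pi_apply (⟨x, Finset.mem_singleton_self x⟩ : ({x} : Finset ι))
  exact h.comp h1 measurable_id

end STEPaux

open STEPaux in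
theorem step' (B : ι → ι → ℂ) {lam : ι → Ω → ℂ} {s : ℝ} (hs : 0 < s) {C k : ℝ≥0∞} (hC : C ≠ ⊤)
    (hD : Dis P lam s C k) (z : ℂ) (A : Finset ι) (x : ι) (hx : x ∉ A)
    (hA : ∀ᵐ ω ∂P, IsUnit (Mat B A (fun i => lam i ω - z))) :
    (∀ᵐ ω ∂P, IsUnit (Mat B (insert x A) (fun i => lam i ω - z))) ∧
    (∀ y, ∫⁻ ω, ‖G B (insert x A) (fun i => lam i ω - z) x y‖ₑ ^ s ∂P ≤
      C * ∫⁻ ω, ‖(if y = x then (1 : ℂ) else 0) -
        ∑ w ∈ A, B x w * G B A (fun i => lam i ω - z) w y‖ₑ ^ s ∂P) ∧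
    ∀ y, k * ∫⁻ ω, ‖G B (insert x A) (fun i => lam i ω - z) x y‖ₑ ^ s ∂P ≤
      ∫⁻ ω, ‖(lam x ω - z) * G B (insert x A) (fun i => lam i ω - z) x y‖ₑ ^ s ∂P := by
  have hm := hD.meas
  set V : Ω → (A → ℂ) := fun ω i => lam i ω with hV
  have hVm : Measurable V := measurable_pi_lambda _ fun i => hm i
  have hi : IndepFun (lam x) V P := indep hm hD.indep A x hx
  have hG : ∀ ω w y, G B A (fun i => lam i ω - z) w y = G B A (ex A z (V ω)) w y := by
    intro ω w y
    refine G_congr B A _ _ (fun i hi => ?_) w y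
    simp [ex, hi, hV]
  have hβ : ∀ ω, beta B A (fun i => lam i ω - z) x = beta B A (ex A z (V ω)) x := by
    intro ω
    simp only [beta, hG]
  have hGm : ∀ w y, Measurable fun v : A → ℂ => G B A (ex A z v) w y := fun w y =>
    (measurable_G B A w y).comp (measurable_ex A z)
  have hb : Measurable fun v : A → ℂ => beta B A (ex A z v) x + z := by
    refine Measurable.add_const ?_ z
    simp only [beta]
    refine Finset.measurable_sum _ fun w _ => Finset.measurable_sum _ fun u _ => ?_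
    exact ((hGm w u).const_mul _).mul_const _
  -- the two kernels
  have hΦ : Measurable (Function.uncurry fun u b : ℂ => ‖u - b‖ₑ⁻¹ ^ s) := by
    have : Measurable fun p : ℂ × ℂ => ‖p.1 - p.2‖ₑ⁻¹ ^ s :=
      ((measurable_fst.sub measurable_snd).enorm.inv).pow_const s
    exact this
  have hΨ : Measurable (Function.uncurry fun u b : ℂ => ‖u - z‖ₑ ^ s * ‖u - b‖ₑ⁻¹ ^ s) := by
    have : Measurable fun p : ℂ × ℂ => ‖p.1 - z‖ₑ ^ s * ‖p.1 - p.2‖ₑ⁻¹ ^ s :=
      ((measurable_fst.sub_const z).enorm.pow_const s).mul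
        (((measurable_fst.sub measurable_snd).enorm.inv).pow_const s)
    exact this
  have hmom : ∀ {w : (A → ℂ) → ℝ≥0∞}, Measurable w →
      ∫⁻ ω, w (V ω) * ‖lam x ω - (beta B A (ex A z (V ω)) x + z)‖ₑ⁻¹ ^ s ∂P ≤
        C * ∫⁻ ω, w (V ω) ∂P := by
    intro w hw
    have h1 := ind (hm x) hVm hi (Φ := fun u b => ‖u - b‖ₑ⁻¹ ^ s) (Ψ := fun _ _ => C) hΦ
      measurable_const (fun b => by simpa using hD.mom x b)
      (b := fun v => beta B A (ex A z v) x + z) hb hw
    refine h1.trans (le_of_eq ?_)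
    have h2 : Measurable fun ω => w (V ω) := hw.comp hVm
    rw [lintegral_mul_const _ h2, mul_comm]
  have hdec : ∀ {w : (A → ℂ) → ℝ≥0∞}, Measurable w →
      k * ∫⁻ ω, w (V ω) * ‖lam x ω - (beta B A (ex A z (V ω)) x + z)‖ₑ⁻¹ ^ s ∂P ≤
        ∫⁻ ω, w (V ω) * (‖lam x ω - z‖ₑ ^ s *
          ‖lam x ω - (beta B A (ex A z (V ω)) x + z)‖ₑ⁻¹ ^ s) ∂P := by
    intro w hw
    have h1 := ind (hm x) hVm hi (Φ := fun u b => k * ‖u - b‖ₑ⁻¹ ^ s)
      (Ψ := fun u b => ‖u - z‖ₑ ^ s * ‖u - b‖ₑ⁻¹ ^ s) (hΦ.const_mul k)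
      hΨ (fun b => by
        have h2 : Measurable fun ω => ‖lam x ω - b‖ₑ⁻¹ ^ s :=
          (((hm x).sub_const b).enorm.inv).pow_const s
        rw [lintegral_const_mul _ h2]
        exact hD.dec x z b)
      (b := fun v => beta B A (ex A z v) x + z) hb hw
    refine le_trans (le_of_eq ?_) h1
    have h3 : Measurable fun ω => w (V ω) *
        ‖lam x ω - (beta B A (ex A z (V ω)) x + z)‖ₑ⁻¹ ^ s :=
      (hw.comp hVm).mul ((((hm x).sub (hb.comp hVm)).enorm.inv).pow_const s)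
    rw [← lintegral_const_mul _ h3]
    refine lintegral_congr fun ω => ?_
    ring
  have hne : ∀ᵐ ω ∂P, lam x ω ≠ beta B A (ex A z (V ω)) x + z := by
    have h1 := hmom (w := fun _ => 1) measurable_const
    simp only [one_mul, lintegral_const, measure_univ, mul_one] at h1
    have h2 : Measurable fun ω => ‖lam x ω - (beta B A (ex A z (V ω)) x + z)‖ₑ⁻¹ ^ s :=
      (((hm x).sub (hb.comp hVm)).enorm.inv).pow_const s
    have h3 := ae_lt_top h2 (ne_top_of_le_ne_top hC h1)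
    filter_upwards [h3] with ω h4 h5
    rw [h5, sub_self, enorm_zero, ENNReal.inv_zero, ENNReal.top_rpow_of_pos hs] at h4
    exact absurd h4 (lt_irrefl _)
  have key : ∀ᵐ ω ∂P, IsUnit (Mat B (insert x A) (fun i => lam i ω - z)) ∧
      ∀ y, ‖G B (insert x A) (fun i => lam i ω - z) x y‖ₑ ^ s =
        ‖(if y = x then 1 else 0) - ∑ w ∈ A, B x w * G B A (ex A z (V ω)) w y‖ₑ ^ s *
          ‖lam x ω - (beta B A (ex A z (V ω)) x + z)‖ₑ⁻¹ ^ s := by
    filter_upwards [hA, hne] with ω h1 h2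
    have h3 : (fun i => lam i ω - z) x ≠ beta B A (fun i => lam i ω - z) x := by
      intro h4
      apply h2
      rw [← hβ, ← h4]
      ring
    obtain ⟨h5, h6⟩ := schur B A (fun i => lam i ω - z) x hx h1 h3
    refine ⟨h5, fun y => ?_⟩
    have h7 := h6 y
    simp only [hG] at h7
    have h8 : lam x ω - z - beta B A (fun i => lam i ω - z) x =
        lam x ω - (beta B A (ex A z (V ω)) x + z) := by
      rw [hβ]; ring
    rw [h8] at h7
    have h9 : lam x ω - (beta B A (ex A z (V ω)) x + z) ≠ 0 := sub_ne_zero.2 h2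
    rw [← ENNReal.mul_rpow_of_nonneg _ _ hs.le, ← h7, enorm_mul, mul_assoc,
      ENNReal.mul_inv_cancel (by simpa using h9) enorm_ne_top, mul_one]
  have hw : ∀ y, Measurable fun v : A → ℂ =>
      ‖(if y = x then (1 : ℂ) else 0) - ∑ w ∈ A, B x w * G B A (ex A z v) w y‖ₑ ^ s := by
    intro y
    refine (Measurable.enorm ?_).pow_const s
    refine Measurable.const_sub ?_ _
    exact Finset.measurable_sum _ fun w _ => (hGm w y).const_mul _
  have hI : ∀ y, ∫⁻ ω, ‖G B (insert x A) (fun i => lam i ω - z) x y‖ₑ ^ s ∂P =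
      ∫⁻ ω, ‖(if y = x then (1 : ℂ) else 0) -
        ∑ w ∈ A, B x w * G B A (ex A z (V ω)) w y‖ₑ ^ s *
          ‖lam x ω - (beta B A (ex A z (V ω)) x + z)‖ₑ⁻¹ ^ s ∂P := fun y =>
    lintegral_congr_ae (key.mono fun ω h => h.2 y)
  refine ⟨key.mono fun ω h => h.1, fun y => ?_, fun y => ?_⟩
  · rw [hI y]
    simp only [hG]
    exact hmom (hw y)
  · rw [hI y]
    refine (hdec (hw y)).trans (le_of_eq ?_)
    refine lintegral_congr_ae (key.mono fun ω h => ?_)
    simp only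
    rw [enorm_mul, ENNReal.mul_rpow_of_nonneg _ _ hs.le, h.2 y]
    ring

end prob

end Pool.Agent.J4.H86.RD
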