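import Pool.Agent.J4.H86.RD.Defs2
import Pool.Agent.J4.H86.RD.GBAS
import Pool.Agent.J4.H86.RD.STEP

/-! Project RD, piece FV in the version with `s`-th moments. -/

set_option autoImplicit false
open MeasureTheory Complex Filter Topology ProbabilityTheory
open scoped ENNReal
open Pool.Agent.H761R2.SV (dbar)

namespace Pool.Agent.J4.H86.RD.FVS

open Pool.Agent.J4.H86.RD

variable {Ω : Type*} [MeasurableSpace Ω] {P : Measure Ω} [IsProbabilityMeasure P]
variable {ι : Type*} [DecidableEq ι]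

/-- the statement of the piece STEP (`step'`), for one measure -/
def StepStm' (P : Measure Ω) (ι : Type*) [DecidableEq ι] : Prop :=
  ∀ (B : ι → ι → ℂ) (lam : ι → Ω → ℂ) (s : ℝ) (_ : 0 < s) (C k : ℝ≥0∞) (_ : C ≠ ⊤)
    (_ : Dis P lam s C k) (z : ℂ) (A : Finset ι) (x : ι) (_ : x ∉ A)
    (_ : ∀ᵐ ω ∂P, IsUnit (Mat B A (fun i => lam i ω - z))),
    (∀ᵐ ω ∂P, IsUnit (Mat B (insert x A) (fun i => lam i ω - z))) ∧
    (∀ y, ∫⁻ ω, ‖G B (insert x A) (fun i => lam i ω - z) x y‖ₑ ^ s ∂P ≤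
      C * ∫⁻ ω, ‖(if y = x then (1 : ℂ) else 0) -
        ∑ w ∈ A, B x w * G B A (fun i => lam i ω - z) w y‖ₑ ^ s ∂P) ∧
    ∀ y, k * ∫⁻ ω, ‖G B (insert x A) (fun i => lam i ω - z) x y‖ₑ ^ s ∂P ≤
      ∫⁻ ω, ‖(lam x ω - z) * G B (insert x A) (fun i => lam i ω - z) x y‖ₑ ^ s ∂P

lemma two_pow {s : ℝ} (h1 : 1 ≤ s) (h2 : s ≤ 2) (a b : ℂ) :
    ‖a - b‖ₑ ^ s ≤ 2 * (‖a‖ₑ ^ s + ‖b‖ₑ ^ s) := by
  have hs0 : 0 ≤ s := by linarith
  calc ‖a - b‖ₑ ^ s ≤ (‖a‖ₑ + ‖b‖ₑ) ^ s := ENNReal.rpow_le_rpow enorm_sub_le hs0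
    _ ≤ 2 ^ (s - 1) * (‖a‖ₑ ^ s + ‖b‖ₑ ^ s) := ENNReal.rpow_add_le_mul_rpow_add_rpow _ _ h1
    _ ≤ 2 * (‖a‖ₑ ^ s + ‖b‖ₑ ^ s) := by
      gcongr
      calc (2 : ℝ≥0∞) ^ (s - 1) ≤ 2 ^ (1 : ℝ) :=
            ENNReal.rpow_le_rpow_of_exponent_le (by norm_num) (by linarith)
        _ = 2 := ENNReal.rpow_one _

omit [DecidableEq ι] in
lemma holder_row {s q : ℝ} (hsq : s.HolderConjugate q) (A : Finset ι) (b g : ι → ℂ) :
    ‖∑ w ∈ A, b w * g w‖ₑ ^ s ≤ (∑' w, ‖b w‖ₑ ^ q) ^ (s / q) * ∑ w ∈ A, ‖g w‖ₑ ^ s := by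
  have hs : 0 < s := hsq.pos
  have hq : 0 < q := hsq.symm.pos
  calc ‖∑ w ∈ A, b w * g w‖ₑ ^ s ≤ (∑ w ∈ A, ‖g w‖ₑ * ‖b w‖ₑ) ^ s := by
        refine ENNReal.rpow_le_rpow ?_ hs.le
        refine (enorm_sum_le _ _).trans (le_of_eq ?_)
        exact Finset.sum_congr rfl fun w _ => by rw [enorm_mul, mul_comm]
    _ ≤ ((∑ w ∈ A, ‖g w‖ₑ ^ s) ^ (1 / s) * (∑ w ∈ A, ‖b w‖ₑ ^ q) ^ (1 / q)) ^ s :=
        ENNReal.rpow_le_rpow (ENNReal.inner_le_Lp_mul_Lq A _ _ hsq) hs.le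
    _ = (∑ w ∈ A, ‖g w‖ₑ ^ s) * (∑ w ∈ A, ‖b w‖ₑ ^ q) ^ (s / q) := by
        rw [ENNReal.mul_rpow_of_nonneg _ _ hs.le, ← ENNReal.rpow_mul, ← ENNReal.rpow_mul,
          one_div_mul_cancel hs.ne', ENNReal.rpow_one]
        congr 2
        ring
    _ ≤ _ := by
        rw [mul_comm]
        refine mul_le_mul_left (ENNReal.rpow_le_rpow (ENNReal.sum_le_tsum A) ?_) _
        positivity

omit [DecidableEq ι] in
lemma row_fin {q : ℝ} (hq : 0 < q) (b : ι → ℂ) (h : Summable (fun w => ‖b w‖ ^ q)) :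
    ∑' w, ‖b w‖ₑ ^ q ≠ ⊤ := by
  have h1 : ∀ w, ‖b w‖ₑ ^ q = ENNReal.ofReal (‖b w‖ ^ q) := by
    intro w
    rw [← ofReal_norm, ENNReal.ofReal_rpow_of_nonneg (norm_nonneg _) hq.le]
  simp only [h1]
  exact h.tsum_ofReal_ne_top

/-- FV from STEP, the constant is uniform in `lam`. -/
theorem fvu_of (hstep : StepStm' P ι) (B : ι → ι → ℂ) {s q : ℝ}
    (hsq : s.HolderConjugate q)
    (hs2 : s ≤ 2) {C k κ : ℝ≥0∞} (hC : C ≠ ⊤) (hk : k ≠ ⊤) (hκ : 2 * κ < k)
    {F : Finset ι} (hB : Sml s q κ B F) :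
    ∃ a : ℝ≥0∞, a ≠ ⊤ ∧ ∀ (lam : ι → Ω → ℂ), Dis P lam s C k → ∀ (z : ℂ) (A : Finset ι),
      (∀ᵐ ω ∂P, IsUnit (Mat B A (fun i => lam i ω - z))) ∧
      ∀ y, ∫⁻ ω, ∑ x ∈ A, ‖G B A (fun i => lam i ω - z) x y‖ₑ ^ s ∂P ≤ a := by
  classical
  have hs : 0 < s := hsq.pos
  have hs1 : 1 ≤ s := hsq.lt.le
  have hq : 0 < q := hsq.symm.pos
  set K : ι → ℝ≥0∞ := fun x => (∑' w, ‖B x w‖ₑ ^ q) ^ (s / q) with hK
  have hKfin : ∀ x, K x ≠ ⊤ := fun x =>
    ENNReal.rpow_ne_top_of_nonneg (by positivity) (row_fin hq _ (hB.row x))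
  have hκfin : 2 * κ ≠ ⊤ := (hκ.trans_le le_top).ne
  have hd0 : k - 2 * κ ≠ 0 := (tsub_pos_of_lt hκ).ne'
  have hdtop : k - 2 * κ ≠ ⊤ := ne_top_of_le_ne_top hk tsub_le_self
  -- the constants
  let D : ℝ≥0∞ → ℝ≥0∞ := fun b => b + (2 + 2 * κ * b) / (k - 2 * κ)
  have hDfin : ∀ b, b ≠ ⊤ → D b ≠ ⊤ := by
    intro b hb
    refine ENNReal.add_ne_top.2 ⟨hb, ENNReal.div_ne_top ?_ hd0⟩
    exact ENNReal.add_ne_top.2 ⟨by norm_num, ENNReal.mul_ne_top hκfin hb⟩
  let a : ℕ → ℝ≥0∞ := fun m => Nat.rec (D 0)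
    (fun _ am => D (∑ x ∈ F, 2 * C * (1 + K x * am))) m
  have ha0 : a 0 = D 0 := rfl
  have has : ∀ m, a (m + 1) = D (∑ x ∈ F, 2 * C * (1 + K x * a m)) := fun m => rfl
  have hafin : ∀ m, a m ≠ ⊤ := by
    intro m
    induction m with
    | zero => rw [ha0]; exact hDfin 0 (by norm_num)
    | succ m ih =>
      rw [has]
      refine hDfin _ (ENNReal.sum_ne_top.2 fun x _ => ?_)
      refine ENNReal.mul_ne_top (ENNReal.mul_ne_top (by norm_num) hC) ?_
      exact ENNReal.add_ne_top.2 ⟨ENNReal.one_ne_top, ENNReal.mul_ne_top (hKfin x) ih⟩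
  refine ⟨∑ m ∈ Finset.range (F.card + 1), a m, ENNReal.sum_ne_top.2 fun m _ => hafin m,
    fun lam hD => ?_⟩
  -- invertibility
  have hinv : ∀ (z : ℂ) (A : Finset ι), ∀ᵐ ω ∂P, IsUnit (Mat B A (fun i => lam i ω - z)) := by
    intro z A
    induction A using Finset.induction_on with
    | empty =>
      refine Filter.Eventually.of_forall fun ω => ?_
      have : IsEmpty (∅ : Finset ι) := by simpa using (inferInstance : IsEmpty (∅ : Finset ι))
      exact isUnit_of_subsingleton _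
    | insert x A hx ih => exact (hstep B lam s hs C k hC hD z A x hx ih).1
  -- measurability
  have hGm : ∀ (z : ℂ) (A : Finset ι) (x y : ι),
      Measurable (fun ω => G B A (fun i => lam i ω - z) x y) := by
    intro z A x y
    exact (measurable_G B A x y).comp
      (measurable_pi_lambda _ fun i => (hD.meas i).sub_const z)
  have hGs : ∀ (z : ℂ) (A : Finset ι) (x y : ι),
      Measurable (fun ω => ‖G B A (fun i => lam i ω - z) x y‖ₑ ^ s) :=
    fun z A x y => (hGm z A x y).enorm.pow_const s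
  -- the sums of the moments
  set S : ℂ → Finset ι → ι → ℝ≥0∞ := fun z A y =>
    ∫⁻ ω, ∑ x ∈ A, ‖G B A (fun i => lam i ω - z) x y‖ₑ ^ s ∂P with hS
  have hSsum : ∀ z A y, S z A y = ∑ x ∈ A, ∫⁻ ω, ‖G B A (fun i => lam i ω - z) x y‖ₑ ^ s ∂P :=
    fun z A y => lintegral_finsetSum A fun x _ => hGs z A x y
  have hG0 : ∀ (A : Finset ι) (l : ι → ℂ) (w y : ι), ¬ (w ∈ A ∧ y ∈ A) → G B A l w y = 0 := by
    intro A l w y h
    unfold G
    rw [dif_neg h]
  have hone : ∀ (a b : ι), ‖(if a = b then (1 : ℂ) else 0)‖ₑ ^ s = if a = b then 1 else 0 := by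
    intro a b
    split_ifs
    · simp
    · simp [hs]
  -- the one-site estimate
  have hsite : ∀ (z : ℂ) (A : Finset ι) (x : ι), x ∈ A → ∀ y,
      ∫⁻ ω, ‖G B A (fun i => lam i ω - z) x y‖ₑ ^ s ∂P
        ≤ 2 * C * (1 + K x * S z (A.erase x) y) := by
    intro z A x hx y
    have hxA' : x ∉ A.erase x := Finset.notMem_erase x A
    have h1 := (hstep B lam s hs C k hC hD z (A.erase x) x hxA' (hinv z _)).2.1 y
    rw [Finset.insert_erase hx] at h1
    refine h1.trans ?_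
    calc C * ∫⁻ ω, ‖(if y = x then (1 : ℂ) else 0) -
          ∑ w ∈ A.erase x, B x w * G B (A.erase x) (fun i => lam i ω - z) w y‖ₑ ^ s ∂P
        ≤ C * ∫⁻ ω, 2 * (1 + K x *
            ∑ w ∈ A.erase x, ‖G B (A.erase x) (fun i => lam i ω - z) w y‖ₑ ^ s) ∂P := by
          gcongr with ω
          refine (two_pow hs1 hs2 _ _).trans ?_
          gcongr
          · rw [hone]
            split_ifs <;> simp
          · exact holder_row hsq _ _ _
      _ = 2 * C * (1 + K x * S z (A.erase x) y) := by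
          rw [lintegral_const_mul' _ _ (by norm_num), lintegral_add_left measurable_const,
            lintegral_const_mul' _ _ (hKfin x), lintegral_one, measure_univ]
          ring
  -- finiteness
  have hfin : ∀ (z : ℂ) (A : Finset ι) (y : ι), S z A y ≠ ⊤ := by
    intro z A
    induction A using Finset.strongInduction with
    | H A ih =>
      intro y
      rw [hSsum]
      refine ENNReal.sum_ne_top.2 fun x hx => ne_top_of_le_ne_top ?_ (hsite z A x hx y)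
      refine ENNReal.mul_ne_top (ENNReal.mul_ne_top (by norm_num) hC) ?_
      exact ENNReal.add_ne_top.2 ⟨ENNReal.one_ne_top,
        ENNReal.mul_ne_top (hKfin x) (ih _ (Finset.erase_ssubset hx) y)⟩
  -- the sites outside `F`
  have hout : ∀ (z : ℂ) (A : Finset ι) (y : ι) (b : ℝ≥0∞),
      ∑ x ∈ A ∩ F, ∫⁻ ω, ‖G B A (fun i => lam i ω - z) x y‖ₑ ^ s ∂P ≤ b →
      S z A y ≤ b + (2 + 2 * κ * b) / (k - 2 * κ) := by
    intro z A y b hb
    by_cases hyA : y ∈ A
    swap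
    · have h0 : S z A y = 0 := by
        rw [hSsum]
        refine Finset.sum_eq_zero fun x _ => ?_
        have : ∀ ω, ‖G B A (fun i => lam i ω - z) x y‖ₑ ^ s = 0 := by
          intro ω
          rw [hG0 A _ x y (fun h => hyA h.2), enorm_zero, ENNReal.zero_rpow_of_pos hs]
        simp only [this, lintegral_zero]
      rw [h0]
      exact zero_le
    set So : ℝ≥0∞ := ∑ x ∈ A \ F, ∫⁻ ω, ‖G B A (fun i => lam i ω - z) x y‖ₑ ^ s ∂P with hSo
    set Si : ℝ≥0∞ := ∑ x ∈ A ∩ F, ∫⁻ ω, ‖G B A (fun i => lam i ω - z) x y‖ₑ ^ s ∂P with hSi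
    have hsplit : S z A y = Si + So := by
      rw [hSsum, hSi, hSo, Finset.sum_inter_add_sum_sdiff]
    have hSofin : So ≠ ⊤ := by
      have := hfin z A y
      rw [hsplit] at this
      exact (ENNReal.add_ne_top.1 this).2
    have h1 : ∀ x ∈ A \ F, k * ∫⁻ ω, ‖G B A (fun i => lam i ω - z) x y‖ₑ ^ s ∂P ≤
        2 * ((if x = y then 1 else 0) +
          ∫⁻ ω, ‖∑ w ∈ A.erase x, B x w * G B A (fun i => lam i ω - z) w y‖ₑ ^ s ∂P) := by
      intro x hx
      have hxA : x ∈ A := (Finset.mem_sdiff.1 hx).1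
      have h2 := (hstep B lam s hs C k hC hD z (A.erase x) x (Finset.notMem_erase x A)
        (hinv z _)).2.2 y
      rw [Finset.insert_erase hxA] at h2
      refine h2.trans ?_
      calc ∫⁻ ω, ‖(lam x ω - z) * G B A (fun i => lam i ω - z) x y‖ₑ ^ s ∂P
          ≤ ∫⁻ ω, 2 * ((if x = y then 1 else 0) +
              ‖∑ w ∈ A.erase x, B x w * G B A (fun i => lam i ω - z) w y‖ₑ ^ s) ∂P := by
            refine lintegral_mono_ae ?_
            filter_upwards [hinv z A] with ω hω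
            have h3 := G_col B A (fun i => lam i ω - z) hω x y hxA hyA
            have h4 : (lam x ω - z) * G B A (fun i => lam i ω - z) x y
                = (if x = y then (1 : ℂ) else 0)
                  - ∑ w ∈ A.erase x, B x w * G B A (fun i => lam i ω - z) w y :=
              eq_sub_of_add_eq h3
            rw [h4]
            refine (two_pow hs1 hs2 _ _).trans ?_
            rw [hone]
        _ = _ := by
            rw [lintegral_const_mul' _ _ (by norm_num), lintegral_add_left measurable_const,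
              lintegral_const, measure_univ, mul_one]
    have h5 : k * So ≤ 2 + 2 * κ * (Si + So) := by
      calc k * So = ∑ x ∈ A \ F, k * ∫⁻ ω, ‖G B A (fun i => lam i ω - z) x y‖ₑ ^ s ∂P := by
            rw [hSo, Finset.mul_sum]
        _ ≤ ∑ x ∈ A \ F, 2 * ((if x = y then 1 else 0) +
              ∫⁻ ω, ‖∑ w ∈ A.erase x, B x w * G B A (fun i => lam i ω - z) w y‖ₑ ^ s ∂P) :=
            Finset.sum_le_sum h1
        _ = 2 * (∑ x ∈ A \ F, (if x = y then 1 else 0) +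
              ∫⁻ ω, ∑ x ∈ A \ F,
                ‖∑ w ∈ A.erase x, B x w * G B A (fun i => lam i ω - z) w y‖ₑ ^ s ∂P) := by
            rw [← Finset.mul_sum, Finset.sum_add_distrib, lintegral_finsetSum]
            intro x _
            exact (Finset.measurable_fun_sum _ fun w _ =>
              (hGm z A w y).const_mul _).enorm.pow_const s
        _ ≤ 2 * (1 + ∫⁻ ω, κ * ∑ w ∈ A, ‖G B A (fun i => lam i ω - z) w y‖ₑ ^ s ∂P) := by
            gcongr with ω
            · rw [Finset.sum_ite_eq']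
              split_ifs <;> simp
            · exact hB.small A (fun w => G B A (fun i => lam i ω - z) w y)
        _ = 2 * (1 + κ * S z A y) := by
            rw [lintegral_const_mul]
            exact Finset.measurable_fun_sum _ fun w _ => hGs z A w y
        _ = 2 + 2 * κ * (Si + So) := by
            rw [hsplit]
            ring
    have h6 : (k - 2 * κ) * So ≤ 2 + 2 * κ * Si := by
      have hkk : k = (k - 2 * κ) + 2 * κ := (tsub_add_cancel_of_le hκ.le).symm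
      have h7 : (k - 2 * κ) * So + 2 * κ * So ≤ (2 + 2 * κ * Si) + 2 * κ * So := by
        calc (k - 2 * κ) * So + 2 * κ * So = k * So := by
              rw [← add_mul, ← hkk]
          _ ≤ 2 + 2 * κ * (Si + So) := h5
          _ = _ := by ring
      exact (ENNReal.add_le_add_iff_right (ENNReal.mul_ne_top hκfin hSofin)).1 h7
    have h8 : So ≤ (2 + 2 * κ * b) / (k - 2 * κ) := by
      rw [ENNReal.le_div_iff_mul_le (Or.inl hd0) (Or.inl hdtop), mul_comm]
      refine h6.trans ?_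
      gcongr
    rw [hsplit]
    exact add_le_add hb h8
  have hmain : ∀ (m : ℕ) (z : ℂ) (A : Finset ι), (A ∩ F).card = m → ∀ y, S z A y ≤ a m := by
    intro m
    induction m with
    | zero =>
      intro z A hA y
      rw [ha0]
      refine hout z A y 0 ?_
      rw [Finset.card_eq_zero.1 hA, Finset.sum_empty]
    | succ m ih =>
      intro z A hA y
      rw [has]
      refine hout z A y _ ?_
      calc ∑ x ∈ A ∩ F, ∫⁻ ω, ‖G B A (fun i => lam i ω - z) x y‖ₑ ^ s ∂P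
          ≤ ∑ x ∈ A ∩ F, 2 * C * (1 + K x * a m) := by
            refine Finset.sum_le_sum fun x hx => ?_
            have hxA : x ∈ A := (Finset.mem_inter.1 hx).1
            refine (hsite z A x hxA y).trans ?_
            gcongr
            refine ih z (A.erase x) ?_ y
            have : (A.erase x) ∩ F = (A ∩ F).erase x := by
              ext w
              simp only [Finset.mem_inter, Finset.mem_erase]
              tauto
            rw [this, Finset.card_erase_of_mem hx, hA]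
            rfl
        _ ≤ ∑ x ∈ F, 2 * C * (1 + K x * a m) :=
            Finset.sum_le_sum_of_subset Finset.inter_subset_right
  refine fun z A => ⟨hinv z A, fun y => ?_⟩
  refine (hmain _ z A rfl y).trans ?_
  refine Finset.single_le_sum (f := a) (fun _ _ => zero_le) ?_
  exact Finset.mem_range.2 (Nat.lt_succ_of_le (Finset.card_le_card Finset.inter_subset_right))

end Pool.Agent.J4.H86.RD.FVS

namespace Pool.Agent.J4.H86.RD

theorem fvu {Ω : Type*} [MeasurableSpace Ω] {P : Measure Ω} [IsProbabilityMeasure P]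
    {ι : Type*} [DecidableEq ι] (B : ι → ι → ℂ) {s q : ℝ} (hsq : s.HolderConjugate q)
    (hs2 : s ≤ 2) {C k κ : ℝ≥0∞} (hC : C ≠ ⊤) (hk : k ≠ ⊤) (hκ : 2 * κ < k)
    {F : Finset ι} (hB : Sml s q κ B F) :
    ∃ a : ℝ≥0∞, a ≠ ⊤ ∧ ∀ (lam : ι → Ω → ℂ), Dis P lam s C k → ∀ (z : ℂ) (A : Finset ι),
      (∀ᵐ ω ∂P, IsUnit (Mat B A (fun i => lam i ω - z))) ∧
      ∀ y, ∫⁻ ω, ∑ x ∈ A, ‖G B A (fun i => lam i ω - z) x y‖ₑ ^ s ∂P ≤ a :=
  FVS.fvu_of (fun B _ _ hs _ _ hC hD z A x hx hA => step' B hs hC hD z A x hx hA)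
    B hsq hs2 hC hk hκ hB

section prob
variable {Ω : Type*} [MeasurableSpace Ω] {P : Measure Ω} [IsProbabilityMeasure P]
variable {ι : Type*} [DecidableEq ι]

theorem fv' (B : ι → ι → ℂ) {lam : ι → Ω → ℂ} {s q : ℝ} (hsq : s.HolderConjugate q)
    (hs2 : s ≤ 2) {C k κ : ℝ≥0∞} (hC : C ≠ ⊤) (hk : k ≠ ⊤) (hκ : 2 * κ < k)
    (hD : Dis P lam s C k) {F : Finset ι} (hB : Sml s q κ B F) :
    ∃ a : ℝ≥0∞, a ≠ ⊤ ∧ ∀ (z : ℂ) (A : Finset ι),
      (∀ᵐ ω ∂P, IsUnit (Mat B A (fun i => lam i ω - z))) ∧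
      ∀ y, ∫⁻ ω, ∑ x ∈ A, ‖G B A (fun i => lam i ω - z) x y‖ₑ ^ s ∂P ≤ a := by
  obtain ⟨a, ha, h⟩ := fvu (P := P) B hsq hs2 hC hk hκ hB
  exact ⟨a, ha, h lam hD⟩

end prob

end Pool.Agent.J4.H86.RD
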