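import Pool.Agent.J4.H86.RD.Defs

set_option autoImplicit false
open MeasureTheory Complex Filter Topology ProbabilityTheory
open scoped ENNReal
open Pool.Agent.H761R2.SV (dbar)

namespace Pool.Agent.J4.H86.RD

section prob
variable {Ω : Type*} [MeasurableSpace Ω] {P : Measure Ω} [IsProbabilityMeasure P]

/-- For independent `U`, `V`: the integral of `w(V) Φ(U, b(V))` is the integral over the law of
`V` of `w(v) E Φ(U, b(v))`. -/
theorem ind1_eq {α : Type*} [MeasurableSpace α] {U : Ω → ℂ} {V : Ω → α} (hU : Measurable U)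
    (hV : Measurable V) (hind : IndepFun U V P) {Φ : ℂ → ℂ → ℝ≥0∞}
    (hΦ : Measurable (Function.uncurry Φ))
    {b : α → ℂ} {w : α → ℝ≥0∞} (hb : Measurable b) (hw : Measurable w) :
    ∫⁻ ω, w (V ω) * Φ (U ω) (b (V ω)) ∂P =
      ∫⁻ v, w v * ∫⁻ ω, Φ (U ω) (b v) ∂P ∂(P.map V) := by
  have hmap := (indepFun_iff_map_prod_eq_prod_map_map hU.aemeasurable hV.aemeasurable).1 hind
  have hμV : IsProbabilityMeasure (P.map V) := Measure.isProbabilityMeasure_map hV.aemeasurable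
  have hμU : IsProbabilityMeasure (P.map U) := Measure.isProbabilityMeasure_map hU.aemeasurable
  set F : ℂ × α → ℝ≥0∞ := fun p => w p.2 * Φ p.1 (b p.2) with hFdef
  have hΦ' : Measurable fun p : ℂ × α => Φ p.1 (b p.2) :=
    hΦ.comp (measurable_fst.prodMk (hb.comp measurable_snd))
  have hF : Measurable F := (hw.comp measurable_snd).mul hΦ'
  calc ∫⁻ ω, w (V ω) * Φ (U ω) (b (V ω)) ∂P = ∫⁻ ω, F (U ω, V ω) ∂P := rfl
    _ = ∫⁻ p, F p ∂(P.map (fun ω => (U ω, V ω))) := (lintegral_map hF (hU.prodMk hV)).symm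
    _ = ∫⁻ p, F p ∂((P.map U).prod (P.map V)) := by rw [hmap]
    _ = ∫⁻ v, ∫⁻ u, F (u, v) ∂(P.map U) ∂(P.map V) := lintegral_prod_symm' F hF
    _ = ∫⁻ v, w v * ∫⁻ ω, Φ (U ω) (b v) ∂P ∂(P.map V) := by
        refine lintegral_congr fun v => ?_
        have hm : Measurable fun u : ℂ => Φ u (b v) :=
          hΦ.comp (measurable_id.prodMk measurable_const)
        have h1 : ∫⁻ u, F (u, v) ∂(P.map U) = w v * ∫⁻ u, Φ u (b v) ∂(P.map U) := by
          show ∫⁻ u, w v * Φ u (b v) ∂(P.map U) = _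
          exact lintegral_const_mul _ hm
        rw [h1, lintegral_map hm hU]

theorem ind1 {α : Type*} [MeasurableSpace α] {U : Ω → ℂ} {V : Ω → α} (hU : Measurable U)
    (hV : Measurable V) (hind : IndepFun U V P) {Φ Ψ : ℂ → ℂ → ℝ≥0∞}
    (hΦ : Measurable (Function.uncurry Φ)) (hΨ : Measurable (Function.uncurry Ψ))
    (h : ∀ b : ℂ, ∫⁻ ω, Φ (U ω) b ∂P ≤ ∫⁻ ω, Ψ (U ω) b ∂P)
    {b : α → ℂ} {w : α → ℝ≥0∞} (hb : Measurable b) (hw : Measurable w) :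
    ∫⁻ ω, w (V ω) * Φ (U ω) (b (V ω)) ∂P ≤ ∫⁻ ω, w (V ω) * Ψ (U ω) (b (V ω)) ∂P := by
  rw [ind1_eq hU hV hind hΦ hb hw, ind1_eq hU hV hind hΨ hb hw]
  exact lintegral_mono fun v => mul_le_mul_right (h (b v)) (w v)

/-- The case `Ψ = C`: `E w(V) Φ(U, b(V)) ≤ C E w(V)`. -/
theorem ind1_const {α : Type*} [MeasurableSpace α] {U : Ω → ℂ} {V : Ω → α} (hU : Measurable U)
    (hV : Measurable V) (hind : IndepFun U V P) {Φ : ℂ → ℂ → ℝ≥0∞}
    (hΦ : Measurable (Function.uncurry Φ)) {C : ℝ≥0∞}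
    (h : ∀ b : ℂ, ∫⁻ ω, Φ (U ω) b ∂P ≤ C)
    {b : α → ℂ} {w : α → ℝ≥0∞} (hb : Measurable b) (hw : Measurable w) :
    ∫⁻ ω, w (V ω) * Φ (U ω) (b (V ω)) ∂P ≤ C * ∫⁻ ω, w (V ω) ∂P := by
  have h1 := ind1 hU hV hind hΦ (Ψ := fun _ _ => C) measurable_const
    (fun b => by simpa using h b) hb hw
  refine h1.trans (le_of_eq ?_)
  exact (lintegral_mul_const C (hw.comp hV)).trans (mul_comm _ _)

/-- A finite moment `E |U - b|⁻ˢ`, uniformly in `b`, gives `U ≠ b(V)` almost surely. -/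
theorem ind1_ne {α : Type*} [MeasurableSpace α] {U : Ω → ℂ} {V : Ω → α} (hU : Measurable U)
    (hV : Measurable V) (hind : IndepFun U V P) {s : ℝ} (hs : 0 < s) {C : ℝ≥0∞} (hC' : C ≠ ⊤)
    (hC : ∀ b : ℂ, ∫⁻ ω, ‖U ω - b‖ₑ⁻¹ ^ s ∂P ≤ C) {b : α → ℂ} (hb : Measurable b) :
    ∀ᵐ ω ∂P, U ω ≠ b (V ω) := by
  have hΦ : Measurable (Function.uncurry fun u b : ℂ => ‖u - b‖ₑ⁻¹ ^ s) :=
    ((measurable_fst.sub measurable_snd).enorm.inv).pow_const s
  have h := ind1_const hU hV hind hΦ hC (w := fun _ => 1) hb measurable_const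
  simp only [one_mul, lintegral_const, measure_univ, mul_one] at h
  have hm : Measurable fun ω => ‖U ω - b (V ω)‖ₑ⁻¹ ^ s :=
    ((hU.sub (hb.comp hV)).enorm.inv).pow_const s
  have h2 := ae_lt_top hm (lt_of_le_of_lt h (lt_top_iff_ne_top.2 hC')).ne
  filter_upwards [h2] with ω hω heq
  rw [heq, sub_self] at hω
  simp [ENNReal.top_rpow_of_pos hs] at hω

end prob

end Pool.Agent.J4.H86.RD
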