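import Pool.Agent.J4.H86.RD.LAW

/-!
# The decoupling inequality follows from the moment bound
-/

set_option autoImplicit false
open MeasureTheory Complex Filter Topology ProbabilityTheory
open scoped ENNReal

namespace Pool.Agent.J4.H86.RD

namespace Law

theorem ae_ne' {μ : Measure ℂ} {s : ℝ} (hs : 0 < s) {b : ℂ}
    (h : ∫⁻ u, ‖u - b‖ₑ ^ (-s) ∂μ ≠ ⊤) : ∀ᵐ u ∂μ, u ≠ b := by
  have h1 := ae_lt_top (by fun_prop) h
  filter_upwards [h1] with u hu
  rintro rfl
  rw [sub_self, enorm_zero, ENNReal.zero_rpow_of_neg (by linarith)] at hu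
  exact lt_irrefl _ hu

theorem ball_le' {μ : Measure ℂ} {s C : ℝ} (hs : 0 < s) (hC : 0 < C)
    (h : ∀ b : ℂ, ∫⁻ u, ‖u - b‖ₑ ^ (-s) ∂μ ≤ ENNReal.ofReal C) (z : ℂ) {t : ℝ} (ht : 0 < t) :
    μ (Metric.ball z t) ≤ ENNReal.ofReal (C * t ^ s) := by
  have h1 : ENNReal.ofReal (t ^ (-s)) * μ (Metric.ball z t) ≤ ENNReal.ofReal C := by
    calc ENNReal.ofReal (t ^ (-s)) * μ (Metric.ball z t)
        = ∫⁻ _ in Metric.ball z t, ENNReal.ofReal (t ^ (-s)) ∂μ := by
          rw [lintegral_const, Measure.restrict_apply MeasurableSet.univ, Set.univ_inter]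
      _ ≤ ∫⁻ u in Metric.ball z t, ‖u - z‖ₑ ^ (-s) ∂μ := by
          refine lintegral_mono_ae ?_
          filter_upwards [ae_restrict_mem Metric.isOpen_ball.measurableSet, ae_restrict_of_ae
            (ae_ne' hs (ne_top_of_le_ne_top ENNReal.ofReal_ne_top (h z)))] with u h5 h6
          rw [neg_eq h6]
          apply ENNReal.ofReal_le_ofReal
          rw [Metric.mem_ball, dist_eq_norm] at h5
          exact Real.rpow_le_rpow_of_nonpos (norm_pos_iff.mpr (sub_ne_zero.mpr h6)) h5.le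
            (by linarith)
      _ ≤ ∫⁻ u, ‖u - z‖ₑ ^ (-s) ∂μ := setLIntegral_le_lintegral _ _
      _ ≤ _ := h z
  have h2 : ENNReal.ofReal (t ^ s) * ENNReal.ofReal (t ^ (-s)) = 1 := by
    rw [← ENNReal.ofReal_mul (by positivity), ← Real.rpow_add ht]
    simp
  calc μ (Metric.ball z t) = ENNReal.ofReal (t ^ s) *
        (ENNReal.ofReal (t ^ (-s)) * μ (Metric.ball z t)) := by rw [← mul_assoc, h2, one_mul]
    _ ≤ ENNReal.ofReal (t ^ s) * ENNReal.ofReal C := by gcongr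
    _ = ENNReal.ofReal (C * t ^ s) := by
        rw [← ENNReal.ofReal_mul (by positivity), mul_comm]

theorem compl_ge' {μ : Measure ℂ} [IsProbabilityMeasure μ] (z : ℂ)
    {t : ℝ} (h3 : μ (Metric.ball z t) ≤ ENNReal.ofReal (1 / 4)) :
    ENNReal.ofReal (3 / 4) ≤ μ (Metric.ball z t)ᶜ := by
  have h2 : μ (Metric.ball z t) + μ (Metric.ball z t)ᶜ = 1 := by
    rw [measure_add_measure_compl Metric.isOpen_ball.measurableSet, measure_univ]
  have h5 : ENNReal.ofReal (1 / 4) + ENNReal.ofReal (3 / 4) = 1 := by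
    rw [← ENNReal.ofReal_add (by norm_num) (by norm_num)]
    norm_num
  have h6 : ENNReal.ofReal (1 / 4) + ENNReal.ofReal (3 / 4) ≤
      ENNReal.ofReal (1 / 4) + μ (Metric.ball z t)ᶜ := by
    rw [h5, ← h2]
    gcongr
  exact (ENNReal.add_le_add_iff_left ENNReal.ofReal_ne_top).mp h6

/-- the decoupling inequality -/
theorem decouple' (μ : Measure ℂ) [IsProbabilityMeasure μ] {s C : ℝ} (hs : 0 < s) (hC : 0 < C)
    (h : ∀ b : ℂ, ∫⁻ u, ‖u - b‖ₑ ^ (-s) ∂μ ≤ ENNReal.ofReal C) (z b : ℂ) :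
    ∫⁻ u, ‖u - b‖ₑ ^ (-s) ∂μ ≤
      ENNReal.ofReal (4 * C * (6 ^ s / 3 + 4 ^ s)) *
        ∫⁻ u, ‖u - z‖ₑ ^ s * ‖u - b‖ₑ ^ (-s) ∂μ := by
  have hne : ∀ᵐ u ∂μ, u ≠ b := ae_ne' hs (ne_top_of_le_ne_top ENNReal.ofReal_ne_top (h b))
  set τ : ℝ := (4 * C) ^ (-(1 / s)) with hτ
  have h4C : 0 < 4 * C := by positivity
  have hτ0 : 0 < τ := Real.rpow_pos_of_pos h4C _
  have hτs : τ ^ s = (4 * C)⁻¹ := by
    rw [hτ, ← Real.rpow_mul h4C.le, ← Real.rpow_neg_one]
    congr 1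
    field_simp
  have hball : ∀ t : ℝ, t ≤ τ → μ (Metric.ball z t) ≤ ENNReal.ofReal (1 / 4) := by
    intro t ht
    refine (measure_mono (Metric.ball_subset_ball ht)).trans ((ball_le' hs hC h z hτ0).trans ?_)
    apply ENNReal.ofReal_le_ofReal
    rw [hτs]
    apply le_of_eq
    field_simp
  set D : ℝ := ‖z - b‖ with hD
  have hDn : 0 ≤ D := norm_nonneg _
  set L : ℝ≥0∞ := ∫⁻ u, ‖u - z‖ₑ ^ s * ‖u - b‖ₑ ^ (-s) ∂μ with hL
  have hmeas : Measurable fun u : ℂ => ‖u - z‖ₑ ^ s * ‖u - b‖ₑ ^ (-s) := by fun_prop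
  -- lower bounds of `L`
  have low : ∀ (t c : ℝ), t ≤ τ → 0 ≤ c →
      (∀ u : ℂ, u ≠ b → t ≤ ‖u - z‖ → c ≤ ‖u - z‖ / ‖u - b‖) →
      ENNReal.ofReal (3 / 4 * c ^ s) ≤ L := by
    intro t c ht hc hu
    have h1 : ∫⁻ _ in (Metric.ball z t)ᶜ, ENNReal.ofReal (c ^ s) ∂μ ≤
        ∫⁻ u in (Metric.ball z t)ᶜ, ‖u - z‖ₑ ^ s * ‖u - b‖ₑ ^ (-s) ∂μ := by
      refine lintegral_mono_ae ?_
      filter_upwards [ae_restrict_mem Metric.isOpen_ball.measurableSet.compl,
        ae_restrict_of_ae hne] with u h5 h6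
      rw [ratio_eq hs h6]
      refine ENNReal.ofReal_le_ofReal (Real.rpow_le_rpow hc (hu u h6 ?_) hs.le)
      rw [Set.mem_compl_iff, Metric.mem_ball, not_lt, dist_eq_norm] at h5
      exact h5
    rw [lintegral_const, Measure.restrict_apply MeasurableSet.univ, Set.univ_inter] at h1
    refine le_trans ?_ (h1.trans (setLIntegral_le_lintegral _ _))
    rw [mul_comm (3 / 4 : ℝ), ENNReal.ofReal_mul (by positivity)]
    gcongr
    exact compl_ge' z (hball t ht)
  rcases le_or_gt D (τ / 2) with hDr | hDr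
  · -- `b` is close to `z`
    have h1 : ENNReal.ofReal (3 / 4 * (2 / 3) ^ s) ≤ L := by
      refine low (2 * D) (2 / 3) (by linarith) (by norm_num) ?_
      intro u hu h5
      have h6 : 0 < ‖u - b‖ := norm_pos_iff.mpr (sub_ne_zero.mpr hu)
      rw [le_div_iff₀ h6]
      have h7 : ‖u - b‖ ≤ ‖u - z‖ + D := by
        have : u - b = (u - z) + (z - b) := by ring
        rw [this]
        exact norm_add_le _ _
      linarith
    refine (h b).trans ?_
    calc ENNReal.ofReal C ≤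
          ENNReal.ofReal (4 * C * (6 ^ s / 3 + 4 ^ s) * (3 / 4 * (2 / 3) ^ s)) := by
          apply ENNReal.ofReal_le_ofReal
          have e : 4 * C * (6 ^ s / 3 + 4 ^ s) * (3 / 4 * (2 / 3) ^ s) =
              C * (4 ^ s + 3 * (8 / 3) ^ s) := by
            have h41 : (4 : ℝ) ^ s = 6 ^ s * (2 / 3) ^ s := by
              rw [← Real.mul_rpow (by norm_num) (by norm_num)]
              norm_num
            have h42 : (8 / 3 : ℝ) ^ s = 4 ^ s * (2 / 3) ^ s := by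
              rw [← Real.mul_rpow (by norm_num) (by norm_num)]
              norm_num
            rw [h42]
            linear_combination (C : ℝ) * (-h41)
          rw [e]
          have h8 : (1 : ℝ) ≤ 4 ^ s := Real.one_le_rpow (by norm_num) hs.le
          have h9 : (0 : ℝ) < (8 / 3) ^ s := by positivity
          nlinarith [mul_pos hC h9]
      _ = ENNReal.ofReal (4 * C * (6 ^ s / 3 + 4 ^ s)) * ENNReal.ofReal (3 / 4 * (2 / 3) ^ s) := by
          rw [ENNReal.ofReal_mul (by positivity)]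
      _ ≤ _ := by gcongr
  · -- `b` is far from `z`
    have hD0 : 0 < D := by linarith
    have h1 : ENNReal.ofReal (3 / 4 * (τ / (3 * D)) ^ s) ≤ L := by
      refine low τ (τ / (3 * D)) le_rfl (by positivity) ?_
      intro u hu h5
      have h6 : 0 < ‖u - b‖ := norm_pos_iff.mpr (sub_ne_zero.mpr hu)
      have h7 : ‖u - b‖ ≤ ‖u - z‖ + D := by
        have : u - b = (u - z) + (z - b) := by ring
        rw [this]
        exact norm_add_le _ _
      rw [div_le_div_iff₀ (by positivity) h6]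
      nlinarith
    have hsplit : ∫⁻ u, ‖u - b‖ₑ ^ (-s) ∂μ = ∫⁻ u in Metric.ball z (τ / 4), ‖u - b‖ₑ ^ (-s) ∂μ +
        ∫⁻ u in (Metric.ball z (τ / 4))ᶜ, ‖u - b‖ₑ ^ (-s) ∂μ :=
      (lintegral_add_compl _ Metric.isOpen_ball.measurableSet).symm
    have h2 : ∫⁻ u in Metric.ball z (τ / 4), ‖u - b‖ₑ ^ (-s) ∂μ ≤
        ENNReal.ofReal ((2 / D) ^ s / 4) := by
      have h3 : ∫⁻ u in Metric.ball z (τ / 4), ‖u - b‖ₑ ^ (-s) ∂μ ≤
          ∫⁻ _ in Metric.ball z (τ / 4), ENNReal.ofReal ((2 / D) ^ s) ∂μ := by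
        refine lintegral_mono_ae ?_
        filter_upwards [ae_restrict_mem Metric.isOpen_ball.measurableSet,
          ae_restrict_of_ae hne] with u h5 h6
        rw [neg_eq h6]
        apply ENNReal.ofReal_le_ofReal
        rw [Metric.mem_ball, dist_eq_norm] at h5
        have h7 : D ≤ ‖u - b‖ + ‖u - z‖ := by
          have : z - b = (u - b) - (u - z) := by ring
          rw [hD, this]
          exact norm_sub_le _ _
        have h8 : D / 2 ≤ ‖u - b‖ := by linarith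
        have h9 : (2 / D) ^ s = (D / 2) ^ (-s) := by
          rw [Real.rpow_neg (by positivity), ← Real.inv_rpow (by positivity), inv_div]
        rw [h9]
        exact Real.rpow_le_rpow_of_nonpos (by positivity) h8 (by linarith)
      refine h3.trans ?_
      rw [lintegral_const, Measure.restrict_apply MeasurableSet.univ, Set.univ_inter,
        div_eq_mul_one_div ((2 / D) ^ s), ENNReal.ofReal_mul (by positivity)]
      gcongr
      exact hball _ (by linarith)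
    have h3 : ∫⁻ u in (Metric.ball z (τ / 4))ᶜ, ‖u - b‖ₑ ^ (-s) ∂μ ≤
        ENNReal.ofReal ((4 / τ) ^ s) * L := by
      rw [hL, ← lintegral_const_mul _ hmeas]
      refine le_trans ?_ (setLIntegral_le_lintegral (Metric.ball z (τ / 4))ᶜ _)
      refine lintegral_mono_ae ?_
      filter_upwards [ae_restrict_mem Metric.isOpen_ball.measurableSet.compl,
        ae_restrict_of_ae hne] with u h5 h6
      rw [ratio_eq hs h6, neg_eq h6, ← ENNReal.ofReal_mul (by positivity)]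
      apply ENNReal.ofReal_le_ofReal
      rw [Set.mem_compl_iff, Metric.mem_ball, not_lt, dist_eq_norm] at h5
      have h7 : 0 < ‖u - b‖ := norm_pos_iff.mpr (sub_ne_zero.mpr h6)
      rw [← Real.mul_rpow (by positivity) (by positivity), Real.rpow_neg h7.le,
        ← Real.inv_rpow h7.le]
      refine Real.rpow_le_rpow (by positivity) ?_ hs.le
      have h8 : 1 ≤ 4 / τ * ‖u - z‖ := by
        rw [div_mul_eq_mul_div, one_le_div hτ0]
        linarith
      calc ‖u - b‖⁻¹ = 1 * ‖u - b‖⁻¹ := by ring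
        _ ≤ (4 / τ * ‖u - z‖) * ‖u - b‖⁻¹ := by gcongr
        _ = 4 / τ * (‖u - z‖ / ‖u - b‖) := by ring
    have h4 : ENNReal.ofReal ((2 / D) ^ s / 4) ≤ ENNReal.ofReal ((6 / τ) ^ s / 3) * L := by
      calc ENNReal.ofReal ((2 / D) ^ s / 4)
          = ENNReal.ofReal ((6 / τ) ^ s / 3) * ENNReal.ofReal (3 / 4 * (τ / (3 * D)) ^ s) := by
            rw [← ENNReal.ofReal_mul (by positivity)]
            congr 1
            have : (2 / D) ^ s = (6 / τ) ^ s * (τ / (3 * D)) ^ s := by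
              rw [← Real.mul_rpow (by positivity) (by positivity)]
              congr 1
              field_simp
              ring
            rw [this]
            ring
        _ ≤ _ := by gcongr
    rw [hsplit]
    calc _ ≤ ENNReal.ofReal ((6 / τ) ^ s / 3) * L + ENNReal.ofReal ((4 / τ) ^ s) * L :=
          add_le_add (h2.trans h4) h3
      _ = ENNReal.ofReal ((6 / τ) ^ s / 3 + (4 / τ) ^ s) * L := by
          rw [← add_mul, ← ENNReal.ofReal_add (by positivity) (by positivity)]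
      _ ≤ _ := by
          gcongr
          have e1 : (6 / τ) ^ s = 6 ^ s * (4 * C) := by
            rw [Real.div_rpow (by norm_num) hτ0.le, hτs]
            field_simp
          have e2 : (4 / τ) ^ s = 4 ^ s * (4 * C) := by
            rw [Real.div_rpow (by norm_num) hτ0.le, hτs]
            field_simp
          rw [e1, e2]
          apply le_of_eq
          ring

end Law

/-- the decoupling inequality follows from the bound for the moments -/
theorem dec_of_mom (μ : Measure ℂ) [IsProbabilityMeasure μ] {s C : ℝ} (hs : 0 < s) (hC : 0 < C)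
    (h : ∀ b : ℂ, ∫⁻ u, ‖u - b‖ₑ⁻¹ ^ s ∂μ ≤ ENNReal.ofReal C) (z b : ℂ) :
    ENNReal.ofReal (4 * C * (6 ^ s / 3 + 4 ^ s))⁻¹ * ∫⁻ u, ‖u - b‖ₑ⁻¹ ^ s ∂μ ≤
      ∫⁻ u, ‖u - z‖ₑ ^ s * ‖u - b‖ₑ⁻¹ ^ s ∂μ := by
  simp only [inv_rpow_eq] at h ⊢
  have h1 := Law.decouple' μ hs hC h z b
  rw [ENNReal.ofReal_inv_of_pos (by positivity), mul_comm, ← div_eq_mul_inv]
  exact ENNReal.div_le_of_le_mul' h1

/-- piece LAW3: the decoupling inequality follows from the bound for the moments -/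
theorem law3 {s : ℝ} (hs : 0 < s) (hs2 : s ≤ 2) {N : ℝ≥0∞} (hN : N ≠ ⊤) (μ : Measure ℂ)
    [IsProbabilityMeasure μ] (h : ∀ b : ℂ, ∫⁻ u, ‖u - b‖ₑ⁻¹ ^ s ∂μ ≤ N) (z b : ℂ) :
    (256 * N)⁻¹ * ∫⁻ u, ‖u - b‖ₑ⁻¹ ^ s ∂μ ≤ ∫⁻ u, ‖u - z‖ₑ ^ s * ‖u - b‖ₑ⁻¹ ^ s ∂μ := by
  have hN0 : N ≠ 0 := by
    rintro rfl
    have h1 : ∫⁻ u, ‖u - b‖ₑ⁻¹ ^ s ∂μ = 0 := le_antisymm (h b) bot_le
    rw [lintegral_eq_zero_iff (by fun_prop)] at h1
    obtain ⟨u, hu⟩ := h1.exists
    have h2 : ‖u - b‖ₑ⁻¹ ^ s = 0 := hu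
    rw [ENNReal.rpow_eq_zero_iff_of_pos hs, ENNReal.inv_eq_zero] at h2
    exact enorm_ne_top h2
  have hC : 0 < N.toReal := ENNReal.toReal_pos hN0 hN
  have hNC : ENNReal.ofReal N.toReal = N := ENNReal.ofReal_toReal hN
  have h3 := dec_of_mom μ hs hC (fun b => (h b).trans_eq hNC.symm) z b
  refine le_trans ?_ h3
  gcongr
  have e1 : (6 : ℝ) ^ s ≤ 36 := by
    calc (6 : ℝ) ^ s ≤ 6 ^ (2 : ℝ) := Real.rpow_le_rpow_of_exponent_le (by norm_num) hs2
      _ = 36 := by norm_num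
  have e2 : (4 : ℝ) ^ s ≤ 16 := by
    calc (4 : ℝ) ^ s ≤ 4 ^ (2 : ℝ) := Real.rpow_le_rpow_of_exponent_le (by norm_num) hs2
      _ = 16 := by norm_num
  rw [ENNReal.ofReal_inv_of_pos (by positivity), ENNReal.inv_le_inv, ← hNC,
    show (256 : ℝ≥0∞) = ENNReal.ofReal 256 by norm_num, ← ENNReal.ofReal_mul (by norm_num)]
  apply ENNReal.ofReal_le_ofReal
  rw [ENNReal.toReal_ofReal hC.le]
  nlinarith

/-- piece DENS: the moments of a law with density at most `ρ` -/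
theorem dens' (s : ℝ) (hs : 0 < s) (hs2 : s < 2) (ρ : ℝ) (hρ : 0 < ρ) (μ : Measure ℂ)
    [IsProbabilityMeasure μ] (h : μ ≤ ENNReal.ofReal ρ • (volume : Measure ℂ)) (b : ℂ) :
    ∫⁻ u, ‖u - b‖ₑ⁻¹ ^ s ∂μ ≤ ENNReal.ofReal ((2 / (2 - s)) * (Real.pi * ρ) ^ (s / 2)) := by
  simp only [inv_rpow_eq]
  exact Law.moment μ ρ hρ h hs hs2 b

/-- the condition `Dis` follows from the moments -/
theorem dis_of_mom {Ω ι : Type*} [MeasurableSpace Ω] {P : Measure Ω} [IsProbabilityMeasure P]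
    {lam : ι → Ω → ℂ} {s C : ℝ} (hs : 0 < s) (hC : 0 < C) (hm : ∀ i, Measurable (lam i))
    (hind : iIndepFun lam P)
    (h : ∀ (x : ι) (b : ℂ), ∫⁻ ω, ‖lam x ω - b‖ₑ⁻¹ ^ s ∂P ≤ ENNReal.ofReal C) :
    Dis P lam s (ENNReal.ofReal C) (ENNReal.ofReal (4 * C * (6 ^ s / 3 + 4 ^ s))⁻¹) := by
  refine ⟨hm, hind, h, fun x z b => ?_⟩
  have hp : IsProbabilityMeasure (P.map (lam x)) :=
    Measure.isProbabilityMeasure_map (hm x).aemeasurable
  have m1 : ∀ b : ℂ, Measurable fun u : ℂ => ‖u - b‖ₑ⁻¹ ^ s := fun b => by fun_prop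
  have m2 : Measurable fun u : ℂ => ‖u - z‖ₑ ^ s * ‖u - b‖ₑ⁻¹ ^ s := by fun_prop
  have h1 := dec_of_mom (P.map (lam x)) hs hC (fun b => by
    rw [lintegral_map (m1 b) (hm x)]
    exact h x b) z b
  rwa [lintegral_map (m1 b) (hm x), lintegral_map m2 (hm x)] at h1

end Pool.Agent.J4.H86.RD
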