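import Pool.Agent.J4.H86.RD.EX

/-! Piece EXS of project RD: `exists_col'` (exponent `s`) is in `EX.lean`. -/
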