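import Pool.Agent.J4.H86.RD.PROBS0
import Pool.Agent.J4.H86.RD.EXS

set_option autoImplicit false
open MeasureTheory Complex Filter Topology ProbabilityTheory
open scoped ENNReal

namespace Pool.Agent.J4.H86.RD

section prob
variable {Ω : Type*} [MeasurableSpace Ω] {P : Measure Ω} [IsProbabilityMeasure P]
variable {ι : Type*} [DecidableEq ι]

theorem prob_colu {Ω : Type*} [MeasurableSpace Ω] {P : Measure Ω} [IsProbabilityMeasure P]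
    {ι : Type*} [DecidableEq ι] [Countable ι] (B : ι → ι → ℂ) {lam : ι → Ω → ℂ} {s q : ℝ}
    (hsq : s.HolderConjugate q) (hm : ∀ i, Measurable (lam i))
    (hrow : ∀ x, Summable (fun w => ‖B x w‖ ^ q)) (a : ι → ℝ≥0∞) (ha : ∀ y, a y ≠ ⊤)
    (hfv : ∀ (z : ℂ) (A : Finset ι),
      (∀ᵐ ω ∂P, IsUnit (Mat B A (fun i => lam i ω - z))) ∧
      ∀ y, ∫⁻ ω, ∑ x ∈ A, ‖G B A (fun i => lam i ω - z) x y‖ₑ ^ s ∂P ≤ a y) :
    ∀ᵐ ω ∂P, ∀ y, ∃ L : ℂ → ℝ≥0∞, Measurable L ∧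
      (∀ R : ℝ, ∫⁻ z in Metric.closedBall (0 : ℂ) R, L z ≠ ⊤) ∧
      ∀ᵐ z : ℂ, ∃ g : ι → ℂ, ∑' x, ‖g x‖ₑ ^ s ≤ L z ∧
        ∀ x, (lam x ω - z) * g x + ∑' w, (if w = x then 0 else B x w * g w)
          = if x = y then 1 else 0 :=
  prob_col_aux' hsq (fun B l A h1 h2 h3 h4 y h5 => exists_col' hsq B l A h1 h2 h3 h4 y h5)
    B hm hrow a ha hfv

theorem prob_col' [Countable ι] (B : ι → ι → ℂ) {lam : ι → Ω → ℂ} {s q : ℝ}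
    (hsq : s.HolderConjugate q) (hm : ∀ i, Measurable (lam i))
    (hrow : ∀ x, Summable (fun w => ‖B x w‖ ^ q)) (a : ℝ≥0∞) (ha : a ≠ ⊤)
    (hfv : ∀ (z : ℂ) (A : Finset ι),
      (∀ᵐ ω ∂P, IsUnit (Mat B A (fun i => lam i ω - z))) ∧
      ∀ y, ∫⁻ ω, ∑ x ∈ A, ‖G B A (fun i => lam i ω - z) x y‖ₑ ^ s ∂P ≤ a) :
    ∀ᵐ ω ∂P, ∀ y, ∃ L : ℂ → ℝ≥0∞, Measurable L ∧
      (∀ R : ℝ, ∫⁻ z in Metric.closedBall (0 : ℂ) R, L z ≠ ⊤) ∧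
      ∀ᵐ z : ℂ, ∃ g : ι → ℂ, ∑' x, ‖g x‖ₑ ^ s ≤ L z ∧
        ∀ x, (lam x ω - z) * g x + ∑' w, (if w = x then 0 else B x w * g w)
          = if x = y then 1 else 0 :=
  prob_colu B hsq hm hrow (fun _ => a) (fun _ => ha) hfv

end prob

end Pool.Agent.J4.H86.RD
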