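import Pool.Agent.J4.H86.RD.Defs2

/-! Piece SCAL of project RD: row scaling. -/

set_option autoImplicit false
open MeasureTheory Complex Filter Topology ProbabilityTheory
open scoped ENNReal

namespace Pool.Agent.J4.H86.RD

namespace SCALaux

/-- the matrix of the scaled data -/
theorem mat_eq {ι : Type*} [DecidableEq ι] (B : ι → ι → ℂ) (A : Finset ι) (l σ : ι → ℂ) :
    Mat (fun a b => (σ a)⁻¹ * B a b) A (fun i => (σ i)⁻¹ * l i) =
      Matrix.diagonal (fun i : A => (σ i)⁻¹) * Mat B A l := by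
  ext i j
  rw [Matrix.diagonal_mul]
  simp only [Mat, Matrix.of_apply]
  by_cases h : i = j
  · subst h
    simp
  · rw [if_neg h, if_neg h]

theorem unit_diag {ι : Type*} [DecidableEq ι] (A : Finset ι) (σ : ι → ℂ) (hσ : ∀ i, σ i ≠ 0) :
    IsUnit (Matrix.diagonal (fun i : A => (σ i)⁻¹)) := by
  rw [Matrix.isUnit_iff_isUnit_det, Matrix.det_diagonal]
  have h : (∏ i : A, (σ (i : ι))⁻¹) ≠ 0 := Finset.prod_ne_zero_iff.2 fun i _ => inv_ne_zero (hσ i)
  exact h.isUnit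

theorem inv_diag {ι : Type*} [DecidableEq ι] (A : Finset ι) (σ : ι → ℂ) (hσ : ∀ i, σ i ≠ 0) :
    (Matrix.diagonal (fun i : A => (σ i)⁻¹))⁻¹ = Matrix.diagonal (fun i : A => σ i) := by
  refine Matrix.inv_eq_left_inv ?_
  rw [Matrix.diagonal_mul_diagonal, ← Matrix.diagonal_one]
  congr 1
  funext i
  exact mul_inv_cancel₀ (hσ i)

end SCALaux

open SCALaux in
theorem G_scale {ι : Type*} [DecidableEq ι] (B : ι → ι → ℂ) (A : Finset ι) (l σ : ι → ℂ)
    (hσ : ∀ i, σ i ≠ 0) (x y : ι) :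
    G B A l x y = G (fun a b => (σ a)⁻¹ * B a b) A (fun i => (σ i)⁻¹ * l i) x y * (σ y)⁻¹ := by
  unfold G
  by_cases h : x ∈ A ∧ y ∈ A
  · rw [dif_pos h, dif_pos h, mat_eq, Matrix.mul_inv_rev, inv_diag A σ hσ, Matrix.mul_diagonal,
      mul_assoc, mul_inv_cancel₀ (hσ _), mul_one]
  · rw [dif_neg h, dif_neg h, zero_mul]

open SCALaux in
theorem Mat_scale {ι : Type*} [DecidableEq ι] (B : ι → ι → ℂ) (A : Finset ι) (l σ : ι → ℂ)
    (hσ : ∀ i, σ i ≠ 0) :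
    IsUnit (Mat (fun a b => (σ a)⁻¹ * B a b) A (fun i => (σ i)⁻¹ * l i)) ↔ IsUnit (Mat B A l) := by
  rw [mat_eq, Matrix.isUnit_iff_isUnit_det, Matrix.det_mul, Matrix.isUnit_iff_isUnit_det,
    IsUnit.mul_iff]
  have h := (Matrix.isUnit_iff_isUnit_det _).1 (unit_diag A σ hσ)
  exact ⟨fun h1 => h1.2, fun h1 => ⟨h, h1⟩⟩

end Pool.Agent.J4.H86.RD
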