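import Pool.Agent.J4.H86.RD.Defs2
import Pool.Agent.J4.H86.RD.IND1
import Pool.Agent.J4.H86.RD.LAW3
import Pool.Agent.J4.H86.RD.FVS
import Pool.Agent.J4.H86.RD.PROBS
import Pool.Agent.J4.H86.RD.SCAL
import Pool.Agent.J4.H86.RD.FIX

set_option autoImplicit false
open MeasureTheory Complex Filter Topology ProbabilityTheory
open scoped ENNReal

namespace Pool.Agent.J4.H86.RD


section main
variable {Ω : Type*} [MeasurableSpace Ω] {P : Measure Ω} [IsProbabilityMeasure P]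
variable {X : Type*} [NormedAddCommGroup X] [NormedSpace ℂ X] [CompleteSpace X]
variable {ι : Type*} [DecidableEq ι]

omit [DecidableEq ι] in
/-- from the laws to the disorder -/
theorem dis_of_law {s : ℝ} (hs : 0 < s) (hs2 : s ≤ 2) {N : ℝ≥0∞} (hN : N ≠ ⊤)
    {lam : ι → Ω → ℂ} (hm : ∀ i, Measurable (lam i)) (hind : iIndepFun lam P)
    (hmom : ∀ i (b : ℂ), ∫⁻ ω, ‖lam i ω - b‖ₑ⁻¹ ^ s ∂P ≤ N) :
    Dis P lam s N (256 * N)⁻¹ := by
  refine ⟨hm, hind, hmom, fun i z b => ?_⟩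
  have : IsProbabilityMeasure (P.map (lam i)) :=
    Measure.isProbabilityMeasure_map (hm i).aemeasurable
  have h1 : ∀ b : ℂ, ∫⁻ u, ‖u - b‖ₑ⁻¹ ^ s ∂(P.map (lam i)) ≤ N := by
    intro b
    rw [lintegral_map (by fun_prop) (hm i)]
    exact hmom i b
  have h2 := law3 hs hs2 hN (P.map (lam i)) h1 z b
  rwa [lintegral_map (by fun_prop) (hm i), lintegral_map (by fun_prop) (hm i)] at h2

omit [DecidableEq ι] in
/-- the rescaled disorder -/
theorem dis_scaled {s : ℝ} (hs : 0 < s) (hs2 : s ≤ 2) {lam : ι → Ω → ℂ}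
    (hm : ∀ i, Measurable (lam i)) (hind : iIndepFun lam P) {σ : ι → ℝ} (hσ : ∀ i, 0 < σ i)
    (hmom : ∀ i (b : ℂ), ∫⁻ ω, (ENNReal.ofReal (σ i) * ‖lam i ω - b‖ₑ⁻¹) ^ s ∂P ≤ 1) (z : ℂ) :
    Dis P (fun i ω => ((σ i : ℂ))⁻¹ * (lam i ω - z) + z) s 1 (256 * 1)⁻¹ := by
  apply dis_of_law hs hs2 ENNReal.one_ne_top
  · intro i
    have := hm i
    fun_prop
  · exact hind.comp (fun i x => ((σ i : ℂ))⁻¹ * (x - z) + z) (fun i => by fun_prop)
  · intro i b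
    refine le_trans (le_of_eq ?_) (hmom i (z + σ i * (b - z)))
    apply lintegral_congr
    intro ω
    have h0 : ((σ i : ℝ) : ℂ) ≠ 0 := by exact_mod_cast (hσ i).ne'
    have h1 : ((σ i : ℂ))⁻¹ * (lam i ω - z) + z - b
        = ((σ i : ℂ))⁻¹ * (lam i ω - (z + σ i * (b - z))) := by
      field_simp
      ring
    have h2 : ‖((σ i : ℂ))⁻¹‖ₑ = (ENNReal.ofReal (σ i))⁻¹ := by
      rw [enorm_inv h0]
      congr 1
      rw [← ofReal_norm, Complex.norm_real, Real.norm_of_nonneg (hσ i).le]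
    have h3 : ENNReal.ofReal (σ i) ≠ 0 := by simpa using hσ i
    rw [h1, enorm_mul, h2, ENNReal.mul_inv (Or.inl (by simp)) (Or.inl (by simpa using h3)), inv_inv]

/-- almost surely both families of local resolvents exist -/
theorem main_loc [Countable ι] (e : ι → X) (f : ι → (X →L[ℂ] ℂ)) {s q K : ℝ}
    (hsq : s.HolderConjugate q) (hs2 : s ≤ 2) (heU : Upper s K e) (hfU : Upper s K f)
    (he : Dense (Submodule.span ℂ (Set.range e) : Set X)) (hf : ∀ v, (∀ i, f i v = 0) → v = 0)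
    (hbi : ∀ x y, f x (e y) = if x = y then 1 else 0)
    {κ : ℝ≥0∞} (hκ : 512 * κ < 1) {σ : ι → ℝ} (hσ : ∀ i, 0 < σ i)
    (B : ι → ι → ℂ) (F : Finset ι) (hB : Sml s q κ (fun a b => ((σ a : ℂ))⁻¹ * B a b) F)
    (hB' : Sml s q κ (fun a b => ((σ a : ℂ))⁻¹ * B b a) F)
    (lam : ι → Ω → ℂ) (hm : ∀ i, Measurable (lam i)) (hind : iIndepFun lam P)
    (hmom : ∀ i (b : ℂ), ∫⁻ ω, (ENNReal.ofReal (σ i) * ‖lam i ω - b‖ₑ⁻¹) ^ s ∂P ≤ 1)
    (T : Ω → (X →L[ℂ] X))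
    (hT : ∀ᵐ ω ∂P, ∀ x y, f x (T ω (e y)) = if x = y then lam x ω else B x y) :
    ∀ᵐ ω ∂P, (∀ i, ∃ g, LocRes (T ω) (e i) g) ∧ ∀ i, ∃ h, LocResDual (T ω) (f i) h := by
  have hs : 1 < s := hsq.lt
  have hs0 : 0 < s := by linarith
  have h0 : ∀ i, ((σ i : ℝ) : ℂ) ≠ 0 := fun i => by exact_mod_cast (hσ i).ne'
  have hk : 2 * κ < (256 * 1)⁻¹ := by
    rw [← one_div, ENNReal.lt_div_iff_mul_lt (Or.inl (by norm_num)) (Or.inl (by norm_num))]
    calc 2 * κ * (256 * 1) = 512 * κ := by ring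
      _ < 1 := hκ
  have hkt : ((256 * 1)⁻¹ : ℝ≥0∞) ≠ ⊤ := by norm_num
  -- the finite volume bounds, for a matrix and its transpose
  have key : ∀ D : ι → ι → ℂ, Sml s q κ (fun a b => ((σ a : ℂ))⁻¹ * D a b) F →
      ∃ a : ι → ℝ≥0∞, (∀ y, a y ≠ ⊤) ∧ ∀ (z : ℂ) (A : Finset ι),
        (∀ᵐ ω ∂P, IsUnit (Mat D A (fun i => lam i ω - z))) ∧
        ∀ y, ∫⁻ ω, ∑ x ∈ A, ‖G D A (fun i => lam i ω - z) x y‖ₑ ^ s ∂P ≤ a y := by
    intro D hD
    obtain ⟨a, ha, h⟩ := fvu (P := P) (fun a b => ((σ a : ℂ))⁻¹ * D a b) hsq hs2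
      ENNReal.one_ne_top hkt hk hD
    refine ⟨fun y => a * ‖((σ y : ℂ))⁻¹‖ₑ ^ s,
      fun y => ENNReal.mul_ne_top ha (ENNReal.rpow_ne_top_of_nonneg hs0.le enorm_ne_top),
      fun z A => ?_⟩
    have h1 := h _ (dis_scaled hs0 hs2 hm hind hσ hmom z) z A
    simp only [add_sub_cancel_right] at h1
    refine ⟨?_, fun y => ?_⟩
    · filter_upwards [h1.1] with ω hω
      exact (Mat_scale D A (fun i => lam i ω - z) (fun i => (σ i : ℂ)) h0).1 hω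
    · have h2 : ∀ ω, ∑ x ∈ A, ‖G D A (fun i => lam i ω - z) x y‖ₑ ^ s
          = (∑ x ∈ A, ‖G (fun a b => ((σ a : ℂ))⁻¹ * D a b) A
            (fun i => ((σ i : ℂ))⁻¹ * (lam i ω - z)) x y‖ₑ ^ s) * ‖((σ y : ℂ))⁻¹‖ₑ ^ s := by
        intro ω
        rw [Finset.sum_mul]
        refine Finset.sum_congr rfl fun x _ => ?_
        rw [G_scale D A (fun i => lam i ω - z) (fun i => (σ i : ℂ)) h0 x y, enorm_mul,
          ENNReal.mul_rpow_of_nonneg _ _ hs0.le]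
      simp only [h2]
      rw [lintegral_mul_const' _ _ (ENNReal.rpow_ne_top_of_nonneg hs0.le enorm_ne_top)]
      gcongr
      exact h1.2 y
  have hrowD : ∀ D : ι → ι → ℂ, Sml s q κ (fun a b => ((σ a : ℂ))⁻¹ * D a b) F →
      ∀ x, Summable (fun w => ‖D x w‖ ^ q) := by
    intro D hD x
    have h1 := (hD.row x).mul_left (‖(σ x : ℂ)‖ ^ q)
    refine h1.congr fun w => ?_
    rw [← Real.mul_rpow (norm_nonneg _) (norm_nonneg _), ← norm_mul, mul_inv_cancel_left₀ (h0 x)]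
  obtain ⟨a, ha, hfv⟩ := key B hB
  obtain ⟨a', ha', hfv'⟩ := key (fun a b => B b a) hB'
  have hcol := prob_colu B hsq hm (hrowD B hB) a ha hfv
  have hrow := prob_colu (fun a b => B b a) hsq hm (hrowD _ hB') a' ha' hfv'
  filter_upwards [hcol, hrow, hT] with ω h1 h2 h4
  exact fix_loc' (T ω) e f hs.le heU hfU he hf hbi B (fun x => lam x ω) h4 h1 h2

theorem main [Countable ι] [Nontrivial ι] (e : ι → X) (f : ι → (X →L[ℂ] ℂ)) {s q K : ℝ}
    (hsq : s.HolderConjugate q) (hs2 : s ≤ 2) (heU : Upper s K e) (hfU : Upper s K f)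
    (he : Dense (Submodule.span ℂ (Set.range e) : Set X)) (hf : ∀ v, (∀ i, f i v = 0) → v = 0)
    (hbi : ∀ x y, f x (e y) = if x = y then 1 else 0)
    {κ : ℝ≥0∞} (hκ : 512 * κ < 1) {σ : ι → ℝ} (hσ : ∀ i, 0 < σ i)
    (B : ι → ι → ℂ) (F : Finset ι) (hB : Sml s q κ (fun a b => ((σ a : ℂ))⁻¹ * B a b) F)
    (hB' : Sml s q κ (fun a b => ((σ a : ℂ))⁻¹ * B b a) F)
    (lam : ι → Ω → ℂ) (hm : ∀ i, Measurable (lam i)) (hind : iIndepFun lam P)
    (hmom : ∀ i (b : ℂ), ∫⁻ ω, (ENNReal.ofReal (σ i) * ‖lam i ω - b‖ₑ⁻¹) ^ s ∂P ≤ 1)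
    (T : Ω → (X →L[ℂ] X))
    (hT : ∀ᵐ ω ∂P, ∀ x y, f x (T ω (e y)) = if x = y then lam x ω else B x y) :
    ∀ᵐ ω ∂P, HasHyper (T ω) := by
  have hs : 1 < s := hsq.lt
  have hs0 : 0 < s := by linarith
  obtain ⟨i, j, hij⟩ := exists_pair_ne ι
  have hne : ∀ᵐ ω ∂P, lam i ω ≠ lam j ω := by
    have hσ0 : ENNReal.ofReal (σ i) ≠ 0 := by simpa using hσ i
    have hc0 : ENNReal.ofReal (σ i) ^ s ≠ 0 := by
      simp [hσ0]
    have hct : ENNReal.ofReal (σ i) ^ s ≠ ⊤ :=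
      ENNReal.rpow_ne_top_of_nonneg hs0.le ENNReal.ofReal_ne_top
    have h1 : ∀ b : ℂ, ∫⁻ ω, ‖lam i ω - b‖ₑ⁻¹ ^ s ∂P ≤ (ENNReal.ofReal (σ i) ^ s)⁻¹ := by
      intro b
      have h2 := hmom i b
      simp only [ENNReal.mul_rpow_of_nonneg _ _ hs0.le] at h2
      rw [lintegral_const_mul' _ _ hct, mul_comm] at h2
      rw [← one_div]
      exact (ENNReal.le_div_iff_mul_le (Or.inl hc0) (Or.inl hct)).2 h2
    exact ind1_ne (hm i) (hm j) (hind.indepFun hij) hs0 (ENNReal.inv_ne_top.2 hc0) h1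
      (b := fun x => x) measurable_id
  filter_upwards [main_loc e f hsq hs2 heU hfU he hf hbi hκ hσ B F hB hB' lam hm hind hmom T hT,
    hne, hT] with ω h1 h3 h4
  rcases crit (T ω) e f he hf h1.1 h1.2 with ⟨c, hc⟩ | h
  · exfalso
    have key : ∀ x, lam x ω = c := by
      intro x
      have h5 := h4 x x
      rw [hc, map_smul, hbi] at h5
      simpa using h5.symm
    exact h3 ((key i).trans (key j).symm)
  · exact h

end main

end Pool.Agent.J4.H86.RD
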