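import Mathlib

/-! Piece CMP of project RD: disorder tending to zero. -/

set_option autoImplicit false

open Filter Topology

namespace Pool.Agent.J4.H86.RD

/-- the off-diagonal part of `B` is small on `ℓ^s` outside finite sets of rows (for `1 < s`: it is compact on `ℓ^s`) -/
def Vanish {ι : Type*} [DecidableEq ι] (s : ℝ) (B : ι → ι → ℂ) : Prop :=
  ∀ κ : ℝ, 0 < κ → ∃ F : Finset ι, ∀ (A : Finset ι) (u : ι → ℂ),
    ∑ x ∈ A \ F, ‖∑ w ∈ A.erase x, B x w * u w‖ ^ s ≤ κ * ∑ w ∈ A, ‖u w‖ ^ s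

namespace CMPaux

theorem geo (M : ℕ) : ∑ k ∈ Finset.range M, (1 / 2 : ℝ) ^ (k + 1) = 1 - (1 / 2) ^ M := by
  induction M with
  | zero => simp
  | succ M ih => rw [Finset.sum_range_succ, ih]; ring

theorem core {ι : Type*} [DecidableEq ι] {s : ℝ} {κ ε ρ : ℝ} (hκ : 0 < κ)
    (hε : 0 < ε) (hρ : 0 < ρ) (hρs : ρ ^ s = 1 / 2) (N : ι → ℕ) (F : ℕ → Finset ι)
    (hN : ∀ x n, N x = n + 1 → x ∉ F n) (hN0 : ∀ x, x ∉ F 0 → N x ≠ 0) (B : ι → ι → ℂ)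
    (hB : ∀ (n : ℕ) (A : Finset ι) (u : ι → ℂ), ∑ x ∈ A \ F n, ‖∑ w ∈ A.erase x, B x w * u w‖ ^ s ≤
      κ * ε ^ s / 4 ^ (n + 1) * ∑ w ∈ A, ‖u w‖ ^ s) (A : Finset ι) (u : ι → ℂ) :
    ∑ x ∈ A \ F 0, (‖∑ w ∈ A.erase x, B x w * u w‖ / (ε * ρ ^ N x)) ^ s ≤
      κ * ∑ w ∈ A, ‖u w‖ ^ s := by
  obtain ⟨S, hS⟩ : ∃ S : ℝ, S = ∑ w ∈ A, ‖u w‖ ^ s := ⟨_, rfl⟩
  have hS0 : 0 ≤ S := by rw [hS]; positivity
  obtain ⟨M, hM⟩ : ∃ M : ℕ, ∀ x ∈ A \ F 0, N x - 1 ∈ Finset.range M := by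
    refine ⟨(A \ F 0).sup N + 1, fun x hx => ?_⟩
    have := Finset.le_sup (f := N) hx
    rw [Finset.mem_range]
    omega
  rw [← Finset.sum_fiberwise_of_maps_to hM, ← hS]
  have hfib : ∀ k ∈ Finset.range M, ∑ x ∈ (A \ F 0) with N x - 1 = k,
      (‖∑ w ∈ A.erase x, B x w * u w‖ / (ε * ρ ^ N x)) ^ s ≤ κ * S * (1 / 2) ^ (k + 1) := by
    intro k _
    have h1 : ∀ x ∈ (A \ F 0).filter (fun x => N x - 1 = k),
        (‖∑ w ∈ A.erase x, B x w * u w‖ / (ε * ρ ^ N x)) ^ s =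
          2 ^ (k + 1) / ε ^ s * ‖∑ w ∈ A.erase x, B x w * u w‖ ^ s := by
      intro x hx
      rw [Finset.mem_filter, Finset.mem_sdiff] at hx
      have h2 : N x = k + 1 := by
        have := hN0 x hx.1.2
        omega
      rw [Real.div_rpow (norm_nonneg _) (by positivity), Real.mul_rpow hε.le (by positivity),
        ← Real.rpow_pow_comm hρ.le, hρs, h2]
      have h3 : (0 : ℝ) < ε ^ s := by positivity
      rw [one_div, inv_pow]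
      field_simp
    rw [Finset.sum_congr rfl h1, ← Finset.mul_sum]
    have h4 : ∑ x ∈ (A \ F 0).filter (fun x => N x - 1 = k),
        ‖∑ w ∈ A.erase x, B x w * u w‖ ^ s ≤ κ * ε ^ s / 4 ^ (k + 1) * S := by
      rw [hS]
      refine le_trans (Finset.sum_le_sum_of_subset_of_nonneg ?_ fun _ _ _ => by positivity)
        (hB k A u)
      intro x hx
      rw [Finset.mem_filter, Finset.mem_sdiff] at hx
      rw [Finset.mem_sdiff]
      refine ⟨hx.1.1, hN x k ?_⟩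
      have := hN0 x hx.1.2
      omega
    refine (mul_le_mul_of_nonneg_left h4 (by positivity)).trans (le_of_eq ?_)
    have h3 : (0 : ℝ) < ε ^ s := by positivity
    have h5 : (4 : ℝ) ^ (k + 1) = 2 ^ (k + 1) * 2 ^ (k + 1) := by
      rw [← mul_pow]
      norm_num
    rw [h5, one_div, inv_pow]
    field_simp
  refine (Finset.sum_le_sum hfib).trans ?_
  rw [← Finset.mul_sum, geo]
  have h6 : (0 : ℝ) ≤ (1 / 2) ^ M := by positivity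
  have h7 : 0 ≤ κ * S := by positivity
  nlinarith

theorem ext_sum {ι : Type*} [DecidableEq ι] {s : ℝ} {κ : ℝ} {B : ι → ι → ℂ} {E F : Finset ι}
    (hEF : E ⊆ F)
    (h : ∀ (A : Finset ι) (u : ι → ℂ),
      ∑ x ∈ A \ E, ‖∑ w ∈ A.erase x, B x w * u w‖ ^ s ≤ κ * ∑ w ∈ A, ‖u w‖ ^ s)
    (A : Finset ι) (u : ι → ℂ) :
    ∑ x ∈ A \ F, ‖∑ w ∈ A.erase x, B x w * u w‖ ^ s ≤ κ * ∑ w ∈ A, ‖u w‖ ^ s :=
  le_trans (Finset.sum_le_sum_of_subset_of_nonneg (Finset.sdiff_subset_sdiff le_rfl hEF)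
    fun _ _ _ => by positivity) (h A u)

end CMPaux

open CMPaux in
theorem cmp {ι : Type*} [DecidableEq ι] [Countable ι] {s : ℝ} (hs : 0 < s) {B₁ B₂ : ι → ι → ℂ}
    (h₁ : Vanish s B₁) (h₂ : Vanish s B₂) {κ ε : ℝ} (hκ : 0 < κ) (hε : 0 < ε) :
    ∃ σ : ι → ℝ, (∀ i, 0 < σ i) ∧ (∀ i, σ i ≤ ε) ∧ Tendsto σ cofinite (𝓝 0) ∧
      ∃ F : Finset ι, ∀ (A : Finset ι) (u : ι → ℂ),
        ∑ x ∈ A \ F, (‖∑ w ∈ A.erase x, B₁ x w * u w‖ / σ x) ^ s ≤ κ * ∑ w ∈ A, ‖u w‖ ^ s ∧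
        ∑ x ∈ A \ F, (‖∑ w ∈ A.erase x, B₂ x w * u w‖ / σ x) ^ s ≤ κ * ∑ w ∈ A, ‖u w‖ ^ s := by
  classical
  have hκn : ∀ n : ℕ, 0 < κ * ε ^ s / 4 ^ (n + 1) := fun n => by positivity
  choose E₁ hE₁ using fun n : ℕ => h₁ _ (hκn n)
  choose E₂ hE₂ using fun n : ℕ => h₂ _ (hκn n)
  obtain ⟨e, he⟩ := exists_injective_nat ι
  have hfin : ∀ n : ℕ, {x : ι | e x = n}.Finite := fun n =>
    Set.Subsingleton.finite fun x hx y hy => he (hx.trans hy.symm)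
  obtain ⟨F, hF⟩ : ∃ F : ℕ → Finset ι, F = fun n => E₁ n ∪ E₂ n ∪ (hfin n).toFinset := ⟨_, rfl⟩
  have hex : ∀ x, ∃ n, x ∈ F n := fun x => ⟨e x, by
    rw [hF]
    simp⟩
  obtain ⟨N, hNd⟩ : ∃ N : ι → ℕ, N = fun x => Nat.find (hex x) := ⟨_, rfl⟩
  have hNs : ∀ x, x ∈ F (N x) := fun x => by
    rw [hNd]
    exact Nat.find_spec (hex x)
  have hN : ∀ x n, N x = n + 1 → x ∉ F n := fun x n h => by
    rw [hNd] at h
    have h' : Nat.find (hex x) = n + 1 := h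
    exact Nat.find_min (hex x) (by omega)
  have hN0 : ∀ x, x ∉ F 0 → N x ≠ 0 := fun x hx h => hx (by
    have := hNs x
    rwa [h] at this)
  obtain ⟨ρ, hρd⟩ : ∃ ρ : ℝ, ρ = (1 / 2 : ℝ) ^ (1 / s) := ⟨_, rfl⟩
  have hρ : 0 < ρ := by rw [hρd]; positivity
  have hρs : ρ ^ s = 1 / 2 := by
    rw [hρd, ← Real.rpow_mul (by norm_num), one_div_mul_cancel hs.ne', Real.rpow_one]
  have hρ1 : ρ < 1 := by
    rw [hρd]
    exact Real.rpow_lt_one (by norm_num) (by norm_num) (by positivity)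
  have hB₁ : ∀ (n : ℕ) (A : Finset ι) (u : ι → ℂ),
      ∑ x ∈ A \ F n, ‖∑ w ∈ A.erase x, B₁ x w * u w‖ ^ s ≤
      κ * ε ^ s / 4 ^ (n + 1) * ∑ w ∈ A, ‖u w‖ ^ s := fun n =>
    ext_sum (by
      rw [hF]
      exact (Finset.subset_union_left).trans Finset.subset_union_left) (hE₁ n)
  have hB₂ : ∀ (n : ℕ) (A : Finset ι) (u : ι → ℂ),
      ∑ x ∈ A \ F n, ‖∑ w ∈ A.erase x, B₂ x w * u w‖ ^ s ≤
      κ * ε ^ s / 4 ^ (n + 1) * ∑ w ∈ A, ‖u w‖ ^ s := fun n =>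
    ext_sum (by
      rw [hF]
      exact (Finset.subset_union_right).trans Finset.subset_union_left) (hE₂ n)
  refine ⟨fun x => ε * ρ ^ N x, fun x => by positivity, fun x => ?_, ?_, F 0, fun A u =>
    ⟨core hκ hε hρ hρs N F hN hN0 B₁ hB₁ A u, core hκ hε hρ hρs N F hN hN0 B₂ hB₂ A u⟩⟩
  · have h1 : ρ ^ N x ≤ 1 := pow_le_one₀ hρ.le hρ1.le
    nlinarith
  · have h1 : Tendsto N cofinite atTop := by
      rw [tendsto_atTop]
      intro b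
      have h2 : {x : ι | ¬ b ≤ N x} ⊆ ((Finset.range b).biUnion F : Finset ι) := by
        intro x hx
        rw [Set.mem_ofPred_eq, not_le] at hx
        rw [Finset.mem_coe, Finset.mem_biUnion]
        exact ⟨N x, Finset.mem_range.2 hx, hNs x⟩
      exact (Finset.finite_toSet _).subset h2
    have h3 : Tendsto (fun n : ℕ => ε * ρ ^ n) atTop (𝓝 (ε * 0)) :=
      (tendsto_pow_atTop_nhds_zero_of_lt_one hρ.le hρ1).const_mul ε
    rw [mul_zero] at h3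
    exact h3.comp h1

end Pool.Agent.J4.H86.RD
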