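import Pool.Agent.J4.H86.RD.Defs

/-! Piece MULT of project RD: multiplication by `z` and duality. -/

set_option autoImplicit false
open MeasureTheory Complex Filter Topology ProbabilityTheory
open scoped ENNReal
open Pool.Agent.H761R2.SV (dbar)

namespace Pool.Agent.J4.H86.RD

namespace Mult

theorem cont_dbar {φ : ℂ → ℂ} (hφ : Tst φ) : Continuous (dbar φ) :=
  Pool.Agent.H761R2.SV.continuous_dbar hφ.1

theorem supp_dbar {φ : ℂ → ℂ} (hφ : Tst φ) : HasCompactSupport (dbar φ) := by
  have h1 : HasCompactSupport (fderiv ℝ φ) := hφ.2.fderiv ℝ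
  apply HasCompactSupport.of_support_subset_isCompact h1.isCompact
  intro w hw
  by_contra hn
  apply hw
  simp [dbar, image_eq_zero_of_notMem_tsupport hn]

theorem integrable_dbar_smul {E : Type*} [NormedAddCommGroup E] [NormedSpace ℂ E] {φ : ℂ → ℂ}
    (hφ : Tst φ) {g : ℂ → E} (hg : LocallyIntegrable g volume) :
    Integrable (fun z => dbar φ z • g z) := by
  exact hg.integrable_smul_left_of_hasCompactSupport (cont_dbar hφ) (supp_dbar hφ)

theorem integrable_mul_dbar_smul {E : Type*} [NormedAddCommGroup E] [NormedSpace ℂ E] {φ : ℂ → ℂ}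
    (hφ : Tst φ) {g : ℂ → E} (hg : LocallyIntegrable g volume) :
    Integrable (fun z => (z * dbar φ z) • g z) := by
  refine hg.integrable_smul_left_of_hasCompactSupport (continuous_id.mul (cont_dbar hφ)) ?_
  exact (supp_dbar hφ).mul_left

theorem integral_fderiv_zero {φ : ℂ → ℂ} (hφ : Tst φ) (v : ℂ) : ∫ z, fderiv ℝ φ z v = 0 := by
  have hc : Continuous (fun z => fderiv ℝ φ z v) :=
    (hφ.1.continuous_fderiv (by simp)).clm_apply continuous_const
  have hs : HasCompactSupport (fun z => fderiv ℝ φ z v) := by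
    apply HasCompactSupport.of_support_subset_isCompact (hφ.2.fderiv ℝ).isCompact
    intro w hw
    by_contra hn
    apply hw
    simp [image_eq_zero_of_notMem_tsupport hn]
  have hi : Integrable (fun z => fderiv ℝ φ z v) := hc.integrable_of_hasCompactSupport hs
  have hi0 : Integrable φ := hφ.1.continuous.integrable_of_hasCompactSupport hφ.2
  have h := integral_mul_fderiv_eq_neg_fderiv_mul_of_integrable (μ := (volume : Measure ℂ))
    (f := fun _ : ℂ => (1 : ℂ)) (g := φ) (v := v) (by simp) (by simpa using hi)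
    (by simpa using hi0) (fun x _ => differentiableAt_const _)
    (fun x _ => hφ.1.differentiable (by simp) x)
  simpa using h

theorem dbar_id_mul {φ : ℂ → ℂ} (hφ : Tst φ) (z : ℂ) :
    dbar (fun w => w * φ w) z = z * dbar φ z := by
  rw [Pool.Agent.H761R2.SV.dbar_mul (F := fun w => w) contDiff_id hφ.1]
  have h : dbar (fun w : ℂ => w) z = 0 := by
    simp [dbar]
  rw [h]
  ring

end Mult

open Mult

variable {X : Type*} [NormedAddCommGroup X] [NormedSpace ℂ X]

theorem integral_dbar {φ : ℂ → ℂ} (hφ : Tst φ) : ∫ z, dbar φ z = 0 := by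
  have hint : ∀ v : ℂ, Integrable (fun z => fderiv ℝ φ z v) := by
    intro v
    have hc : Continuous (fun z => fderiv ℝ φ z v) :=
      (hφ.1.continuous_fderiv (by simp)).clm_apply continuous_const
    refine hc.integrable_of_hasCompactSupport ?_
    apply HasCompactSupport.of_support_subset_isCompact (hφ.2.fderiv ℝ).isCompact
    intro w hw
    by_contra hn
    apply hw
    simp [image_eq_zero_of_notMem_tsupport hn]
  unfold dbar
  rw [integral_div, integral_add (hint 1) ((hint I).const_mul I), integral_const_mul,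
    integral_fderiv_zero hφ, integral_fderiv_zero hφ]
  simp

theorem mult [CompleteSpace X] {T : X →L[ℂ] X} {e : X} {g : ℂ → X} (hg : LocRes T e g)
    {φ : ℂ → ℂ} (hφ : Tst φ) :
    ∫ z, dbar (fun w => w * φ w) z • g z = T (∫ z, dbar φ z • g z) := by
  rw [← ContinuousLinearMap.integral_comp_comm T (integrable_dbar_smul hφ hg.loc)]
  have h1 : ∫ z, T (dbar φ z • g z) = ∫ z, ((z * dbar φ z) • g z + dbar φ z • e) := by
    apply integral_congr_ae
    filter_upwards [hg.eq] with z hz
    rw [map_smul]
    have h2 : T (g z) = z • g z + e := by rw [← hz]; abel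
    rw [h2, smul_add, smul_smul, mul_comm]
  rw [h1, integral_add (integrable_mul_dbar_smul hφ hg.loc), integral_smul_const,
    integral_dbar hφ, zero_smul, add_zero]
  · exact integral_congr_ae (Eventually.of_forall fun z => by
      show dbar (fun w => w * φ w) z • g z = (z * dbar φ z) • g z
      rw [dbar_id_mul hφ])
  · exact ((cont_dbar hφ).integrable_of_hasCompactSupport (supp_dbar hφ)).smul_const e

theorem dual [CompleteSpace X] {T : X →L[ℂ] X} {e : X} {g : ℂ → X} (hg : LocRes T e g)
    {f : X →L[ℂ] ℂ} {h : ℂ → (X →L[ℂ] ℂ)} (hh : LocResDual T f h) {φ : ℂ → ℂ} (hφ : Tst φ) :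
    f (∫ z, dbar φ z • g z) = (∫ z, dbar φ z • h z) e := by
  rw [← ContinuousLinearMap.integral_comp_comm f (integrable_dbar_smul hφ hg.loc),
    ContinuousLinearMap.integral_apply (integrable_dbar_smul hφ hh.loc)]
  apply integral_congr_ae
  filter_upwards [hg.eq, hh.eq] with z hz hz'
  show f (dbar φ z • g z) = (dbar φ z • h z) e
  have h1 : f (g z) = h z e := by
    rw [← hz' (g z), ← hz, map_sub, map_smul, smul_eq_mul]
  rw [map_smul, h1]
  rfl

end Pool.Agent.J4.H86.RD
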