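import Pool.Agent.J4.H86.RD.Defs

/-! Piece REPR of project RD: a cutoff function that reproduces the vector from its local resolvent. -/

set_option autoImplicit false
open MeasureTheory Complex Filter Topology ProbabilityTheory
open scoped ENNReal
open Pool.Agent.H761R2.SV (dbar)

namespace Pool.Agent.J4.H86.RD

namespace ReprAux

open Pool.Agent.H761R2.SV

theorem dbar_comp_mul {F : ℂ → ℂ} (hF : ContDiff ℝ 1 F) (u z : ℂ) :
    dbar (fun w => F (u * w)) z = (starRingEnd ℂ) u * dbar F (u * z) := by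
  have h2 : HasFDerivAt F (fderiv ℝ F (u * z)) (u * z) :=
    (hF.differentiable (by simp) (u * z)).hasFDerivAt
  have h3 : HasFDerivAt (fun w : ℂ => u * w) (u • ContinuousLinearMap.id ℝ ℂ) z := by
    have := (hasFDerivAt_id (𝕜 := ℝ) z).const_mul u
    simpa using this
  have h4 := h2.comp z h3
  have h5 : fderiv ℝ (fun w => F (u * w)) z = (fderiv ℝ F (u * z)).comp
      (u • ContinuousLinearMap.id ℝ ℂ) := h4.fderiv
  have h6 : ∀ v : ℂ, fderiv ℝ (fun w => F (u * w)) z v = fderiv ℝ F (u * z) (u * v) := by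
    intro v
    rw [h5]
    simp
  have h7 : ∀ a b : ℝ, fderiv ℝ F (u * z) ((a : ℂ) + b * I) =
      a * fderiv ℝ F (u * z) 1 + b * fderiv ℝ F (u * z) I := by
    intro a b
    have : (a : ℂ) + b * I = a • (1 : ℂ) + b • I := by simp [Complex.real_smul]
    rw [this, map_add, map_smul, map_smul, Complex.real_smul, Complex.real_smul]
  simp only [dbar, h6]
  have e1 : u * 1 = (u.re : ℂ) + u.im * I := by simp [Complex.re_add_im]
  have e2 : u * I = ((-u.im : ℝ) : ℂ) + (u.re : ℝ) * I := by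
    apply Complex.ext <;> simp
  have e3 : (starRingEnd ℂ) u = (u.re : ℂ) - u.im * I := by
    apply Complex.ext <;> simp
  rw [e1, e2, e3, h7, h7]
  push_cast
  linear_combination ((u.im : ℂ) * fderiv ℝ F (u * z) I / 2) * Complex.I_mul_I

/-- the argument of the cutoff -/
noncomputable def ag (R : ℝ) (z : ℂ) : ℝ := ((R + 1) ^ 2 - normSq z) / (2 * R + 1)

/-- the cutoff -/
noncomputable def chi (R : ℝ) (z : ℂ) : ℂ := ((Real.smoothTransition (ag R z) : ℝ) : ℂ)

theorem contDiff_chi (R : ℝ) : ContDiff ℝ 1 (chi R) := by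
  have h1 : ContDiff ℝ 1 (fun z : ℂ => normSq z) := by
    have hr : ContDiff ℝ 1 (fun z : ℂ => z.re) := Complex.reCLM.contDiff
    have hi : ContDiff ℝ 1 (fun z : ℂ => z.im) := Complex.imCLM.contDiff
    have : (fun z : ℂ => normSq z) = fun z : ℂ => z.re * z.re + z.im * z.im := by
      funext z; exact Complex.normSq_apply z
    rw [this]
    exact (hr.mul hr).add (hi.mul hi)
  have h2 : ContDiff ℝ 1 (ag R) := (contDiff_const.sub h1).div_const _
  have h3 : ContDiff ℝ 1 (fun z => Real.smoothTransition (ag R z)) :=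
    Real.smoothTransition.contDiff.comp h2
  exact Complex.ofRealCLM.contDiff.comp h3

theorem chi_one {R : ℝ} (hR : 0 ≤ R) {z : ℂ} (hz : ‖z‖ ≤ R) : chi R z = 1 := by
  have : 1 ≤ ag R z := by
    unfold ag
    rw [le_div_iff₀ (by linarith), Complex.normSq_eq_norm_sq]
    nlinarith [norm_nonneg z]
  simp [chi, Real.smoothTransition.one_of_one_le this]

theorem chi_zero {R : ℝ} (hR : 0 ≤ R) {z : ℂ} (hz : R + 1 ≤ ‖z‖) : chi R z = 0 := by
  have : ag R z ≤ 0 := by
    unfold ag
    apply div_nonpos_of_nonpos_of_nonneg _ (by linarith)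
    rw [Complex.normSq_eq_norm_sq]
    nlinarith [norm_nonneg z]
  simp [chi, Real.smoothTransition.zero_of_nonpos this]

theorem chi_rot (R : ℝ) {u : ℂ} (hu : ‖u‖ = 1) (z : ℂ) : chi R (u * z) = chi R z := by
  have : ag R (u * z) = ag R z := by
    simp [ag, Complex.normSq_eq_norm_sq, hu]
  simp [chi, this]

theorem hasCompactSupport_chi {R : ℝ} (hR : 0 ≤ R) : HasCompactSupport (chi R) := by
  apply HasCompactSupport.of_support_subset_isCompact (isCompact_closedBall (0 : ℂ) (R + 1))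
  intro w hw
  by_contra hn
  apply hw
  simp only [Metric.mem_closedBall, dist_zero_right, not_le] at hn
  exact chi_zero hR hn.le

theorem dbar_chi_zero {R : ℝ} (hR : 0 ≤ R) {z : ℂ} (hz : ‖z‖ < R) : dbar (chi R) z = 0 := by
  have h1 : chi R =ᶠ[𝓝 z] fun _ => (1 : ℂ) := by
    have : {v : ℂ | ‖v‖ < R} ∈ 𝓝 z := (isOpen_lt continuous_norm continuous_const).mem_nhds hz
    filter_upwards [this] with v hv
    exact chi_one hR (le_of_lt hv)
  simp [dbar, h1.fderiv_eq]

theorem dbar_chi_zero' {R : ℝ} (hR : 0 ≤ R) {z : ℂ} (hz : R + 1 < ‖z‖) :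
    dbar (chi R) z = 0 := by
  have h1 : chi R =ᶠ[𝓝 z] fun _ => (0 : ℂ) := by
    have : {v : ℂ | R + 1 < ‖v‖} ∈ 𝓝 z :=
      (isOpen_lt continuous_const continuous_norm).mem_nhds hz
    filter_upwards [this] with v hv
    exact chi_zero hR (le_of_lt hv)
  simp [dbar, h1.fderiv_eq]

theorem dbar_chi_rot (R : ℝ) {u : ℂ} (hu : ‖u‖ = 1) (z : ℂ) :
    dbar (chi R) (u * z) = u * dbar (chi R) z := by
  have h1 := dbar_comp_mul (contDiff_chi R) u z
  have h2 : (fun w => chi R (u * w)) = chi R := by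
    funext w; exact chi_rot R hu w
  rw [h2] at h1
  rw [h1, ← mul_assoc, Complex.mul_conj, Complex.normSq_eq_norm_sq, hu]
  simp

/-- the moments -/
noncomputable def mm (R : ℝ) (k : ℕ) (z : ℂ) : ℂ := dbar (chi R) z * (z⁻¹) ^ k

theorem continuous_mm {R : ℝ} (hR : 0 < R) (k : ℕ) : Continuous (mm R k) := by
  have hd : Continuous (dbar (chi R)) := continuous_dbar (contDiff_chi R)
  rw [continuous_iff_continuousAt]
  intro z
  by_cases hz : ‖z‖ < R
  · have h1 : (fun _ => (0 : ℂ)) =ᶠ[𝓝 z] mm R k := by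
      have : {v : ℂ | ‖v‖ < R} ∈ 𝓝 z := (isOpen_lt continuous_norm continuous_const).mem_nhds hz
      filter_upwards [this] with v hv
      simp [mm, dbar_chi_zero hR.le hv]
    exact continuousAt_const.congr h1
  · have hz0 : z ≠ 0 := by
      rintro rfl
      apply hz
      simpa using hR
    exact hd.continuousAt.mul ((continuousAt_inv₀ hz0).pow k)

theorem hasCompactSupport_mm {R : ℝ} (hR : 0 ≤ R) (k : ℕ) : HasCompactSupport (mm R k) := by
  apply HasCompactSupport.of_support_subset_isCompact (isCompact_closedBall (0 : ℂ) (R + 1))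
  intro w hw
  by_contra hn
  apply hw
  simp only [Metric.mem_closedBall, dist_zero_right, not_le] at hn
  simp [mm, dbar_chi_zero' hR hn]

theorem integral_mm_one {R : ℝ} (hR : 0 ≤ R) : ∫ z, mm R 1 z = -(Real.pi : ℂ) := by
  have h := pompeiu_compact (contDiff_chi R) (hasCompactSupport_chi hR) 0
  rw [chi_one hR (by simpa using hR), mul_one] at h
  rw [← h, ← integral_neg]
  apply integral_congr_ae
  refine Eventually.of_forall fun w => ?_
  simp only [mm, pow_one, zero_sub, inv_neg]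
  ring

theorem integral_mm_zero (R : ℝ) (j : ℕ) : ∫ z, mm R (j + 2) z = 0 := by
  set c : Circle := Circle.exp (-(Real.pi / (j + 1))) with hc
  have hcn : ‖(c : ℂ)‖ = 1 := Circle.norm_coe c
  have hcp : ((c : ℂ)⁻¹) ^ (j + 1) = -1 := by
    rw [hc, Circle.coe_exp, ← Complex.exp_neg, ← Complex.exp_nat_mul]
    rw [← Complex.exp_pi_mul_I]
    congr 1
    push_cast
    have : ((j : ℂ) + 1) ≠ 0 := by exact_mod_cast Nat.succ_ne_zero j
    field_simp
  have hc0 : (c : ℂ) ≠ 0 := Circle.coe_ne_zero c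
  have h1 : ∫ z, mm R (j + 2) ((rotation c) z) = ∫ z, mm R (j + 2) z :=
    (rotation c).measurePreserving.integral_comp
      (rotation c).toHomeomorph.measurableEmbedding _
  have h2 : ∀ z, mm R (j + 2) ((rotation c) z) = - mm R (j + 2) z := by
    intro z
    rw [rotation_apply]
    simp only [mm]
    rw [dbar_chi_rot R hcn, mul_inv, mul_pow, pow_succ ((c : ℂ)⁻¹) (j + 1), hcp]
    field_simp
  simp only [h2, integral_neg] at h1
  have h3 : (2 : ℂ) * ∫ z, mm R (j + 2) z = 0 := by linear_combination -h1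
  simpa using h3

theorem norm_mm_le {R : ℝ} (hR : 0 < R) (k : ℕ) (z : ℂ) :
    ‖mm R k z‖ ≤ (R⁻¹) ^ k * ‖dbar (chi R) z‖ := by
  by_cases hz : ‖z‖ < R
  · simp [mm, dbar_chi_zero hR.le hz]
  · push Not at hz
    rw [mm, norm_mul, norm_pow, norm_inv, mul_comm]
    apply mul_le_mul_of_nonneg_right _ (norm_nonneg _)
    apply pow_le_pow_left₀ (inv_nonneg.2 (norm_nonneg _))
    exact inv_anti₀ hR hz

end ReprAux

section crit
variable {X : Type*} [NormedAddCommGroup X] [NormedSpace ℂ X]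

open ReprAux in
theorem repr [CompleteSpace X] (T : X →L[ℂ] X) : ∃ χ : ℂ → ℂ, Tst χ ∧
    ∀ (e : X) (g : ℂ → X), LocRes T e g → ∫ z, dbar χ z • g z = (Real.pi : ℂ) • e := by
  obtain ⟨R, hRdef⟩ : ∃ R : ℝ, R = ‖T‖ + 1 := ⟨_, rfl⟩
  have hT0 : 0 ≤ ‖T‖ := norm_nonneg _
  have hR : 0 < R := by linarith
  refine ⟨chi R, ⟨contDiff_chi R, hasCompactSupport_chi hR.le⟩, ?_⟩
  intro e g hg
  have hint : ∀ k, Integrable (fun z => mm R k z • g z) := fun k =>
    hg.loc.integrable_smul_left_of_hasCompactSupport (continuous_mm hR k)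
      (hasCompactSupport_mm hR.le k)
  have hmint : ∀ k, Integrable (mm R k) := fun k =>
    (continuous_mm hR k).integrable_of_hasCompactSupport (hasCompactSupport_mm hR.le k)
  have hae0 : ∀ᵐ z : ℂ, z ≠ 0 := by
    rw [ae_iff]
    simp
  have hrec : ∀ k, ∫ z, mm R k z • g z =
      T (∫ z, mm R (k + 1) z • g z) - (∫ z, mm R (k + 1) z) • e := by
    intro k
    have h1 : ∀ᵐ z : ℂ, mm R k z • g z = T (mm R (k + 1) z • g z) - mm R (k + 1) z • e := by
      filter_upwards [hg.eq, hae0] with z hz hz0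
      have h2 : g z = z⁻¹ • (T (g z) - e) := by
        rw [← hz, sub_sub_cancel, smul_smul, inv_mul_cancel₀ hz0, one_smul]
      have h3 : mm R (k + 1) z = mm R k z * z⁻¹ := by
        simp only [mm]; ring
      rw [map_smul, ← smul_sub, h3, mul_smul, ← h2]
    rw [integral_congr_ae h1, integral_sub, integral_smul_const]
    · congr 1
      exact T.integral_comp_comm (hint (k + 1))
    · exact T.integrable_comp (hint (k + 1))
    · exact (hmint (k + 1)).smul_const e
  have h0 : ∫ z, dbar (chi R) z • g z = ∫ z, mm R 0 z • g z := by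
    simp [mm]
  have hx0 : ∫ z, mm R 0 z • g z = T (∫ z, mm R 1 z • g z) + (Real.pi : ℂ) • e := by
    rw [hrec 0, zero_add, integral_mm_one hR.le, neg_smul, sub_neg_eq_add]
  have hxs : ∀ k, ∫ z, mm R (k + 1) z • g z = T (∫ z, mm R (k + 2) z • g z) := by
    intro k
    rw [hrec (k + 1), integral_mm_zero, zero_smul, sub_zero]
  obtain ⟨C, hC⟩ : ∃ C : ℝ, C = ∫ z, ‖dbar (chi R) z • g z‖ := ⟨_, rfl⟩
  have hbd : ∀ k, ‖∫ z, mm R k z • g z‖ ≤ (R⁻¹) ^ k * C := by
    intro k
    rw [hC, ← integral_const_mul]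
    refine (norm_integral_le_integral_norm _).trans ?_
    apply integral_mono (hint k).norm
    · apply Integrable.const_mul
      have := (hint 0).norm
      simpa [mm] using this
    · intro z
      simp only [norm_smul]
      rw [← mul_assoc]
      exact mul_le_mul_of_nonneg_right (norm_mm_le hR k z) (norm_nonneg _)
  have hind : ∀ n, ‖∫ z, mm R 1 z • g z‖ ≤ ‖T‖ ^ n * ‖∫ z, mm R (n + 1) z • g z‖ := by
    intro n
    induction n with
    | zero => simp
    | succ n ih =>
      refine ih.trans ?_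
      rw [pow_succ, mul_assoc]
      apply mul_le_mul_of_nonneg_left _ (pow_nonneg hT0 n)
      rw [hxs n]
      exact T.le_opNorm _
  have hle : ∀ n : ℕ, ‖∫ z, mm R 1 z • g z‖ ≤ (R⁻¹ * C) * (‖T‖ * R⁻¹) ^ n := by
    intro n
    refine (hind n).trans ((mul_le_mul_of_nonneg_left (hbd (n + 1)) (pow_nonneg hT0 n)).trans ?_)
    apply le_of_eq
    rw [mul_pow, pow_succ]
    ring
  have hlim : Tendsto (fun n : ℕ => (R⁻¹ * C) * (‖T‖ * R⁻¹) ^ n) atTop (𝓝 ((R⁻¹ * C) * 0)) := by
    apply Tendsto.const_mul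
    apply tendsto_pow_atTop_nhds_zero_of_lt_one (by positivity)
    rw [← div_eq_mul_inv, div_lt_one hR]
    linarith
  have hz : ‖∫ z, mm R 1 z • g z‖ ≤ 0 := by
    have := ge_of_tendsto' hlim hle
    simpa using this
  have hz1 : ∫ z, mm R 1 z • g z = 0 := norm_le_zero_iff.1 hz
  rw [h0, hx0, hz1, map_zero, zero_add]

end crit

end Pool.Agent.J4.H86.RD
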