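import Pool.Agent.J4.H86.RD.ORTH
import Pool.Agent.J4.H86.RD.MULT
import Pool.Agent.J4.H86.RD.REPR

/-! Project RD (helper86), piece CRIT (helper30): the hyperinvariant criterion, given `dir`. -/

set_option autoImplicit false
open MeasureTheory Complex Filter Topology ProbabilityTheory
open scoped ENNReal
open Pool.Agent.H761R2.SV (dbar)

namespace Pool.Agent.J4.H86.RD

section crit
variable {X : Type*} [NormedAddCommGroup X] [NormedSpace ℂ X]

namespace CR

theorem compact_dbar {φ : ℂ → ℂ} (hφ : HasCompactSupport φ) : HasCompactSupport (dbar φ) := by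
  have h1 : HasCompactSupport (fderiv ℝ φ) := hφ.fderiv (𝕜 := ℝ)
  exact h1.comp_left (g := fun A : ℂ →L[ℝ] ℂ => (A 1 + I * A I) / 2) (by simp)

theorem integrable_smul {E : Type*} [NormedAddCommGroup E] [NormedSpace ℂ E] {g : ℂ → E}
    (hg : LocallyIntegrable g (volume : Measure ℂ)) {φ : ℂ → ℂ} (hφ : Tst φ) :
    Integrable (fun z => dbar φ z • g z) (volume : Measure ℂ) :=
  hg.integrable_smul_left_of_hasCompactSupport (Pool.Agent.H761R2.SV.continuous_dbar hφ.1)
    (compact_dbar hφ.2)

theorem dbar_add {F G : ℂ → ℂ} (hF : ContDiff ℝ 1 F) (hG : ContDiff ℝ 1 G) (z : ℂ) :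
    dbar (fun w => F w + G w) z = dbar F z + dbar G z := by
  have h1 : DifferentiableAt ℝ F z := (hF.differentiable one_ne_zero).differentiableAt
  have h2 : DifferentiableAt ℝ G z := (hG.differentiable one_ne_zero).differentiableAt
  unfold dbar
  rw [fderiv_fun_add h1 h2]
  simp only [_root_.add_apply]
  ring

theorem dbar_const_mul {F : ℂ → ℂ} (hF : ContDiff ℝ 1 F) (c : ℂ) (z : ℂ) :
    dbar (fun w => c * F w) z = c * dbar F z := by
  have h1 : DifferentiableAt ℝ F z := (hF.differentiable one_ne_zero).differentiableAt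
  unfold dbar
  rw [fderiv_const_mul h1]
  simp only [_root_.smul_apply, smul_eq_mul]
  ring

/-- the commutant of `T` -/
def comm (T : X →L[ℂ] X) : Submodule ℂ (X →L[ℂ] X) where
  carrier := {S | S ∘L T = T ∘L S}
  zero_mem' := by
    show (0 : X →L[ℂ] X) ∘L T = T ∘L 0
    ext v
    simp
  add_mem' := by
    intro A B hA hB
    show (A + B) ∘L T = T ∘L (A + B)
    have hA' : A ∘L T = T ∘L A := hA
    have hB' : B ∘L T = T ∘L B := hB
    rw [ContinuousLinearMap.add_comp, ContinuousLinearMap.comp_add, hA', hB']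
  smul_mem' := by
    intro c A hA
    have hA' : A ∘L T = T ∘L A := hA
    show (c • A) ∘L T = T ∘L (c • A)
    rw [ContinuousLinearMap.smul_comp, ContinuousLinearMap.comp_smul, hA']

/-- evaluation at `x` -/
def ev (x : X) : (X →L[ℂ] X) →ₗ[ℂ] X where
  toFun S := S x
  map_add' _ _ := rfl
  map_smul' _ _ := rfl

/-- a hyperinvariant subspace from a vector and a functional -/
theorem hyper_of (T : X →L[ℂ] X) (x : X) (hx : x ≠ 0) (y : X →L[ℂ] ℂ) (u : X) (hy : y u ≠ 0)
    (h : ∀ S : X →L[ℂ] X, S ∘L T = T ∘L S → y (S x) = 0) : HasHyper T := by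
  refine ⟨((comm T).map (ev x)).topologicalClosure, Submodule.isClosed_topologicalClosure _,
    ?_, ?_, ?_⟩
  · intro hb
    have h1 : x ∈ ((comm T).map (ev x)).topologicalClosure :=
      Submodule.le_topologicalClosure _
        ⟨ContinuousLinearMap.id ℂ X, by
          show ContinuousLinearMap.id ℂ X ∘L T = T ∘L ContinuousLinearMap.id ℂ X
          ext v
          simp, rfl⟩
    rw [hb] at h1
    exact hx ((Submodule.mem_bot ℂ).1 h1)
  · intro ht
    have h1 : u ∈ ((comm T).map (ev x)).topologicalClosure := by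
      rw [ht]
      exact Submodule.mem_top
    have h2 : ((comm T).map (ev x)).topologicalClosure ≤ LinearMap.ker (y : X →ₗ[ℂ] ℂ) := by
      refine Submodule.topologicalClosure_minimal _ ?_ ?_
      · rintro _ ⟨S, hS, rfl⟩
        exact h S hS
      · exact ContinuousLinearMap.isClosed_ker y
    exact hy (h2 h1)
  · intro S hS v hv
    have h2 : ((comm T).map (ev x)).topologicalClosure ≤
        (((comm T).map (ev x)).topologicalClosure).comap (S : X →ₗ[ℂ] X) := by
      refine Submodule.topologicalClosure_minimal _ ?_ ?_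
      · rintro _ ⟨R, hR, rfl⟩
        refine Submodule.le_topologicalClosure _ ⟨S ∘L R, ?_, rfl⟩
        have hR' : R ∘L T = T ∘L R := hR
        show (S ∘L R) ∘L T = T ∘L (S ∘L R)
        rw [ContinuousLinearMap.comp_assoc, hR', ← ContinuousLinearMap.comp_assoc, hS,
          ContinuousLinearMap.comp_assoc]
      · exact (Submodule.isClosed_topologicalClosure _).preimage S.continuous
    exact h2 hv

end CR

theorem crit_of_dir [CompleteSpace X] {ι : Type*}
    (dir : ∀ (F : ι × ι → ℂ → ℂ), (∀ k, LocallyIntegrable (F k) volume) →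
      (∀ φ ψ : ℂ → ℂ, Tst φ → Tst ψ → Disjoint (tsupport φ) (tsupport ψ) →
        NN F φ ∨ NN F ψ) → ∀ L : ℂ →L[ℝ] ℝ, L ≠ 0 → ∀ χ : ℂ → ℂ, Tst χ →
      ¬ NN F χ → ∃ x0 : ℝ, NN F (fun z => ((L z - x0 : ℝ) : ℂ) * χ z))
    (T : X →L[ℂ] X) (e : ι → X) (f : ι → (X →L[ℂ] ℂ))
    (he : Dense (Submodule.span ℂ (Set.range e) : Set X)) (hf : ∀ v, (∀ i, f i v = 0) → v = 0)
    (hg : ∀ i, ∃ g, LocRes T (e i) g) (hh : ∀ i, ∃ h, LocResDual T (f i) h) :
    (∃ c : ℂ, ∀ v, T v = c • v) ∨ HasHyper T := by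
  by_cases hH : HasHyper T
  · exact Or.inr hH
  left
  choose g hg using hg
  choose h hh using hh
  -- the matrix elements
  obtain ⟨F, hFdef⟩ : ∃ F : ι × ι → ℂ → ℂ, F = fun k z => f k.2 (g k.1 z) := ⟨_, rfl⟩
  have hF : ∀ k, LocallyIntegrable (F k) volume := by
    intro k z
    obtain ⟨s, hs, hi⟩ := (hg k.1).loc z
    refine ⟨s, hs, ?_⟩
    rw [hFdef]
    exact (f k.2).integrable_comp hi
  have hint : ∀ (φ : ℂ → ℂ), Tst φ → ∀ i j, ∫ z, dbar φ z * F (i, j) z =
      f j (∫ z, dbar φ z • g i z) := by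
    intro φ hφ i j
    rw [← (f j).integral_comp_comm (CR.integrable_smul (hg i).loc hφ)]
    refine integral_congr_ae (Filter.Eventually.of_forall fun z => ?_)
    rw [hFdef]
    show dbar φ z * f j (g i z) = f j (dbar φ z • g i z)
    rw [map_smul, smul_eq_mul]
  -- the dichotomy
  have hdich : ∀ φ ψ : ℂ → ℂ, Tst φ → Tst ψ → Disjoint (tsupport φ) (tsupport ψ) →
      NN F φ ∨ NN F ψ := by
    intro φ ψ hφ hψ hd
    by_contra hcon
    rw [not_or] at hcon
    obtain ⟨h1, h2⟩ := hcon
    unfold NN at h1 h2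
    rw [not_forall] at h1 h2
    obtain ⟨⟨i0, j0⟩, h1⟩ := h1
    obtain ⟨⟨i1, j1⟩, h2⟩ := h2
    rw [hint φ hφ] at h1
    rw [hint ψ hψ, dual (hg i1) (hh j1) hψ] at h2
    refine hH (CR.hyper_of T (∫ z, dbar φ z • g i0 z) ?_ (∫ z, dbar ψ z • h j1 z) (e i1) h2 ?_)
    · intro h0
      rw [h0, map_zero] at h1
      exact h1 rfl
    · intro S hS
      exact orth hS (hg i0) (hh j1) hφ hψ hd
  obtain ⟨χ, hχ, hχ2⟩ := repr T
  have hχi : ∀ i, ∫ z, dbar χ z • g i z = (Real.pi : ℂ) • e i := fun i => hχ2 _ _ (hg i)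
  have hpi : (Real.pi : ℂ) ≠ 0 := by exact_mod_cast Real.pi_ne_zero
  -- it is enough to know that the `e i` are eigenvectors
  suffices hs : ∃ c : ℂ, ∀ i, T (e i) = c • e i by
    obtain ⟨c, hc⟩ := hs
    refine ⟨c, fun v => ?_⟩
    have h1 : (Submodule.span ℂ (Set.range e)).topologicalClosure ≤
        LinearMap.ker ((T - c • ContinuousLinearMap.id ℂ X : X →L[ℂ] X) : X →ₗ[ℂ] X) := by
      refine Submodule.topologicalClosure_minimal _ ?_ ?_
      · rw [Submodule.span_le]
        rintro _ ⟨i, rfl⟩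
        show (T - c • ContinuousLinearMap.id ℂ X : X →L[ℂ] X) (e i) = 0
        rw [_root_.sub_apply, _root_.smul_apply, hc i]
        exact sub_self _
      · exact ContinuousLinearMap.isClosed_ker (T - c • ContinuousLinearMap.id ℂ X)
    have h2 : v ∈ (Submodule.span ℂ (Set.range e)).topologicalClosure := by
      rw [← SetLike.mem_coe, Submodule.topologicalClosure_coe, he.closure_eq]
      exact Set.mem_univ v
    have h3 : (T - c • ContinuousLinearMap.id ℂ X : X →L[ℂ] X) v = 0 := h1 h2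
    rw [_root_.sub_apply, _root_.smul_apply] at h3
    exact sub_eq_zero.1 h3
  by_cases hN : NN F χ
  · refine ⟨0, fun i => ?_⟩
    have h1 : (Real.pi : ℂ) • e i = 0 := by
      refine hf _ fun j => ?_
      rw [← hχi, ← hint χ hχ]
      exact hN (i, j)
    have h2 : e i = 0 := (smul_eq_zero.1 h1).resolve_left hpi
    rw [h2, map_zero, smul_zero]
  · obtain ⟨x0, hx0⟩ := dir F hF hdich Complex.reCLM (fun h0 => by
      have := congrArg (fun A : ℂ →L[ℝ] ℝ => A 1) h0
      simp at this) χ hχ hN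
    obtain ⟨y0, hy0⟩ := dir F hF hdich Complex.imCLM (fun h0 => by
      have := congrArg (fun A : ℂ →L[ℝ] ℝ => A I) h0
      simp at this) χ hχ hN
    have ht1 : Tst (fun z : ℂ => ((Complex.reCLM z - x0 : ℝ) : ℂ) * χ z) := by
      refine ⟨?_, hχ.2.mul_left⟩
      exact (Complex.ofRealCLM.contDiff.comp (Complex.reCLM.contDiff.sub contDiff_const)).mul hχ.1
    have ht2 : Tst (fun z : ℂ => ((Complex.imCLM z - y0 : ℝ) : ℂ) * χ z) := by
      refine ⟨?_, hχ.2.mul_left⟩
      exact (Complex.ofRealCLM.contDiff.comp (Complex.imCLM.contDiff.sub contDiff_const)).mul hχ.1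
    have ht3 : Tst (fun z : ℂ => z * χ z) := ⟨contDiff_id.mul hχ.1, hχ.2.mul_left⟩
    refine ⟨(x0 : ℂ) + y0 * I, fun i => ?_⟩
    -- the pointwise identity
    have hpt : ∀ z, dbar (fun w => w * χ w) z =
        dbar (fun w : ℂ => ((Complex.reCLM w - x0 : ℝ) : ℂ) * χ w) z +
          I * dbar (fun w : ℂ => ((Complex.imCLM w - y0 : ℝ) : ℂ) * χ w) z +
          ((x0 : ℂ) + y0 * I) * dbar χ z := by
      intro z
      have e1 : (fun w => w * χ w) = fun w : ℂ => (((Complex.reCLM w - x0 : ℝ) : ℂ) * χ w +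
          I * (((Complex.imCLM w - y0 : ℝ) : ℂ) * χ w)) + ((x0 : ℂ) + y0 * I) * χ w := by
        funext w
        have : w = (w.re : ℂ) + w.im * I := (Complex.re_add_im w).symm
        simp only [Complex.reCLM_apply, Complex.imCLM_apply, Complex.ofReal_sub]
        calc w * χ w = ((w.re : ℂ) + w.im * I) * χ w := by rw [← this]
          _ = _ := by ring
      rw [e1]
      rw [CR.dbar_add (ht1.1.add (contDiff_const.mul ht2.1)) (contDiff_const.mul hχ.1),
        CR.dbar_add ht1.1 (contDiff_const.mul ht2.1), CR.dbar_const_mul ht2.1,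
        CR.dbar_const_mul hχ.1]
    have hsub : T (e i) - ((x0 : ℂ) + y0 * I) • e i = 0 := by
      have h0 : (Real.pi : ℂ) • (T (e i) - ((x0 : ℂ) + y0 * I) • e i) = 0 := by
        refine hf _ fun j => ?_
        have h1 : f j ((Real.pi : ℂ) • T (e i)) = ∫ z, dbar (fun w => w * χ w) z * F (i, j) z := by
          rw [hint _ ht3, mult (hg i) hχ, hχi, map_smul T]
        have h2 : f j ((Real.pi : ℂ) • e i) = ∫ z, dbar χ z * F (i, j) z := by
          rw [hint _ hχ, hχi]
        have i1 : Integrable (fun z => dbar (fun w : ℂ => ((Complex.reCLM w - x0 : ℝ) : ℂ) * χ w) z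
            * F (i, j) z) := CR.integrable_smul (hF (i, j)) ht1
        have i2 : Integrable (fun z => dbar (fun w : ℂ => ((Complex.imCLM w - y0 : ℝ) : ℂ) * χ w) z
            * F (i, j) z) := CR.integrable_smul (hF (i, j)) ht2
        have i3 : Integrable (fun z => dbar χ z * F (i, j) z) :=
          CR.integrable_smul (hF (i, j)) hχ
        have h3 : ∫ z, dbar (fun w => w * χ w) z * F (i, j) z =
            ((x0 : ℂ) + y0 * I) * ∫ z, dbar χ z * F (i, j) z := by
          have e2 : (fun z => dbar (fun w => w * χ w) z * F (i, j) z) = fun z =>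
              (dbar (fun w : ℂ => ((Complex.reCLM w - x0 : ℝ) : ℂ) * χ w) z * F (i, j) z +
              I * (dbar (fun w : ℂ => ((Complex.imCLM w - y0 : ℝ) : ℂ) * χ w) z * F (i, j) z)) +
              ((x0 : ℂ) + y0 * I) * (dbar χ z * F (i, j) z) := by
            funext z
            rw [hpt z]
            ring
          have i12 : Integrable (fun z =>
              dbar (fun w : ℂ => ((Complex.reCLM w - x0 : ℝ) : ℂ) * χ w) z * F (i, j) z +
              I * (dbar (fun w : ℂ => ((Complex.imCLM w - y0 : ℝ) : ℂ) * χ w) z * F (i, j) z)) :=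
            i1.add (i2.const_mul I)
          rw [e2, integral_add i12 (i3.const_mul _),
            integral_add i1 (i2.const_mul I), integral_const_mul, integral_const_mul,
            hx0 (i, j), hy0 (i, j)]
          ring
        have h4 : f j ((Real.pi : ℂ) • (((x0 : ℂ) + y0 * I) • e i)) =
            ((x0 : ℂ) + y0 * I) * f j ((Real.pi : ℂ) • e i) := by
          rw [smul_comm, map_smul, smul_eq_mul]
        rw [smul_sub, map_sub, h1, h3, h4, ← h2, sub_self]
      exact (smul_eq_zero.1 h0).resolve_left hpi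
    exact sub_eq_zero.1 hsub

end crit

end Pool.Agent.J4.H86.RD
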