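import Pool.Agent.J4.H86.RD.Defs2
import Pool.Agent.J4.H86.RD.GBAS

/-! Piece EX of project RD: the limit of the columns of the finite resolvents. -/

set_option autoImplicit false
open MeasureTheory Complex Filter Topology ProbabilityTheory
open scoped ENNReal
open Pool.Agent.H761R2.SV (dbar)

namespace Pool.Agent.J4.H86.RD

section fv
variable {ι : Type*} [DecidableEq ι]

theorem EXaux.G_zero (B : ι → ι → ℂ) (A : Finset ι) (l : ι → ℂ) (x y : ι) (hx : x ∉ A) :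
    G B A l x y = 0 := by
  unfold G
  rw [dif_neg (fun h => hx h.1)]

theorem EXaux.sum_le (B : ι → ι → ℂ) (A : Finset ι) (l : ι → ℂ) (y : ι) (s : Finset ι) :
    ∑ x ∈ s, ‖G B A l x y‖ₑ ≤ ∑ x ∈ A, ‖G B A l x y‖ₑ := by
  refine Finset.sum_le_sum_of_ne_zero fun x _ h => ?_
  by_contra hx
  exact h (by rw [EXaux.G_zero B A l x y hx, enorm_zero])

theorem exists_col [Countable ι] (B : ι → ι → ℂ) (l : ι → ℂ) (A : ℕ → Finset ι)
    (hmono : Monotone A) (hexh : ∀ x, ∃ n, x ∈ A n) (hunit : ∀ n, IsUnit (Mat B (A n) l))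
    (hrow : ∀ x, Summable (fun w => ‖B x w‖)) (y : ι)
    (hL : liminf (fun n => ∑ x ∈ A n, ‖G B (A n) l x y‖ₑ) atTop ≠ ⊤) :
    ∃ g : ι → ℂ, ∑' x, ‖g x‖ₑ ≤ liminf (fun n => ∑ x ∈ A n, ‖G B (A n) l x y‖ₑ) atTop ∧
      ∀ x, l x * g x + ∑' w, (if w = x then 0 else B x w * g w) = if x = y then 1 else 0 := by
  obtain ⟨S, hS⟩ : ∃ S : ℕ → ℝ≥0∞, S = fun n => ∑ x ∈ A n, ‖G B (A n) l x y‖ₑ := ⟨_, rfl⟩
  rw [← hS] at hL ⊢
  obtain ⟨L, hLd⟩ : ∃ L : ℝ≥0∞, L = liminf S atTop := ⟨_, rfl⟩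
  rw [← hLd] at hL ⊢
  have hpos : ∀ n : ℕ, (0 : ℝ≥0∞) < ((n : ℝ≥0∞) + 1)⁻¹ := fun n =>
    ENNReal.inv_pos.2 (by simp)
  have hfreq : ∀ n : ℕ, ∃ᶠ k in atTop, S k < L + ((n : ℝ≥0∞) + 1)⁻¹ := by
    intro n
    refine frequently_lt_of_liminf_lt (by isBoundedDefault) ?_
    rw [← hLd]
    exact ENNReal.lt_add_right hL (hpos n).ne'
  obtain ⟨φ, hφ, hφS⟩ := extraction_forall_of_frequently hfreq
  obtain ⟨v, hv⟩ : ∃ v : ℕ → ι → ℂ, v = fun k x => G B (A (φ k)) l x y := ⟨_, rfl⟩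
  have hvsum : ∀ (k : ℕ) (s : Finset ι), ∑ x ∈ s, ‖v k x‖ₑ ≤ L + ((k : ℝ≥0∞) + 1)⁻¹ := by
    intro k s
    refine le_trans ?_ (hφS k).le
    rw [hv, hS]
    exact EXaux.sum_le B (A (φ k)) l y s
  have hinv1 : ∀ n : ℕ, ((n : ℝ≥0∞) + 1)⁻¹ ≤ 1 := fun n =>
    ENNReal.inv_le_one.2 (by simp)
  obtain ⟨R, hR⟩ : ∃ R : ℝ, R = (L + 1).toReal := ⟨_, rfl⟩
  have hL1 : L + 1 ≠ ⊤ := ENNReal.add_ne_top.2 ⟨hL, ENNReal.one_ne_top⟩
  have hvR : ∀ k x, ‖v k x‖ ≤ R := by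
    intro k x
    have h1 := hvsum k {x}
    rw [Finset.sum_singleton] at h1
    have h2 : ‖v k x‖ₑ ≤ L + 1 := h1.trans (by gcongr; exact hinv1 k)
    rw [hR, ← toReal_enorm]
    exact ENNReal.toReal_mono hL1 h2
  have hK : IsCompact (Set.pi Set.univ fun _ : ι => Metric.closedBall (0 : ℂ) R) :=
    isCompact_univ_pi fun _ => isCompact_closedBall _ _
  obtain ⟨g, _, ψ, hψ, hlim⟩ := hK.tendsto_subseq (x := v) (fun k => by
    rw [Set.mem_univ_pi]
    intro x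
    rw [mem_closedBall_zero_iff]
    exact hvR k x)
  have hlimx : ∀ x, Tendsto (fun k => v (ψ k) x) atTop (𝓝 (g x)) := fun x =>
    (tendsto_pi_nhds.1 hlim) x
  have hinv : Tendsto (fun k : ℕ => ((k : ℝ≥0∞) + 1)⁻¹) atTop (𝓝 0) := by
    have h1 : Tendsto (fun k : ℕ => (((k + 1 : ℕ) : ℝ≥0∞))⁻¹) atTop (𝓝 0) :=
      ENNReal.tendsto_inv_nat_nhds_zero.comp (tendsto_add_atTop_nat 1)
    simpa using h1
  refine ⟨g, ?_, ?_⟩
  · rw [ENNReal.tsum_eq_iSup_sum]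
    refine iSup_le fun s => ?_
    have h1 : Tendsto (fun k => ∑ x ∈ s, ‖v (ψ k) x‖ₑ) atTop (𝓝 (∑ x ∈ s, ‖g x‖ₑ)) :=
      tendsto_finsetSum _ fun x _ => (continuous_enorm.tendsto _).comp (hlimx x)
    have h2 : Tendsto (fun k => L + (((ψ k : ℕ) : ℝ≥0∞) + 1)⁻¹) atTop (𝓝 (L + 0)) :=
      (hinv.comp hψ.tendsto_atTop).const_add L
    rw [add_zero] at h2
    exact le_of_tendsto_of_tendsto' h1 h2 fun k => hvsum (ψ k) s
  · intro x
    have hR0 : 0 ≤ R := by rw [hR]; exact ENNReal.toReal_nonneg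
    have h1 : Tendsto (fun k => ∑' w, (if w = x then 0 else B x w * v (ψ k) w)) atTop
        (𝓝 (∑' w, (if w = x then 0 else B x w * g w))) := by
      refine tendsto_tsum_of_dominated_convergence (bound := fun w => ‖B x w‖ * R)
        ((hrow x).mul_right R) (fun w => ?_) (Eventually.of_forall fun k w => ?_)
      · by_cases hw : w = x
        · simp only [if_pos hw]
          exact tendsto_const_nhds
        · simp only [if_neg hw]
          exact (hlimx w).const_mul _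
      · by_cases hw : w = x
        · rw [if_pos hw, norm_zero]
          positivity
        · rw [if_neg hw, norm_mul]
          exact mul_le_mul_of_nonneg_left (hvR _ _) (norm_nonneg _)
    have h2 : Tendsto (fun k => l x * v (ψ k) x + ∑' w, (if w = x then 0 else B x w * v (ψ k) w))
        atTop (𝓝 (l x * g x + ∑' w, (if w = x then 0 else B x w * g w))) :=
      ((hlimx x).const_mul _).add h1
    obtain ⟨n1, hn1⟩ := hexh x
    obtain ⟨n2, hn2⟩ := hexh y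
    have hev : ∀ᶠ k in atTop, l x * v (ψ k) x + ∑' w, (if w = x then 0 else B x w * v (ψ k) w) =
        if x = y then 1 else 0 := by
      filter_upwards [eventually_ge_atTop (max n1 n2)] with k hk
      have hk1 : max n1 n2 ≤ φ (ψ k) := hk.trans ((hψ.id_le k).trans (hφ.id_le _))
      have hx : x ∈ A (φ (ψ k)) := hmono ((le_max_left _ _).trans hk1) hn1
      have hy : y ∈ A (φ (ψ k)) := hmono ((le_max_right _ _).trans hk1) hn2
      have h3 := G_col B (A (φ (ψ k))) l (hunit _) x y hx hy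
      have h4 : ∑' w, (if w = x then 0 else B x w * v (ψ k) w) =
          ∑ w ∈ (A (φ (ψ k))).erase x, B x w * G B (A (φ (ψ k))) l w y := by
        rw [tsum_eq_sum (s := (A (φ (ψ k))).erase x)]
        · refine Finset.sum_congr rfl fun w hw => ?_
          rw [if_neg (Finset.ne_of_mem_erase hw), hv]
        · intro w hw
          by_cases hwx : w = x
          · rw [if_pos hwx]
          · rw [if_neg hwx, hv]
            have : w ∉ A (φ (ψ k)) := fun h => hw (Finset.mem_erase.2 ⟨hwx, h⟩)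
            simp only
            rw [EXaux.G_zero B _ l w y this, mul_zero]
      rw [h4, hv]
      exact h3
    exact tendsto_nhds_unique (h2.congr' hev) tendsto_const_nhds |>.symm ▸ rfl

end fv

namespace EXaux

/-- the tail of a pairing -/
theorem tail {ι : Type*} {s q : ℝ} (hsq : s.HolderConjugate q) (b u : ι → ℂ) {M : ℝ}
    (hb : Summable (fun w => ‖b w‖ ^ q)) (hu : ∀ t : Finset ι, ∑ w ∈ t, ‖u w‖ ^ s ≤ M) :
    ∀ W : Finset ι, ‖∑' w, b w * u w - ∑ w ∈ W, b w * u w‖ ≤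
      (∑' w : {w // w ∉ W}, ‖b w‖ ^ q) ^ (1 / q) * M ^ (1 / s) := by
  classical
  have hs0 : 0 < s := hsq.pos
  have hus : Summable (fun w => ‖u w‖ ^ s) :=
    summable_of_sum_le (fun _ => by positivity) hu
  have hprod : Summable (fun w => ‖b w‖ * ‖u w‖) :=
    Real.summable_mul_of_Lp_Lq_of_nonneg hsq.symm (fun _ => norm_nonneg _)
      (fun _ => norm_nonneg _) hb hus
  have hbu : Summable (fun w => b w * u w) :=
    Summable.of_norm (by simpa only [norm_mul] using hprod)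
  intro W
  have h1 := hbu.sum_add_tsum_subtype_compl W
  rw [← h1, add_sub_cancel_left]
  have h2 := Real.inner_le_Lp_mul_Lq_tsum_of_nonneg hsq.symm
    (f := fun w : {w // w ∉ W} => ‖b w‖) (g := fun w : {w // w ∉ W} => ‖u w‖)
    (fun _ => norm_nonneg _) (fun _ => norm_nonneg _) (hb.subtype _) (hus.subtype _)
  have h3 : ‖∑' w : {w // w ∉ W}, b w * u w‖ ≤ ∑' w : {w // w ∉ W}, ‖b w‖ * ‖u w‖ := by
    refine (norm_tsum_le_tsum_norm ?_).trans (le_of_eq ?_)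
    · refine (hprod.subtype (fun w => w ∉ W)).congr fun w => ?_
      exact (norm_mul _ _).symm
    · exact tsum_congr fun w => norm_mul _ _
  refine h3.trans (h2.trans ?_)
  refine mul_le_mul_of_nonneg_left ?_ (by positivity)
  refine Real.rpow_le_rpow (tsum_nonneg fun _ => by positivity) ?_ (by positivity)
  refine (hus.subtype _).tsum_le_of_sum_le fun t => ?_
  have h4 : ∑ i ∈ t, ((fun w => ‖u w‖ ^ s) ∘ Subtype.val) i =
      ∑ w ∈ t.map (Function.Embedding.subtype _), ‖u w‖ ^ s := by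
    rw [Finset.sum_map]
    rfl
  exact h4.le.trans (hu _)

/-- convergence of the pairings -/
theorem conv {ι : Type*} {s q : ℝ} (hsq : s.HolderConjugate q) (b : ι → ℂ) {M : ℝ}
    (hb : Summable (fun w => ‖b w‖ ^ q)) (v : ℕ → ι → ℂ) (g : ι → ℂ)
    (hv : ∀ (k : ℕ) (t : Finset ι), ∑ w ∈ t, ‖v k w‖ ^ s ≤ M)
    (hg : ∀ t : Finset ι, ∑ w ∈ t, ‖g w‖ ^ s ≤ M)
    (hlim : ∀ w, Tendsto (fun k => v k w) atTop (𝓝 (g w))) :
    Tendsto (fun k => ∑' w, b w * v k w) atTop (𝓝 (∑' w, b w * g w)) := by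
  have hq0 : 0 < q := hsq.symm.pos
  rw [Metric.tendsto_atTop]
  intro ε hε
  have h1 : Tendsto (fun W : Finset ι => (∑' w : {w // w ∉ W}, ‖b w‖ ^ q) ^ (1 / q) * M ^ (1 / s))
      atTop (𝓝 (0 ^ (1 / q) * M ^ (1 / s))) :=
    ((tendsto_tsum_compl_atTop_zero fun w => ‖b w‖ ^ q).rpow_const
      (Or.inr (by positivity))).mul_const _
  rw [Real.zero_rpow (by positivity), zero_mul] at h1
  obtain ⟨W, hW⟩ := ((tendsto_order.1 h1).2 (ε / 3) (by positivity)).exists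
  have h2 : Tendsto (fun k => ∑ w ∈ W, b w * v k w) atTop (𝓝 (∑ w ∈ W, b w * g w)) :=
    tendsto_finsetSum _ fun w _ => (hlim w).const_mul _
  obtain ⟨N, hN⟩ := (Metric.tendsto_atTop.1 h2) (ε / 3) (by positivity)
  refine ⟨N, fun k hk => ?_⟩
  have h3 := hN k hk
  have h4 := tail hsq b (v k) hb (hv k) W
  have h5 := tail hsq b g hb hg W
  rw [dist_eq_norm] at h3 ⊢
  have e : ∑' w, b w * v k w - ∑' w, b w * g w =
      (∑' w, b w * v k w - ∑ w ∈ W, b w * v k w) + (∑ w ∈ W, b w * v k w - ∑ w ∈ W, b w * g w) -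
        (∑' w, b w * g w - ∑ w ∈ W, b w * g w) := by ring
  rw [e]
  have h6 := norm_sub_le ((∑' w, b w * v k w - ∑ w ∈ W, b w * v k w) +
    (∑ w ∈ W, b w * v k w - ∑ w ∈ W, b w * g w)) (∑' w, b w * g w - ∑ w ∈ W, b w * g w)
  have h7 := norm_add_le (∑' w, b w * v k w - ∑ w ∈ W, b w * v k w)
    (∑ w ∈ W, b w * v k w - ∑ w ∈ W, b w * g w)
  linarith

theorem sum_le' {ι : Type*} [DecidableEq ι] {s : ℝ} (hs : 0 < s) (B : ι → ι → ℂ) (A : Finset ι)
    (l : ι → ℂ) (y : ι) (t : Finset ι) :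
    ∑ x ∈ t, ‖G B A l x y‖ₑ ^ s ≤ ∑ x ∈ A, ‖G B A l x y‖ₑ ^ s := by
  refine Finset.sum_le_sum_of_ne_zero fun x _ h => ?_
  by_contra hx
  exact h (by rw [EXaux.G_zero B A l x y hx, enorm_zero, ENNReal.zero_rpow_of_pos hs])

theorem real_of_enn {ι : Type*} {s : ℝ} (hs : 0 < s) (u : ι → ℂ) (t : Finset ι) {M : ℝ≥0∞}
    (hM : M ≠ ⊤) (h : ∑ x ∈ t, ‖u x‖ₑ ^ s ≤ M) : ∑ x ∈ t, ‖u x‖ ^ s ≤ M.toReal := by
  rw [← ENNReal.ofReal_le_iff_le_toReal hM, ENNReal.ofReal_sum_of_nonneg (fun _ _ => by positivity)]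
  refine le_trans (le_of_eq (Finset.sum_congr rfl fun x _ => ?_)) h
  rw [← ofReal_norm, ENNReal.ofReal_rpow_of_nonneg (norm_nonneg _) hs.le]

end EXaux

section ex
variable {ι : Type*} [DecidableEq ι]

theorem exists_col' [Countable ι] {s q : ℝ} (hsq : s.HolderConjugate q) (B : ι → ι → ℂ)
    (l : ι → ℂ) (A : ℕ → Finset ι)
    (hmono : Monotone A) (hexh : ∀ x, ∃ n, x ∈ A n) (hunit : ∀ n, IsUnit (Mat B (A n) l))
    (hrow : ∀ x, Summable (fun w => ‖B x w‖ ^ q)) (y : ι)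
    (hL : liminf (fun n => ∑ x ∈ A n, ‖G B (A n) l x y‖ₑ ^ s) atTop ≠ ⊤) :
    ∃ g : ι → ℂ,
      ∑' x, ‖g x‖ₑ ^ s ≤ liminf (fun n => ∑ x ∈ A n, ‖G B (A n) l x y‖ₑ ^ s) atTop ∧
      ∀ x, l x * g x + ∑' w, (if w = x then 0 else B x w * g w) = if x = y then 1 else 0 := by
  have hs0 : 0 < s := hsq.pos
  have hq0 : 0 < q := hsq.symm.pos
  obtain ⟨S, hS⟩ : ∃ S : ℕ → ℝ≥0∞, S = fun n => ∑ x ∈ A n, ‖G B (A n) l x y‖ₑ ^ s := ⟨_, rfl⟩
  rw [← hS] at hL ⊢
  obtain ⟨L, hLd⟩ : ∃ L : ℝ≥0∞, L = liminf S atTop := ⟨_, rfl⟩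
  rw [← hLd] at hL ⊢
  have hpos : ∀ n : ℕ, (0 : ℝ≥0∞) < ((n : ℝ≥0∞) + 1)⁻¹ := fun n =>
    ENNReal.inv_pos.2 (by simp)
  have hfreq : ∀ n : ℕ, ∃ᶠ k in atTop, S k < L + ((n : ℝ≥0∞) + 1)⁻¹ := by
    intro n
    refine frequently_lt_of_liminf_lt (by isBoundedDefault) ?_
    rw [← hLd]
    exact ENNReal.lt_add_right hL (hpos n).ne'
  obtain ⟨φ, hφ, hφS⟩ := extraction_forall_of_frequently hfreq
  obtain ⟨v, hv⟩ : ∃ v : ℕ → ι → ℂ, v = fun k x => G B (A (φ k)) l x y := ⟨_, rfl⟩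
  have hvsum : ∀ (k : ℕ) (t : Finset ι), ∑ x ∈ t, ‖v k x‖ₑ ^ s ≤ L + ((k : ℝ≥0∞) + 1)⁻¹ := by
    intro k t
    refine le_trans ?_ (hφS k).le
    rw [hv, hS]
    exact EXaux.sum_le' hs0 B (A (φ k)) l y t
  have hinv1 : ∀ n : ℕ, ((n : ℝ≥0∞) + 1)⁻¹ ≤ 1 := fun n =>
    ENNReal.inv_le_one.2 (by simp)
  have hL1 : L + 1 ≠ ⊤ := ENNReal.add_ne_top.2 ⟨hL, ENNReal.one_ne_top⟩
  obtain ⟨M, hM⟩ : ∃ M : ℝ, M = (L + 1).toReal := ⟨_, rfl⟩
  have hM0 : 0 ≤ M := by rw [hM]; exact ENNReal.toReal_nonneg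
  have hvM : ∀ (k : ℕ) (t : Finset ι), ∑ x ∈ t, ‖v k x‖ ^ s ≤ M := by
    intro k t
    rw [hM]
    refine EXaux.real_of_enn hs0 _ _ hL1 ((hvsum k t).trans ?_)
    gcongr
    exact hinv1 k
  have hvR : ∀ k x, ‖v k x‖ ≤ M ^ s⁻¹ := by
    intro k x
    have h1 := hvM k {x}
    rw [Finset.sum_singleton] at h1
    exact (Real.le_rpow_inv_iff_of_pos (norm_nonneg _) hM0 hs0).2 h1
  have hK : IsCompact (Set.pi Set.univ fun _ : ι => Metric.closedBall (0 : ℂ) (M ^ s⁻¹)) :=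
    isCompact_univ_pi fun _ => isCompact_closedBall _ _
  obtain ⟨g, _, ψ, hψ, hlim⟩ := hK.tendsto_subseq (x := v) (fun k => by
    rw [Set.mem_univ_pi]
    intro x
    rw [mem_closedBall_zero_iff]
    exact hvR k x)
  have hlimx : ∀ x, Tendsto (fun k => v (ψ k) x) atTop (𝓝 (g x)) := fun x =>
    (tendsto_pi_nhds.1 hlim) x
  have hinv : Tendsto (fun k : ℕ => ((k : ℝ≥0∞) + 1)⁻¹) atTop (𝓝 0) := by
    have h1 : Tendsto (fun k : ℕ => (((k + 1 : ℕ) : ℝ≥0∞))⁻¹) atTop (𝓝 0) :=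
      ENNReal.tendsto_inv_nat_nhds_zero.comp (tendsto_add_atTop_nat 1)
    simpa using h1
  have hgsum : ∀ t : Finset ι, ∑ x ∈ t, ‖g x‖ₑ ^ s ≤ L := by
    intro t
    have h1 : Tendsto (fun k => ∑ x ∈ t, ‖v (ψ k) x‖ₑ ^ s) atTop (𝓝 (∑ x ∈ t, ‖g x‖ₑ ^ s)) :=
      tendsto_finsetSum _ fun x _ => ((ENNReal.continuous_rpow_const (y := s)).tendsto _).comp
        ((continuous_enorm.tendsto _).comp (hlimx x))
    have h2 : Tendsto (fun k => L + (((ψ k : ℕ) : ℝ≥0∞) + 1)⁻¹) atTop (𝓝 (L + 0)) :=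
      (hinv.comp hψ.tendsto_atTop).const_add L
    rw [add_zero] at h2
    exact le_of_tendsto_of_tendsto' h1 h2 fun k => hvsum (ψ k) t
  refine ⟨g, ?_, ?_⟩
  · rw [ENNReal.tsum_eq_iSup_sum]
    exact iSup_le hgsum
  · intro x
    have hgM : ∀ t : Finset ι, ∑ w ∈ t, ‖g w‖ ^ s ≤ M := by
      intro t
      rw [hM]
      exact EXaux.real_of_enn hs0 _ _ hL1 ((hgsum t).trans le_self_add)
    have hbs : Summable (fun w => ‖(if w = x then (0 : ℂ) else B x w)‖ ^ q) := by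
      refine Summable.of_nonneg_of_le (fun _ => by positivity) (fun w => ?_) (hrow x)
      by_cases hw : w = x
      · rw [if_pos hw, norm_zero, Real.zero_rpow hq0.ne']
        positivity
      · rw [if_neg hw]
    have e : ∀ (u : ι → ℂ) (w : ι), (if w = x then 0 else B x w * u w) =
        (if w = x then (0 : ℂ) else B x w) * u w := by
      intro u w
      rw [ite_mul, zero_mul]
    have h1 : Tendsto (fun k => ∑' w, (if w = x then 0 else B x w * v (ψ k) w)) atTop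
        (𝓝 (∑' w, (if w = x then 0 else B x w * g w))) := by
      have h0 := EXaux.conv hsq (fun w => if w = x then (0 : ℂ) else B x w) hbs
        (fun k => v (ψ k)) g (fun k t => hvM (ψ k) t) hgM hlimx
      simp only [e]
      exact h0
    have h2 : Tendsto (fun k => l x * v (ψ k) x + ∑' w, (if w = x then 0 else B x w * v (ψ k) w))
        atTop (𝓝 (l x * g x + ∑' w, (if w = x then 0 else B x w * g w))) :=
      ((hlimx x).const_mul _).add h1
    obtain ⟨n1, hn1⟩ := hexh x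
    obtain ⟨n2, hn2⟩ := hexh y
    have hev : ∀ᶠ k in atTop, l x * v (ψ k) x + ∑' w, (if w = x then 0 else B x w * v (ψ k) w) =
        if x = y then 1 else 0 := by
      filter_upwards [eventually_ge_atTop (max n1 n2)] with k hk
      have hk1 : max n1 n2 ≤ φ (ψ k) := hk.trans ((hψ.id_le k).trans (hφ.id_le _))
      have hx : x ∈ A (φ (ψ k)) := hmono ((le_max_left _ _).trans hk1) hn1
      have hy : y ∈ A (φ (ψ k)) := hmono ((le_max_right _ _).trans hk1) hn2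
      have h3 := G_col B (A (φ (ψ k))) l (hunit _) x y hx hy
      have h4 : ∑' w, (if w = x then 0 else B x w * v (ψ k) w) =
          ∑ w ∈ (A (φ (ψ k))).erase x, B x w * G B (A (φ (ψ k))) l w y := by
        rw [tsum_eq_sum (s := (A (φ (ψ k))).erase x)]
        · refine Finset.sum_congr rfl fun w hw => ?_
          rw [if_neg (Finset.ne_of_mem_erase hw), hv]
        · intro w hw
          by_cases hwx : w = x
          · rw [if_pos hwx]
          · rw [if_neg hwx, hv]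
            have : w ∉ A (φ (ψ k)) := fun h => hw (Finset.mem_erase.2 ⟨hwx, h⟩)
            simp only
            rw [EXaux.G_zero B _ l w y this, mul_zero]
      rw [h4, hv]
      exact h3
    exact tendsto_nhds_unique (h2.congr' hev) tendsto_const_nhds |>.symm ▸ rfl

end ex

end Pool.Agent.J4.H86.RD
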