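import Mathlib

set_option autoImplicit false
open MeasureTheory Complex Filter Topology ProbabilityTheory
open scoped ENNReal

namespace Pool.Agent.J4.H86.RD

theorem meassel {E E' : Type*} [NormedAddCommGroup E] [NormedSpace ℂ E] [CompleteSpace E]
    [SecondCountableTopology E] [NormedAddCommGroup E'] [NormedSpace ℂ E'] (U J : E →L[ℂ] E')
    (v : E') (g : ℂ → E) (hg : ∀ᵐ z : ℂ, U (g z) - z • J (g z) = v)
    (hinj : ∀ᵐ z : ℂ, ∀ u : E, U u - z • J u = 0 → u = 0) :
    AEStronglyMeasurable g (volume : Measure ℂ) := by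
  borelize E
  have hP : ∀ᵐ z : ℂ, (U (g z) - z • J (g z) = v) ∧ ∀ u : E, U u - z • J u = 0 → u = 0 :=
    hg.and hinj
  obtain ⟨N, hN, hNm, hN0⟩ := exists_measurable_superset_of_null (mem_ae_iff.mp hP)
  set D : Set ℂ := Nᶜ with hD
  have hDm : MeasurableSet D := hNm.compl
  have hDP : ∀ z ∈ D, (U (g z) - z • J (g z) = v) ∧ ∀ u : E, U u - z • J u = 0 → u = 0 := by
    intro z hz
    by_contra h
    exact hz (hN h)
  have hcont : Continuous fun p : ℂ × E => U p.2 - p.1 • J p.2 := by fun_prop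
  have hZ : MeasurableSet {p : ℂ × E | p.1 ∈ D ∧ U p.2 - p.1 • J p.2 = v} :=
    (measurable_fst hDm).inter (isClosed_eq hcont continuous_const).measurableSet
  have hpre : ∀ O : Set E, MeasurableSet O → MeasurableSet {z | z ∈ D ∧ g z ∈ O} := by
    intro O hO
    have h1 : {z | z ∈ D ∧ g z ∈ O} = Prod.fst ''
        ({p : ℂ × E | p.1 ∈ D ∧ U p.2 - p.1 • J p.2 = v} ∩ Prod.snd ⁻¹' O) := by
      ext z
      constructor
      · rintro ⟨hz, hzO⟩
        exact ⟨(z, g z), ⟨⟨hz, (hDP z hz).1⟩, hzO⟩, rfl⟩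
      · rintro ⟨⟨z', u⟩, ⟨⟨hz, hu⟩, hO'⟩, rfl⟩
        refine ⟨hz, ?_⟩
        have h2 : U (g z' - u) - z' • J (g z' - u) = 0 := by
          rw [map_sub, map_sub, smul_sub]
          have h3 := (hDP z' hz).1
          have h4 : U u - z' • J u = v := hu
          calc U (g z') - U u - (z' • J (g z') - z' • J u)
              = (U (g z') - z' • J (g z')) - (U u - z' • J u) := by abel
            _ = 0 := by rw [h3, h4, sub_self]
        have h5 := (hDP z' hz).2 _ h2
        rw [sub_eq_zero.mp h5]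
        exact hO'
    rw [h1]
    refine (hZ.inter (measurable_snd hO)).image_of_continuousOn_injOn
      continuous_fst.continuousOn ?_
    rintro ⟨z, u⟩ ⟨⟨hz, hu⟩, -⟩ ⟨z', u'⟩ ⟨⟨hz', hu'⟩, -⟩ h
    have hzz : z = z' := h
    subst hzz
    have h2 : U (u - u') - z • J (u - u') = 0 := by
      rw [map_sub, map_sub, smul_sub]
      have h3 : U u - z • J u = v := hu
      have h4 : U u' - z • J u' = v := hu'
      calc U u - U u' - (z • J u - z • J u')
          = (U u - z • J u) - (U u' - z • J u') := by abel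
        _ = 0 := by rw [h3, h4, sub_self]
    have h5 := (hDP z hz).2 _ h2
    rw [sub_eq_zero.mp h5]
  classical
  have hmeas : Measurable (D.indicator g) := by
    intro O hO
    by_cases h0 : (0 : E) ∈ O
    · have : D.indicator g ⁻¹' O = {z | z ∈ D ∧ g z ∈ O} ∪ Dᶜ := by
        ext z
        by_cases hz : z ∈ D
        · simp [hz]
        · simp [hz, h0]
      rw [this]
      exact (hpre O hO).union hDm.compl
    · have : D.indicator g ⁻¹' O = {z | z ∈ D ∧ g z ∈ O} := by
        ext z
        by_cases hz : z ∈ D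
        · simp [hz]
        · simp [hz, h0]
      rw [this]
      exact hpre O hO
  refine ⟨D.indicator g, hmeas.stronglyMeasurable, ?_⟩
  have hN' : ∀ᵐ z : ℂ, z ∉ N := by
    rw [ae_iff]
    simpa using hN0
  filter_upwards [hN'] with z hz
  rw [Set.indicator_of_mem]
  exact hz

end Pool.Agent.J4.H86.RD
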