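import Pool.Agent.J4.H86.RD.Defs2

set_option autoImplicit false
open MeasureTheory Complex Filter Topology ProbabilityTheory
open scoped ENNReal
open Pool.Agent.H761R2.SV (dbar)

namespace Pool.Agent.J4.H86.RD

section fix

variable {X : Type*} [NormedAddCommGroup X] [NormedSpace ℂ X] [CompleteSpace X]
variable {ι : Type*} [DecidableEq ι]

omit [DecidableEq ι] in
theorem up_sum {s K : ℝ} (hs : 0 < s) {e : ι → X} (hU : Upper s K e) {c : ι → ℂ}
    (hc : Summable (fun x => ‖c x‖ ^ s)) :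
    Summable (fun x => c x • e x) ∧
      ‖∑' x, c x • e x‖ ≤ K * (∑' x, ‖c x‖ ^ s) ^ (1 / s) := by
  have h1s : 0 < 1 / s := by positivity
  have hS : Summable (fun x => c x • e x) := by
    rw [summable_iff_vanishing_norm]
    intro ε hε
    obtain ⟨K', hK'⟩ : ∃ K' : ℝ, K' = |K| + 1 := ⟨_, rfl⟩
    have hK0 : 0 < K' := by
      rw [hK']
      positivity
    have hKK : K ≤ K' := by
      rw [hK']
      linarith [le_abs_self K]
    have hq : 0 < ε / K' := by positivity
    obtain ⟨A, hA⟩ := summable_iff_vanishing_norm.1 hc ((ε / K') ^ s) (Real.rpow_pos_of_pos hq s)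
    refine ⟨A, fun t ht => ?_⟩
    have h0 : 0 ≤ ∑ x ∈ t, ‖c x‖ ^ s := Finset.sum_nonneg fun x _ => Real.rpow_nonneg (norm_nonneg _) _
    have h1 := hA t ht
    rw [Real.norm_of_nonneg h0] at h1
    have h2 : (∑ x ∈ t, ‖c x‖ ^ s) ^ (1 / s) < ε / K' := by
      have h3 := Real.rpow_lt_rpow h0 h1 h1s
      rwa [← Real.rpow_mul hq.le, mul_one_div_cancel hs.ne', Real.rpow_one] at h3
    have h4 : 0 ≤ (∑ x ∈ t, ‖c x‖ ^ s) ^ (1 / s) := Real.rpow_nonneg h0 _
    calc ‖∑ x ∈ t, c x • e x‖ ≤ K * (∑ x ∈ t, ‖c x‖ ^ s) ^ (1 / s) := hU t c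
      _ ≤ K' * (∑ x ∈ t, ‖c x‖ ^ s) ^ (1 / s) := mul_le_mul_of_nonneg_right hKK h4
      _ < K' * (ε / K') := mul_lt_mul_of_pos_left h2 hK0
      _ = ε := by field_simp
  refine ⟨hS, ?_⟩
  have h1 : Tendsto (fun A : Finset ι => ‖∑ x ∈ A, c x • e x‖) atTop (𝓝 ‖∑' x, c x • e x‖) :=
    hS.hasSum.norm
  have h2 : Tendsto (fun A : Finset ι => K * (∑ x ∈ A, ‖c x‖ ^ s) ^ (1 / s)) atTop
      (𝓝 (K * (∑' x, ‖c x‖ ^ s) ^ (1 / s))) :=
    (Tendsto.rpow_const hc.hasSum (Or.inr h1s.le)).const_mul K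
  exact le_of_tendsto_of_tendsto' h1 h2 fun A => hU A c

theorem pt_col' (T : X →L[ℂ] X) (e : ι → X) (f : ι → (X →L[ℂ] ℂ)) {s K : ℝ} (hs : 0 < s)
    (heU : Upper s K e) (hf : ∀ v, (∀ i, f i v = 0) → v = 0)
    (hbi : ∀ x y, f x (e y) = if x = y then 1 else 0) (B : ι → ι → ℂ) (l : ι → ℂ)
    (hT : ∀ x y, f x (T (e y)) = if x = y then l x else B x y) (z : ℂ) (y : ι) (g : ι → ℂ)
    (hg : Summable (fun x => ‖g x‖ ^ s))
    (heq : ∀ x, (l x - z) * g x + ∑' w, (if w = x then 0 else B x w * g w)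
      = if x = y then 1 else 0) :
    T (∑' x, g x • e x) - z • (∑' x, g x • e x) = e y := by
  have hs : Summable (fun x => g x • e x) := (up_sum hs heU hg).1
  rw [← sub_eq_zero]
  refine hf _ fun x => ?_
  have h1 : f x (∑' w, g w • e w) = g x := by
    rw [(f x).map_tsum hs, tsum_eq_single x]
    · rw [map_smul, hbi, if_pos rfl, smul_eq_mul, mul_one]
    · intro w hw
      rw [map_smul, hbi, if_neg (Ne.symm hw), smul_zero]
  have h2 : f x (T (∑' w, g w • e w)) = l x * g x + ∑' w, (if w = x then 0 else B x w * g w) := by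
    have e1 : f x (T (∑' w, g w • e w)) = ∑' w, g w * (if x = w then l x else B x w) := by
      have := ((f x) ∘L T).map_tsum hs
      rw [ContinuousLinearMap.comp_apply] at this
      rw [this]
      refine tsum_congr fun w => ?_
      rw [map_smul, ContinuousLinearMap.comp_apply, hT, smul_eq_mul]
    have hs2 : Summable (fun w => g w * (if x = w then l x else B x w)) := by
      have := ((f x) ∘L T).summable hs
      refine this.congr fun w => ?_
      rw [map_smul, ContinuousLinearMap.comp_apply, hT, smul_eq_mul]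
    rw [e1, hs2.tsum_eq_add_tsum_ite x, if_pos rfl]
    congr 1
    · ring
    · refine tsum_congr fun w => ?_
      by_cases hw : w = x
      · rw [if_pos hw, if_pos hw]
      · rw [if_neg hw, if_neg hw, if_neg (Ne.symm hw), mul_comm]
  rw [map_sub, map_sub, map_smul, h1, h2, hbi, smul_eq_mul]
  linear_combination heq x

theorem pt_row' (T : X →L[ℂ] X) (e : ι → X) (f : ι → (X →L[ℂ] ℂ)) {s K : ℝ} (hs : 0 < s)
    (hfU : Upper s K f) (he : Dense (Submodule.span ℂ (Set.range e) : Set X))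
    (hbi : ∀ x y, f x (e y) = if x = y then 1 else 0) (B : ι → ι → ℂ) (l : ι → ℂ)
    (hT : ∀ x y, f x (T (e y)) = if x = y then l x else B x y) (z : ℂ) (x : ι) (h : ι → ℂ)
    (hh : Summable (fun x => ‖h x‖ ^ s))
    (heq : ∀ y, (l y - z) * h y + ∑' w, (if w = y then 0 else B w y * h w)
      = if y = x then 1 else 0) (v : X) :
    (∑' y, h y • f y) (T v) - z * (∑' y, h y • f y) v = f x v := by
  have hs : Summable (fun y => h y • f y) := (up_sum hs hfU hh).1
  obtain ⟨φ, hφ⟩ : ∃ φ : X →L[ℂ] ℂ, φ = ∑' y, h y • f y := ⟨_, rfl⟩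
  rw [← hφ]
  have hs1 : HasSum (fun y => h y • f y) φ := by
    rw [hφ]
    exact hs.hasSum
  have hap0 : ∀ v, HasSum (fun y => h y * f y v) (φ v) := by
    intro v
    have h0 := (ContinuousLinearMap.apply ℂ ℂ v).hasSum hs1
    rw [ContinuousLinearMap.apply_apply] at h0
    refine h0.congr_fun ?_
    intro y
    rw [ContinuousLinearMap.apply_apply, ContinuousLinearMap.smul_apply, smul_eq_mul]
  have hap : ∀ v, φ v = ∑' y, h y * f y v := fun v => (hap0 v).tsum_eq.symm
  have hsv : ∀ v, Summable (fun y => h y * f y v) := fun v => (hap0 v).summable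
  have h1 : ∀ y, φ (e y) = h y := by
    intro y
    rw [hap, tsum_eq_single y]
    · rw [hbi, if_pos rfl, mul_one]
    · intro w hw
      rw [hbi, if_neg hw, mul_zero]
  have h2 : ∀ y, φ (T (e y)) = l y * h y + ∑' w, (if w = y then 0 else B w y * h w) := by
    intro y
    rw [hap, (hsv (T (e y))).tsum_eq_add_tsum_ite y, hT, if_pos rfl]
    congr 1
    · ring
    · refine tsum_congr fun w => ?_
      by_cases hw : w = y
      · rw [if_pos hw, if_pos hw]
      · rw [if_neg hw, if_neg hw, hT, if_neg hw, mul_comm]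
  have h3 : φ ∘L T - z • φ = f x := by
    refine ContinuousLinearMap.ext_on he ?_
    rintro _ ⟨y, rfl⟩
    rw [ContinuousLinearMap.sub_apply, ContinuousLinearMap.comp_apply, ContinuousLinearMap.smul_apply,
      h1, h2, hbi, smul_eq_mul]
    have := heq y
    by_cases hxy : y = x
    · rw [if_pos hxy] at this
      rw [if_pos hxy.symm]
      linear_combination this
    · rw [if_neg hxy] at this
      rw [if_neg (Ne.symm hxy)]
      linear_combination this
  have h4 := congrArg (fun ψ : X →L[ℂ] ℂ => ψ v) h3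
  simpa using h4

end fix

end Pool.Agent.J4.H86.RD
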