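import Pool.Agent.J4.H86.RD.Defs2
import Pool.Agent.J4.H86.RD.MEASSEL
import Pool.Agent.J4.H86.RD.PTS

/-! Project RD, piece FIX: the local resolvents of the random operator. -/

set_option autoImplicit false
open MeasureTheory Complex Filter Topology ProbabilityTheory
open scoped ENNReal
open Pool.Agent.H761R2.SV (dbar)

namespace Pool.Agent.J4.H86.RD

section fixaux

variable {ι : Type*}

/-- the norm of a combination of a family with an upper estimate -/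
theorem FX_enorm_sum_le {Y : Type*} [NormedAddCommGroup Y] [NormedSpace ℂ Y] [CompleteSpace Y]
    (v : ι → Y) {s K : ℝ} (hs : 1 ≤ s) (hv : Upper s K v) (g : ι → ℂ)
    (hg : Summable (fun x => ‖g x‖ ^ s)) :
    ‖∑' x, g x • v x‖ₑ ≤ ENNReal.ofReal K * (1 + ∑' x, ‖g x‖ₑ ^ s) := by
  have hs0 : 0 < s := lt_of_lt_of_le one_pos hs
  have h2 := (up_sum hs0 hv hg).2
  have hS : 0 ≤ ∑' x, ‖g x‖ ^ s := tsum_nonneg fun x => Real.rpow_nonneg (norm_nonneg _) _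
  have h3 : (∑' x, ‖g x‖ ^ s) ^ (1 / s) ≤ 1 + ∑' x, ‖g x‖ ^ s := by
    rcases le_total (∑' x, ‖g x‖ ^ s) 1 with h | h
    · exact (Real.rpow_le_one hS h (by positivity)).trans (by linarith)
    · refine (Real.rpow_le_rpow_of_exponent_le h (?_ : 1 / s ≤ 1)).trans ?_
      · rw [div_le_one hs0]
        exact hs
      · rw [Real.rpow_one]
        linarith
  rw [← ofReal_norm]
  refine (ENNReal.ofReal_le_ofReal h2).trans ?_
  rw [ENNReal.ofReal_mul' (Real.rpow_nonneg hS _)]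
  gcongr
  refine (ENNReal.ofReal_le_ofReal h3).trans ?_
  rw [ENNReal.ofReal_add zero_le_one hS, ENNReal.ofReal_one,
    ENNReal.ofReal_tsum_of_nonneg (fun _ => Real.rpow_nonneg (norm_nonneg _) _) hg]
  refine le_of_eq ?_
  congr 1
  refine tsum_congr fun x => ?_
  rw [← ofReal_norm, ENNReal.ofReal_rpow_of_nonneg (norm_nonneg _) hs0.le]

theorem FX_summable_of_enorm {g : ι → ℂ} {s : ℝ} (hs : 0 ≤ s) {L : ℝ≥0∞}
    (h : ∑' x, ‖g x‖ₑ ^ s ≤ L) (hL : L ≠ ⊤) : Summable (fun x => ‖g x‖ ^ s) := by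
  have h0 : ∀ x, ‖g x‖ₑ ^ s = ((‖g x‖₊ ^ s : NNReal) : ℝ≥0∞) := by
    intro x
    rw [ENNReal.coe_rpow_of_nonneg _ hs]
    rfl
  have h1 : ∑' x, ((‖g x‖₊ ^ s : NNReal) : ℝ≥0∞) ≠ ⊤ := by
    intro h2
    have h3 : ∑' x, ‖g x‖ₑ ^ s = ⊤ := by
      rw [← h2]
      exact tsum_congr h0
    rw [h3] at h
    exact hL (top_le_iff.1 h)
  have h2 := ENNReal.tsum_coe_ne_top_iff_summable.1 h1
  have h3 : Summable (fun x => ((‖g x‖₊ ^ s : NNReal) : ℝ)) := NNReal.summable_coe.2 h2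
  simpa using h3

/-- a function with finite integrals on balls is finite almost everywhere -/
theorem FX_ae_ne_top {L : ℂ → ℝ≥0∞} (hLm : Measurable L)
    (hL : ∀ R : ℝ, ∫⁻ z in Metric.closedBall (0 : ℂ) R, L z ≠ ⊤) : ∀ᵐ z : ℂ, L z ≠ ⊤ := by
  have h1 : ∀ n : ℕ, ∀ᵐ z : ℂ, z ∈ Metric.closedBall (0 : ℂ) n → L z < ⊤ := by
    intro n
    rw [← ae_restrict_iff' Metric.isClosed_closedBall.measurableSet]
    exact ae_lt_top hLm (hL n)
  filter_upwards [ae_all_iff.2 h1] with z hz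
  obtain ⟨n, hn⟩ := exists_nat_ge ‖z‖
  exact (hz n (by simpa using hn)).ne

/-- selection of the solutions -/
theorem FX_sel {Y : Type*} [NormedAddCommGroup Y] [NormedSpace ℂ Y] [CompleteSpace Y]
    (v : ι → Y) {s K : ℝ} (hs : 1 ≤ s)
    (hv : Upper s K v) (Q : ℂ → (ι → ℂ) → Prop) {L : ℂ → ℝ≥0∞} (hLm : Measurable L)
    (hL : ∀ R : ℝ, ∫⁻ z in Metric.closedBall (0 : ℂ) R, L z ≠ ⊤)
    (h : ∀ᵐ z : ℂ, ∃ g : ι → ℂ, ∑' x, ‖g x‖ₑ ^ s ≤ L z ∧ Q z g) :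
    ∃ F : ℂ → Y, (∀ z, ‖F z‖ₑ ≤ ENNReal.ofReal K * (1 + L z)) ∧
      ∀ᵐ z : ℂ, ∃ g : ι → ℂ, Summable (fun x => ‖g x‖ ^ s) ∧ Q z g ∧
        F z = ∑' x, g x • v x := by
  classical
  have hs0 : 0 ≤ s := zero_le_one.trans hs
  refine ⟨fun z => if h : ∃ g : ι → ℂ, ∑' x, ‖g x‖ₑ ^ s ≤ L z ∧ L z ≠ ⊤ ∧ Q z g then
    ∑' x, h.choose x • v x else 0, ?_, ?_⟩
  · intro z
    dsimp only
    split_ifs with h1
    · obtain ⟨h2, h3, -⟩ := h1.choose_spec
      exact (FX_enorm_sum_le v hs hv _ (FX_summable_of_enorm hs0 h2 h3)).trans (by gcongr)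
    · simp
  · filter_upwards [h, FX_ae_ne_top hLm hL] with z h1 h2
    obtain ⟨g, hg1, hg2⟩ := h1
    have h3 : ∃ g : ι → ℂ, ∑' x, ‖g x‖ₑ ^ s ≤ L z ∧ L z ≠ ⊤ ∧ Q z g := ⟨g, hg1, h2, hg2⟩
    obtain ⟨h4, h5, h6⟩ := h3.choose_spec
    refine ⟨h3.choose, FX_summable_of_enorm hs0 h4 h5, h6, ?_⟩
    rw [dif_pos h3]

theorem FX_locint {Y : Type*} [NormedAddCommGroup Y] {F : ℂ → Y}
    (hm : AEStronglyMeasurable F (volume : Measure ℂ)) (K : ℝ) {L : ℂ → ℝ≥0∞}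
    (hLm : Measurable L) (hL : ∀ R : ℝ, ∫⁻ z in Metric.closedBall (0 : ℂ) R, L z ≠ ⊤)
    (hb : ∀ z, ‖F z‖ₑ ≤ ENNReal.ofReal K * (1 + L z)) :
    LocallyIntegrable F volume := by
  rw [locallyIntegrable_iff]
  intro k hk
  obtain ⟨R, hR⟩ := hk.isBounded.subset_closedBall (0 : ℂ)
  refine IntegrableOn.mono_set ?_ hR
  refine ⟨hm.restrict, ?_⟩
  rw [hasFiniteIntegral_iff_enorm]
  refine lt_of_le_of_lt (lintegral_mono fun z => hb z) ?_
  have hm1 : Measurable (fun z => 1 + L z) := measurable_const.add hLm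
  rw [lintegral_const_mul _ hm1, lintegral_add_left measurable_const]
  refine ENNReal.mul_lt_top ENNReal.ofReal_lt_top (ENNReal.add_lt_top.2 ⟨?_, ?_⟩)
  · rw [lintegral_const, one_mul, Measure.restrict_apply_univ]
    exact measure_closedBall_lt_top
  · exact lt_top_iff_ne_top.2 (hL R)

theorem FX_second_countable_of_dense {Y : Type*} [NormedAddCommGroup Y] [NormedSpace ℂ Y]
    [Countable ι] (v : ι → Y) (h : Dense (Submodule.span ℂ (Set.range v) : Set Y)) :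
    SecondCountableTopology Y := by
  have h1 : TopologicalSpace.IsSeparable (Submodule.span ℂ (Set.range v) : Set Y) :=
    (Set.countable_range v).isSeparable.span
  have h2 := h1.closure
  rw [h.closure_eq, TopologicalSpace.isSeparable_univ_iff] at h2
  exact UniformSpace.secondCountable_of_separable Y

theorem FX_upper_sub {Y : Type*} [NormedAddCommGroup Y] [NormedSpace ℂ Y] (E : Submodule ℂ Y)
    (v : ι → Y) (hvE : ∀ i, v i ∈ E) {s K : ℝ} (hv : Upper s K v) :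
    Upper s K (fun y => (⟨v y, hvE y⟩ : E)) := by
  intro A c
  have h1 : ‖∑ x ∈ A, c x • (⟨v x, hvE x⟩ : E)‖ = ‖∑ x ∈ A, c x • v x‖ := by
    have h2 : ((∑ x ∈ A, c x • (⟨v x, hvE x⟩ : E) : E) : Y) = ∑ x ∈ A, c x • v x := by
      rw [Submodule.coe_sum]
      rfl
    rw [← h2]
    rfl
  rw [h1]
  exact hv A c

theorem FX_coe_tsum_smul {Y : Type*} [NormedAddCommGroup Y] [NormedSpace ℂ Y] (E : Submodule ℂ Y)
    [CompleteSpace E] (v : ι → Y) (hvE : ∀ i, v i ∈ E) {s K : ℝ} (hs : 0 < s) (hv : Upper s K v)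
    (g : ι → ℂ) (hg : Summable (fun x => ‖g x‖ ^ s)) :
    ((∑' y, g y • (⟨v y, hvE y⟩ : E) : E) : Y) = ∑' y, g y • v y := by
  have hs := (up_sum hs (FX_upper_sub E v hvE hv) hg).1
  have h := ContinuousLinearMap.map_tsum E.subtypeL hs
  simpa using h

theorem FX_dualmeas {X : Type*} [NormedAddCommGroup X] [NormedSpace ℂ X] (E : Submodule ℂ (X →L[ℂ] ℂ))
    [CompleteSpace E] [SecondCountableTopology E] (T : X →L[ℂ] X) (F : ℂ → E) (f0 : X →L[ℂ] ℂ)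
    (hF : ∀ᵐ z : ℂ, ∀ v, (F z : X →L[ℂ] ℂ) (T v) - z * (F z : X →L[ℂ] ℂ) v = f0 v)
    (hinj : ∀ᵐ z : ℂ, ∀ u : X →L[ℂ] ℂ, (∀ v, u (T v) - z * u v = 0) → u = 0) :
    AEStronglyMeasurable (fun z => (F z : X →L[ℂ] ℂ)) (volume : Measure ℂ) := by
  obtain ⟨U, hU⟩ : ∃ U : E →L[ℂ] (X →L[ℂ] ℂ), ∀ u v, U u v = (u : X →L[ℂ] ℂ) (T v) :=
    ⟨((ContinuousLinearMap.compL ℂ X X ℂ).flip T).comp E.subtypeL, fun u v => rfl⟩
  have hm : AEStronglyMeasurable F (volume : Measure ℂ) := by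
    refine meassel (E := E) (E' := X →L[ℂ] ℂ) U E.subtypeL f0 F ?_ ?_
    · filter_upwards [hF] with z hz
      refine ContinuousLinearMap.ext fun v => ?_
      rw [sub_apply, hU, smul_apply, smul_eq_mul,
        Submodule.subtypeL_apply]
      exact hz v
    · filter_upwards [hinj] with z hz u hu
      refine Subtype.ext (hz _ fun v => ?_)
      have h1 := congrArg (fun A : X →L[ℂ] ℂ => A v) hu
      simp only [sub_apply, hU, smul_apply, smul_eq_mul,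
        Submodule.subtypeL_apply, zero_apply] at h1
      exact h1
  exact E.subtypeL.continuous.comp_aestronglyMeasurable hm

end fixaux

section fix
variable {X : Type*} [NormedAddCommGroup X] [NormedSpace ℂ X] [CompleteSpace X]
variable {ι : Type*} [DecidableEq ι]

theorem fix_loc' [Countable ι] (T : X →L[ℂ] X) (e : ι → X) (f : ι → (X →L[ℂ] ℂ)) {s K : ℝ}
    (hs : 1 ≤ s) (heU : Upper s K e) (hfU : Upper s K f)
    (he : Dense (Submodule.span ℂ (Set.range e) : Set X)) (hf : ∀ v, (∀ i, f i v = 0) → v = 0)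
    (hbi : ∀ x y, f x (e y) = if x = y then 1 else 0) (B : ι → ι → ℂ) (l : ι → ℂ)
    (hT : ∀ x y, f x (T (e y)) = if x = y then l x else B x y)
    (hcol : ∀ y, ∃ L : ℂ → ℝ≥0∞, Measurable L ∧
      (∀ R : ℝ, ∫⁻ z in Metric.closedBall (0 : ℂ) R, L z ≠ ⊤) ∧
      ∀ᵐ z : ℂ, ∃ g : ι → ℂ, ∑' x, ‖g x‖ₑ ^ s ≤ L z ∧
        ∀ x, (l x - z) * g x + ∑' w, (if w = x then 0 else B x w * g w)
          = if x = y then 1 else 0)
    (hrow : ∀ x, ∃ L : ℂ → ℝ≥0∞, Measurable L ∧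
      (∀ R : ℝ, ∫⁻ z in Metric.closedBall (0 : ℂ) R, L z ≠ ⊤) ∧
      ∀ᵐ z : ℂ, ∃ h : ι → ℂ, ∑' x, ‖h x‖ₑ ^ s ≤ L z ∧
        ∀ y, (l y - z) * h y + ∑' w, (if w = y then 0 else B w y * h w)
          = if y = x then 1 else 0) :
    (∀ i, ∃ g, LocRes T (e i) g) ∧ (∀ i, ∃ h, LocResDual T (f i) h) := by
  have hs0 : 0 < s := lt_of_lt_of_le one_pos hs
  -- the column solutions
  have hc : ∀ y, ∃ (L : ℂ → ℝ≥0∞) (F : ℂ → X), Measurable L ∧
      (∀ R : ℝ, ∫⁻ z in Metric.closedBall (0 : ℂ) R, L z ≠ ⊤) ∧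
      (∀ z, ‖F z‖ₑ ≤ ENNReal.ofReal K * (1 + L z)) ∧ ∀ᵐ z : ℂ, T (F z) - z • F z = e y := by
    intro y
    obtain ⟨L, hLm, hL, h1⟩ := hcol y
    obtain ⟨F, hF1, hF2⟩ := FX_sel e hs heU _ hLm hL h1
    refine ⟨L, F, hLm, hL, hF1, ?_⟩
    filter_upwards [hF2] with z hz
    obtain ⟨g, hg1, hg2, hg3⟩ := hz
    rw [hg3]
    exact pt_col' T e f hs0 heU hf hbi B l hT z y g hg1 hg2
  -- the closed span of the functionals
  obtain ⟨E, hfE, hEc, hEs⟩ : ∃ E : Submodule ℂ (X →L[ℂ] ℂ), (∀ y, f y ∈ E) ∧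
      CompleteSpace E ∧ SecondCountableTopology E := by
    refine ⟨(Submodule.span ℂ (Set.range f)).topologicalClosure, fun y =>
      Submodule.le_topologicalClosure _ (Submodule.subset_span (Set.mem_range_self y)),
      (Submodule.isClosed_topologicalClosure _).completeSpace_coe, ?_⟩
    have h1 : TopologicalSpace.IsSeparable (Submodule.span ℂ (Set.range f) : Set (X →L[ℂ] ℂ)) :=
      (Set.countable_range f).isSeparable.span
    have h2 : TopologicalSpace.IsSeparable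
      ((Submodule.span ℂ (Set.range f)).topologicalClosure : Set (X →L[ℂ] ℂ)) := h1.closure
    have := h2.separableSpace
    exact UniformSpace.secondCountable_of_separable _
  -- the row solutions
  have hr : ∀ x, ∃ (L : ℂ → ℝ≥0∞) (F : ℂ → E), Measurable L ∧
      (∀ R : ℝ, ∫⁻ z in Metric.closedBall (0 : ℂ) R, L z ≠ ⊤) ∧
      (∀ z, ‖F z‖ₑ ≤ ENNReal.ofReal K * (1 + L z)) ∧
      ∀ᵐ z : ℂ, ∀ v, (F z : X →L[ℂ] ℂ) (T v) - z * (F z : X →L[ℂ] ℂ) v = f x v := by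
    intro x
    obtain ⟨L, hLm, hL, h1⟩ := hrow x
    obtain ⟨F, hF1, hF2⟩ := FX_sel _ hs (FX_upper_sub E f hfE hfU) _ hLm hL h1
    refine ⟨L, F, hLm, hL, hF1, ?_⟩
    filter_upwards [hF2] with z hz
    obtain ⟨g, hg1, hg2, hg3⟩ := hz
    intro v
    have h2 : (F z : X →L[ℂ] ℂ) = ∑' y, g y • f y := by
      rw [hg3]
      exact FX_coe_tsum_smul E f hfE hs0 hfU g hg1
    rw [h2]
    exact pt_row' T e f hs0 hfU he hbi B l hT z x g hg1 hg2 v
  choose Lc Fc hc1 hc2 hc3 hc4 using hc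
  choose Lr Fr hr1 hr2 hr3 hr4 using hr
  have hXs : SecondCountableTopology X := FX_second_countable_of_dense e he
  -- injectivity
  have hinj : ∀ᵐ z : ℂ, ∀ u : X, T u - z • (ContinuousLinearMap.id ℂ X) u = 0 → u = 0 := by
    filter_upwards [ae_all_iff.2 hr4] with z hz u hu
    apply hf
    intro x
    rw [← hz x u]
    have h1 : T u = z • u := sub_eq_zero.1 hu
    rw [h1, map_smul, smul_eq_mul, sub_self]
  have hinj' : ∀ᵐ z : ℂ, ∀ u : X →L[ℂ] ℂ, (∀ v, u (T v) - z * u v = 0) → u = 0 := by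
    filter_upwards [ae_all_iff.2 hc4] with z hz u hu
    have h2 : ∀ y, u (e y) = 0 := by
      intro y
      rw [← hz y, map_sub, map_smul, smul_eq_mul]
      exact hu _
    refine ContinuousLinearMap.ext_on he ?_
    rintro _ ⟨y, rfl⟩
    rw [h2 y]
    rfl
  refine ⟨?_, ?_⟩
  · intro i
    refine ⟨Fc i, ⟨?_, hc4 i⟩⟩
    have hm : AEStronglyMeasurable (Fc i) (volume : Measure ℂ) :=
      meassel T (ContinuousLinearMap.id ℂ X) (e i) (Fc i) (hc4 i) hinj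
    exact FX_locint hm K (hc1 i) (hc2 i) (hc3 i)
  · intro i
    refine ⟨fun z => (Fr i z : X →L[ℂ] ℂ), ⟨?_, hr4 i⟩⟩
    have hm' := FX_dualmeas E T (Fr i) (f i) (hr4 i) hinj'
    exact FX_locint hm' K (hr1 i) (hr2 i) (hr3 i)

end fix

end Pool.Agent.J4.H86.RD
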