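import Mathlib
set_option autoImplicit false
namespace Pool.Agent.J4.H86.RD
open Filter Topology

theorem hb_sum_rpow {ι : Type*} (A : Finset ι) (a : ι → ℝ) (ha : ∀ i, 0 ≤ a i) {p : ℝ} (hp : 1 ≤ p) :
    ∑ x ∈ A, a x ^ p ≤ (∑ x ∈ A, a x) ^ p := by
  classical
  induction A using Finset.induction_on with
  | empty => simp [Real.zero_rpow (by linarith : p ≠ 0)]
  | insert i A hi ih =>
    rw [Finset.sum_insert hi, Finset.sum_insert hi]
    refine le_trans (add_le_add le_rfl ih) ?_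
    exact Real.add_rpow_le_rpow_add (ha i) (Finset.sum_nonneg fun x _ => ha x) hp

theorem hb_norm {H : Type*} [NormedAddCommGroup H] [InnerProductSpace ℂ H]
    {ι : Type*} (b : ι → H) (hb : Orthonormal ℂ b) {s : ℝ} (hs : 0 < s) (hs2 : s ≤ 2)
    (A : Finset ι) (c : ι → ℂ) :
    ‖∑ x ∈ A, c x • b x‖ ≤ (∑ x ∈ A, ‖c x‖ ^ s) ^ (1 / s) := by
  have h1 : ‖∑ x ∈ A, c x • b x‖ ^ 2 = ∑ x ∈ A, ‖c x‖ ^ 2 := by
    have h2 := hb.inner_sum c c A
    have h3 : (inner ℂ (∑ x ∈ A, c x • b x) (∑ x ∈ A, c x • b x) : ℂ)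
        = ((‖∑ x ∈ A, c x • b x‖ ^ 2 : ℝ) : ℂ) := by
      rw [inner_self_eq_norm_sq_to_K]
      norm_cast
    rw [h3] at h2
    have h4 : ∑ i ∈ A, (starRingEnd ℂ) (c i) * c i = ((∑ x ∈ A, ‖c x‖ ^ 2 : ℝ) : ℂ) := by
      push_cast
      exact Finset.sum_congr rfl fun i _ => Complex.conj_mul' (c i)
    rw [h4] at h2
    exact_mod_cast h2
  have h5 : ∑ x ∈ A, ‖c x‖ ^ 2 ≤ (∑ x ∈ A, ‖c x‖ ^ s) ^ (2 / s) := by
    have h6 := hb_sum_rpow A (fun x => ‖c x‖ ^ s) (fun x => by positivity) (p := 2 / s)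
      (by rw [le_div_iff₀ hs]; linarith)
    refine le_trans (le_of_eq ?_) h6
    refine Finset.sum_congr rfl fun x _ => ?_
    rw [← Real.rpow_mul (norm_nonneg _)]
    have : s * (2 / s) = 2 := by field_simp
    rw [this]
    norm_cast
  have hT : 0 ≤ ∑ x ∈ A, ‖c x‖ ^ s := Finset.sum_nonneg fun x _ => by positivity
  have h7 : ‖∑ x ∈ A, c x • b x‖ ^ 2 ≤ ((∑ x ∈ A, ‖c x‖ ^ s) ^ (1 / s)) ^ 2 := by
    rw [h1]
    refine le_trans h5 (le_of_eq ?_)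
    rw [← Real.rpow_natCast, ← Real.rpow_mul hT]
    congr 1
    push_cast
    ring
  exact (pow_le_pow_iff_left₀ (norm_nonneg _) (by positivity) (by norm_num)).1 h7

theorem hb {H : Type*} [NormedAddCommGroup H] [InnerProductSpace ℂ H] [CompleteSpace H]
    {ι : Type*} [DecidableEq ι] (b : HilbertBasis ι ℂ H) {s : ℝ} (hs : 0 < s) (hs2 : s ≤ 2) :
    (∀ x y, innerSL ℂ (b x) (b y) = if x = y then 1 else 0) ∧
    Dense (Submodule.span ℂ (Set.range (fun i => b i)) : Set H) ∧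
    (∀ v : H, (∀ i, innerSL ℂ (b i) v = 0) → v = 0) ∧
    ∀ (A : Finset ι) (c : ι → ℂ),
      ‖∑ x ∈ A, c x • b x‖ ≤ 1 * (∑ x ∈ A, ‖c x‖ ^ s) ^ (1 / s) ∧
      ‖∑ x ∈ A, c x • (innerSL ℂ (b x) : H →L[ℂ] ℂ)‖ ≤ 1 * (∑ x ∈ A, ‖c x‖ ^ s) ^ (1 / s) := by
  refine ⟨fun x y => ?_, ?_, fun v hv => ?_, fun A c => ⟨?_, ?_⟩⟩
  · rw [innerSL_apply_apply]
    exact (orthonormal_iff_ite.1 b.orthonormal) x y
  · have h := b.dense_span
    rw [Submodule.dense_iff_topologicalClosure_eq_top]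
    exact h
  · have h1 : b.repr v = 0 := by
      ext i
      rw [b.repr_apply_apply]
      simpa using hv i
    simpa using h1
  · rw [one_mul]
    exact hb_norm _ b.orthonormal hs hs2 A c
  · rw [one_mul]
    have h1 : ∑ x ∈ A, c x • (innerSL ℂ (b x) : H →L[ℂ] ℂ)
        = innerSL ℂ (∑ x ∈ A, (starRingEnd ℂ (c x)) • b x) := by
      rw [map_sum]
      refine Finset.sum_congr rfl fun x _ => ?_
      rw [map_smulₛₗ]
      simp
    rw [h1, innerSL_apply_norm]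
    have h2 := hb_norm _ b.orthonormal hs hs2 A (fun x => starRingEnd ℂ (c x))
    simpa using h2

end Pool.Agent.J4.H86.RD
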