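import Pool.Agent.J4.H86.RD.Defs2

/-!
# LAW: moments and decoupling for laws with a bounded density in the plane
-/

set_option autoImplicit false
open MeasureTheory Complex Filter Topology ProbabilityTheory
open scoped ENNReal

namespace Pool.Agent.J4.H86.RD

namespace Law

theorem lint_one {s r : ℝ} (hs : 0 < s) (hs2 : s < 2) (hr : 0 < r) :
    ∫⁻ t in Set.Ioi (0 : ℝ), ENNReal.ofReal (t ^ (1 - s) - t * r ^ (-s)) =
      ENNReal.ofReal (r ^ (2 - s) * (s / (2 * (2 - s)))) := by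
  have hset : Set.Ioi (0 : ℝ) = Set.Ioc 0 r ∪ Set.Ioi r := (Set.Ioc_union_Ioi_eq_Ioi hr.le).symm
  have key : ∀ t : ℝ, 0 < t → t ^ (1 - s) - t * r ^ (-s) = t * (t ^ (-s) - r ^ (-s)) := by
    intro t ht
    rw [mul_sub, sub_eq_add_neg 1 s, Real.rpow_add ht, Real.rpow_one]
  have hz : ∫⁻ t in Set.Ioi r, ENNReal.ofReal (t ^ (1 - s) - t * r ^ (-s)) = 0 := by
    have h0 : ∀ t ∈ Set.Ioi r, ENNReal.ofReal (t ^ (1 - s) - t * r ^ (-s)) =
        (fun _ : ℝ => (0 : ℝ≥0∞)) t := by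
      intro t ht
      have ht' : r < t := ht
      have ht0 : 0 < t := hr.trans ht'
      refine ENNReal.ofReal_eq_zero.mpr ?_
      rw [key t ht0]
      have h1 : t ^ (-s) ≤ r ^ (-s) :=
        Real.rpow_le_rpow_of_nonpos hr ht'.le (by linarith)
      nlinarith
    rw [setLIntegral_congr_fun measurableSet_Ioi h0, lintegral_zero]
  have i1 : IntervalIntegrable (fun t : ℝ => t ^ (1 - s)) volume 0 r :=
    intervalIntegral.intervalIntegrable_rpow' (by linarith)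
  have i2 : IntervalIntegrable (fun t : ℝ => t * r ^ (-s)) volume 0 r :=
    (continuous_id.mul continuous_const).intervalIntegrable _ _
  rw [hset, lintegral_union measurableSet_Ioi (Set.Ioc_disjoint_Ioi le_rfl), hz, add_zero,
    ← ofReal_integral_eq_lintegral_ofReal]
  · rw [← intervalIntegral.integral_of_le hr.le, intervalIntegral.integral_sub i1 i2]
    congr 1
    rw [integral_rpow (Or.inl (by linarith)), intervalIntegral.integral_mul_const, integral_id,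
      Real.zero_rpow (by linarith)]
    have e1 : 1 - s + 1 = 2 - s := by ring
    have e2 : r ^ (2 - s) = r ^ 2 * r ^ (-s) := by
      rw [sub_eq_add_neg, Real.rpow_add hr, Real.rpow_two]
    rw [e1, e2]
    have h2 : (2 - s) ≠ 0 := by linarith
    field_simp
    ring
  · exact (i1.sub i2).1
  · refine (ae_restrict_iff' measurableSet_Ioc).mpr (Eventually.of_forall fun t ht => ?_)
    change 0 ≤ t ^ (1 - s) - t * r ^ (-s)
    rw [key t ht.1]
    have h1 : r ^ (-s) ≤ t ^ (-s) :=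
      Real.rpow_le_rpow_of_nonpos ht.1 ht.2 (by linarith)
    exact mul_nonneg ht.1.le (by linarith)

theorem lint_polar {s r : ℝ} (hs : 0 < s) (hs2 : s < 2) (hr : 0 < r) :
    ∫⁻ u : ℂ, ENNReal.ofReal (‖u‖ ^ (-s) - r ^ (-s)) =
      ENNReal.ofReal (Real.pi * r ^ (2 - s) * (s / (2 - s))) := by
  rw [← Complex.lintegral_comp_polarCoord_symm]
  have h1 : ∀ p ∈ polarCoord.target, ENNReal.ofReal p.1 •
      ENNReal.ofReal (‖Complex.polarCoord.symm p‖ ^ (-s) - r ^ (-s)) =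
        ENNReal.ofReal (p.1 ^ (1 - s) - p.1 * r ^ (-s)) := by
    intro p hp
    have hp1 : 0 < p.1 := hp.1
    rw [Complex.norm_polarCoord_symm, abs_of_pos hp1, smul_eq_mul, ← ENNReal.ofReal_mul hp1.le]
    congr 1
    rw [mul_sub, sub_eq_add_neg 1 s, Real.rpow_add hp1, Real.rpow_one]
  rw [setLIntegral_congr_fun (by measurability) h1]
  have h2 : polarCoord.target = Set.Ioi (0 : ℝ) ×ˢ Set.Ioo (-Real.pi) Real.pi := rfl
  have hm : Measurable fun t : ℝ => ENNReal.ofReal (t ^ (1 - s) - t * r ^ (-s)) := by fun_prop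
  rw [h2, Measure.volume_eq_prod, ← Measure.prod_restrict,
    lintegral_prod (fun x : ℝ × ℝ => ENNReal.ofReal (x.1 ^ (1 - s) - x.1 * r ^ (-s)))
      (hm.comp measurable_fst).aemeasurable]
  simp only [lintegral_const, Measure.restrict_apply MeasurableSet.univ, Set.univ_inter,
    Real.volume_Ioo]
  rw [lintegral_mul_const _ hm, lint_one hs hs2 hr, ← ENNReal.ofReal_mul (by
    have : 0 < 2 - s := by linarith
    positivity)]
  congr 1
  have h2 : (2 - s) ≠ 0 := by linarith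
  field_simp
  ring

/-- the moment bound -/
theorem moment (μ : Measure ℂ) [IsProbabilityMeasure μ] (ρ : ℝ) (hρ : 0 < ρ)
    (h : μ ≤ ENNReal.ofReal ρ • (volume : Measure ℂ)) {s : ℝ} (hs : 0 < s) (hs2 : s < 2) (b : ℂ) :
    ∫⁻ u, ‖u - b‖ₑ ^ (-s) ∂μ ≤ ENNReal.ofReal (2 / (2 - s) * (Real.pi * ρ) ^ (s / 2)) := by
  have hpr : 0 < Real.pi * ρ := mul_pos Real.pi_pos hρ
  have h2s : 0 < 2 - s := by linarith
  set r : ℝ := (Real.pi * ρ) ^ (-(1 / 2) : ℝ) with hr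
  have hr0 : 0 < r := Real.rpow_pos_of_pos hpr _
  set t : ℝ := r ^ (-s) with ht
  have ht0 : 0 < t := Real.rpow_pos_of_pos hr0 _
  have ht1 : t = (Real.pi * ρ) ^ (s / 2) := by
    rw [ht, hr, ← Real.rpow_mul hpr.le]
    congr 1
    ring
  have hr2 : Real.pi * ρ * r ^ (2 - s) = t := by
    rw [sub_eq_add_neg, Real.rpow_add hr0, ← ht, Real.rpow_two, hr, ← Real.rpow_natCast,
      ← Real.rpow_mul hpr.le]
    norm_num
    rw [Real.rpow_neg_one]
    field_simp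
  have hb : ∀ᵐ u ∂μ, u ≠ b := by
    have h1 : ∀ᵐ u ∂(ENNReal.ofReal ρ • (volume : Measure ℂ)), u ≠ b := by
      refine Measure.ae_smul_measure ?_ _
      rw [ae_iff]
      simp
    exact (Measure.absolutelyContinuous_of_le h).ae_le h1
  have h2 : ∀ᵐ u ∂μ, ‖u - b‖ₑ ^ (-s) ≤
      ENNReal.ofReal t + ENNReal.ofReal (‖u - b‖ ^ (-s) - t) := by
    filter_upwards [hb] with u hu
    have h3 : 0 < ‖u - b‖ := norm_pos_iff.mpr (sub_ne_zero.mpr hu)
    have h4 : ‖u - b‖ₑ ^ (-s) = ENNReal.ofReal (‖u - b‖ ^ (-s)) := by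
      rw [← ofReal_norm, ENNReal.ofReal_rpow_of_pos h3]
    rw [h4]
    calc ENNReal.ofReal (‖u - b‖ ^ (-s)) = ENNReal.ofReal (t + (‖u - b‖ ^ (-s) - t)) := by
          congr 1; ring
      _ ≤ _ := ENNReal.ofReal_add_le
  calc ∫⁻ u, ‖u - b‖ₑ ^ (-s) ∂μ
      ≤ ∫⁻ u, (ENNReal.ofReal t + ENNReal.ofReal (‖u - b‖ ^ (-s) - t)) ∂μ := lintegral_mono_ae h2
    _ = ENNReal.ofReal t + ∫⁻ u, ENNReal.ofReal (‖u - b‖ ^ (-s) - t) ∂μ := by
        rw [lintegral_add_left measurable_const, lintegral_const, measure_univ, mul_one]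
    _ ≤ ENNReal.ofReal t + ∫⁻ u, ENNReal.ofReal (‖u - b‖ ^ (-s) - t)
          ∂(ENNReal.ofReal ρ • (volume : Measure ℂ)) := by
        gcongr
    _ = ENNReal.ofReal t + ENNReal.ofReal ρ * ∫⁻ u : ℂ, ENNReal.ofReal (‖u - b‖ ^ (-s) - t) := by
        rw [lintegral_smul_measure, smul_eq_mul]
    _ = ENNReal.ofReal t + ENNReal.ofReal ρ *
          ENNReal.ofReal (Real.pi * r ^ (2 - s) * (s / (2 - s))) := by
        rw [lintegral_sub_right_eq_self (μ := (volume : Measure ℂ))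
          (fun u => ENNReal.ofReal (‖u‖ ^ (-s) - t)) b, ht, lint_polar hs hs2 hr0]
    _ = ENNReal.ofReal (2 / (2 - s) * (Real.pi * ρ) ^ (s / 2)) := by
        rw [← ENNReal.ofReal_mul hρ.le, ← ENNReal.ofReal_add ht0.le (by positivity), ← ht1]
        congr 1
        have e : ρ * (Real.pi * r ^ (2 - s) * (s / (2 - s))) = t * (s / (2 - s)) := by
          rw [← hr2]
          ring
        rw [e]
        field_simp
        ring


theorem ball_le {μ : Measure ℂ} {ρ : ℝ} (h : μ ≤ ENNReal.ofReal ρ • (volume : Measure ℂ)) (hρ : 0 < ρ) (z : ℂ)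
    {t : ℝ} (ht : 0 ≤ t) : μ (Metric.ball z t) ≤ ENNReal.ofReal (Real.pi * ρ * t ^ 2) := by
  refine (h _).trans ?_
  rw [Measure.smul_apply, smul_eq_mul, Complex.volume_ball]
  have e : (NNReal.pi : ℝ≥0∞) = ENNReal.ofReal Real.pi := by
    rw [← NNReal.coe_real_pi, ENNReal.ofReal_coe_nnreal]
  rw [e, ← ENNReal.ofReal_pow ht, ← ENNReal.ofReal_mul (by positivity),
    ← ENNReal.ofReal_mul hρ.le]
  apply ENNReal.ofReal_le_ofReal
  nlinarith

theorem compl_ge {μ : Measure ℂ} [IsProbabilityMeasure μ] {ρ : ℝ} (h : μ ≤ ENNReal.ofReal ρ • (volume : Measure ℂ)) (hρ : 0 < ρ) (z : ℂ)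
    {t : ℝ} (ht : 0 ≤ t) (h4 : Real.pi * ρ * t ^ 2 ≤ 1 / 4) :
    ENNReal.ofReal (3 / 4) ≤ μ (Metric.ball z t)ᶜ := by
  have h1 := ball_le h hρ z ht
  have h2 : μ (Metric.ball z t) + μ (Metric.ball z t)ᶜ = 1 := by
    rw [measure_add_measure_compl Metric.isOpen_ball.measurableSet, measure_univ]
  have h3 : μ (Metric.ball z t) ≤ ENNReal.ofReal (1 / 4) :=
    h1.trans (ENNReal.ofReal_le_ofReal h4)
  have h5 : ENNReal.ofReal (1 / 4) + ENNReal.ofReal (3 / 4) = 1 := by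
    rw [← ENNReal.ofReal_add (by norm_num) (by norm_num)]
    norm_num
  have h6 : ENNReal.ofReal (1 / 4) + ENNReal.ofReal (3 / 4) ≤
      ENNReal.ofReal (1 / 4) + μ (Metric.ball z t)ᶜ := by
    rw [h5, ← h2]
    gcongr
  exact (ENNReal.add_le_add_iff_left ENNReal.ofReal_ne_top).mp h6

theorem ae_ne {μ : Measure ℂ} {ρ : ℝ} (h : μ ≤ ENNReal.ofReal ρ • (volume : Measure ℂ)) (b : ℂ) : ∀ᵐ u ∂μ, u ≠ b := by
  have h1 : ∀ᵐ u ∂(ENNReal.ofReal ρ • (volume : Measure ℂ)), u ≠ b := by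
    refine Measure.ae_smul_measure ?_ _
    rw [ae_iff]
    simp
  exact (Measure.absolutelyContinuous_of_le h).ae_le h1

theorem neg_eq {u b : ℂ} {s : ℝ} (hu : u ≠ b) :
    ‖u - b‖ₑ ^ (-s) = ENNReal.ofReal (‖u - b‖ ^ (-s)) := by
  have h3 : 0 < ‖u - b‖ := norm_pos_iff.mpr (sub_ne_zero.mpr hu)
  rw [← ofReal_norm, ENNReal.ofReal_rpow_of_pos h3]

theorem ratio_eq {u z b : ℂ} {s : ℝ} (hs : 0 < s) (hu : u ≠ b) :
    ‖u - z‖ₑ ^ s * ‖u - b‖ₑ ^ (-s) = ENNReal.ofReal ((‖u - z‖ / ‖u - b‖) ^ s) := by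
  rw [neg_eq hu, ← ofReal_norm, ENNReal.ofReal_rpow_of_nonneg (norm_nonneg _) hs.le,
    ← ENNReal.ofReal_mul (by positivity), Real.div_rpow (norm_nonneg _) (norm_nonneg _),
    Real.rpow_neg (norm_nonneg _), div_eq_mul_inv]

/-- the decoupling inequality -/
theorem decouple (μ : Measure ℂ) [IsProbabilityMeasure μ] (ρ : ℝ) (hρ : 0 < ρ)
    (h : μ ≤ ENNReal.ofReal ρ • (volume : Measure ℂ)) {s : ℝ} (hs : 0 < s) (hs2 : s < 2)
    (z b : ℂ) :
    ∫⁻ u, ‖u - b‖ₑ ^ (-s) ∂μ ≤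
      ENNReal.ofReal (4 / (2 - s) * 12 ^ s * (Real.pi * ρ) ^ (s / 2)) *
        ∫⁻ u, ‖u - z‖ₑ ^ s * ‖u - b‖ₑ ^ (-s) ∂μ := by
  have hpr : 0 < Real.pi * ρ := mul_pos Real.pi_pos hρ
  have h2s : 0 < 2 - s := by linarith
  set r : ℝ := (Real.pi * ρ) ^ (-(1 / 2) : ℝ) with hr
  have hr0 : 0 < r := Real.rpow_pos_of_pos hpr _
  have hrs : r ^ (-s) = (Real.pi * ρ) ^ (s / 2) := by
    rw [hr, ← Real.rpow_mul hpr.le]
    congr 1
    ring
  have hr2 : Real.pi * ρ * r ^ 2 = 1 := by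
    rw [hr, ← Real.rpow_natCast, ← Real.rpow_mul hpr.le]
    norm_num
    rw [Real.rpow_neg_one]
    field_simp
  set D : ℝ := ‖z - b‖ with hD
  set L : ℝ≥0∞ := ∫⁻ u, ‖u - z‖ₑ ^ s * ‖u - b‖ₑ ^ (-s) ∂μ with hL
  have hmeas : Measurable fun u : ℂ => ‖u - z‖ₑ ^ s * ‖u - b‖ₑ ^ (-s) := by fun_prop
  -- lower bounds of `L`
  have low : ∀ (t c : ℝ), 0 ≤ t → Real.pi * ρ * t ^ 2 ≤ 1 / 4 → 0 ≤ c →
      (∀ u : ℂ, u ≠ b → t ≤ ‖u - z‖ → c ≤ ‖u - z‖ / ‖u - b‖) →
      ENNReal.ofReal (3 / 4 * c ^ s) ≤ L := by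
    intro t c ht h4 hc hu
    have h1 : ∫⁻ _ in (Metric.ball z t)ᶜ, ENNReal.ofReal (c ^ s) ∂μ ≤
        ∫⁻ u in (Metric.ball z t)ᶜ, ‖u - z‖ₑ ^ s * ‖u - b‖ₑ ^ (-s) ∂μ := by
      refine lintegral_mono_ae ?_
      filter_upwards [ae_restrict_mem Metric.isOpen_ball.measurableSet.compl,
        ae_restrict_of_ae (ae_ne h b)] with u h5 h6
      rw [ratio_eq hs h6]
      refine ENNReal.ofReal_le_ofReal (Real.rpow_le_rpow hc (hu u h6 ?_) hs.le)
      rw [Set.mem_compl_iff, Metric.mem_ball, not_lt, dist_eq_norm] at h5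
      exact h5
    rw [lintegral_const, Measure.restrict_apply MeasurableSet.univ, Set.univ_inter] at h1
    refine le_trans ?_ (h1.trans (setLIntegral_le_lintegral _ _))
    rw [mul_comm (3 / 4 : ℝ), ENNReal.ofReal_mul (by positivity)]
    gcongr
    exact compl_ge h hρ z ht h4
  rcases le_or_gt D (r / 4) with hDr | hDr
  · -- `b` is close to `z`
    have h1 : ENNReal.ofReal (3 / 4 * (2 / 3) ^ s) ≤ L := by
      refine low (2 * D) (2 / 3) (by positivity) ?_ (by norm_num) ?_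
      · have h5 : (2 * D) ^ 2 ≤ (r / 2) ^ 2 := by
          have : 2 * D ≤ r / 2 := by linarith
          exact pow_le_pow_left₀ (by positivity) this 2
        calc Real.pi * ρ * (2 * D) ^ 2 ≤ Real.pi * ρ * (r / 2) ^ 2 := by gcongr
          _ = (Real.pi * ρ * r ^ 2) / 4 := by ring
          _ = 1 / 4 := by rw [hr2]
      · intro u hu h5
        have h6 : 0 < ‖u - b‖ := norm_pos_iff.mpr (sub_ne_zero.mpr hu)
        rw [le_div_iff₀ h6]
        have h7 : ‖u - b‖ ≤ ‖u - z‖ + D := by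
          have : u - b = (u - z) + (z - b) := by ring
          rw [this]
          exact norm_add_le _ _
        linarith
    have h2 := moment μ ρ hρ h hs hs2 b
    refine h2.trans ?_
    calc ENNReal.ofReal (2 / (2 - s) * (Real.pi * ρ) ^ (s / 2))
        ≤ ENNReal.ofReal (4 / (2 - s) * 12 ^ s * (Real.pi * ρ) ^ (s / 2) *
          (3 / 4 * (2 / 3) ^ s)) := by
          apply ENNReal.ofReal_le_ofReal
          have e : 4 / (2 - s) * 12 ^ s * (Real.pi * ρ) ^ (s / 2) * (3 / 4 * (2 / 3) ^ s) =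
              (2 / (2 - s) * (Real.pi * ρ) ^ (s / 2)) * (3 / 2 * 8 ^ s) := by
            have : (8 : ℝ) ^ s = 12 ^ s * (2 / 3) ^ s := by
              rw [← Real.mul_rpow (by norm_num) (by norm_num)]
              norm_num
            rw [this]
            ring
          rw [e]
          have h8 : (1 : ℝ) ≤ 8 ^ s := Real.one_le_rpow (by norm_num) hs.le
          have h9 : 0 ≤ 2 / (2 - s) * (Real.pi * ρ) ^ (s / 2) := by positivity
          nlinarith
      _ = ENNReal.ofReal (4 / (2 - s) * 12 ^ s * (Real.pi * ρ) ^ (s / 2)) *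
          ENNReal.ofReal (3 / 4 * (2 / 3) ^ s) := by
          rw [ENNReal.ofReal_mul (by positivity)]
      _ ≤ _ := by gcongr
  · -- `b` is far from `z`
    have hD0 : 0 < D := by linarith [hr0]
    have h1 : ENNReal.ofReal (3 / 4 * (r / (6 * D)) ^ s) ≤ L := by
      refine low (r / 2) (r / (6 * D)) (by positivity) ?_ (by positivity) ?_
      · calc Real.pi * ρ * (r / 2) ^ 2 = (Real.pi * ρ * r ^ 2) / 4 := by ring
          _ ≤ 1 / 4 := by rw [hr2]
      · intro u hu h5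
        have h6 : 0 < ‖u - b‖ := norm_pos_iff.mpr (sub_ne_zero.mpr hu)
        have h7 : ‖u - b‖ ≤ ‖u - z‖ + D := by
          have : u - b = (u - z) + (z - b) := by ring
          rw [this]
          exact norm_add_le _ _
        rw [div_le_div_iff₀ (by positivity) h6]
        nlinarith
    have hsplit : ∫⁻ u, ‖u - b‖ₑ ^ (-s) ∂μ = ∫⁻ u in Metric.ball z (r / 8), ‖u - b‖ₑ ^ (-s) ∂μ +
        ∫⁻ u in (Metric.ball z (r / 8))ᶜ, ‖u - b‖ₑ ^ (-s) ∂μ :=
      (lintegral_add_compl _ Metric.isOpen_ball.measurableSet).symm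
    have h2 : ∫⁻ u in Metric.ball z (r / 8), ‖u - b‖ₑ ^ (-s) ∂μ ≤
        ENNReal.ofReal ((2 / D) ^ s / 64) := by
      have h3 : ∫⁻ u in Metric.ball z (r / 8), ‖u - b‖ₑ ^ (-s) ∂μ ≤
          ∫⁻ _ in Metric.ball z (r / 8), ENNReal.ofReal ((2 / D) ^ s) ∂μ := by
        refine lintegral_mono_ae ?_
        filter_upwards [ae_restrict_mem Metric.isOpen_ball.measurableSet,
          ae_restrict_of_ae (ae_ne h b)] with u h5 h6
        rw [neg_eq h6]
        apply ENNReal.ofReal_le_ofReal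
        rw [Metric.mem_ball, dist_eq_norm] at h5
        have h7 : D ≤ ‖u - b‖ + ‖u - z‖ := by
          have : z - b = (u - b) - (u - z) := by ring
          rw [hD, this]
          exact norm_sub_le _ _
        have h8 : D / 2 ≤ ‖u - b‖ := by linarith
        have h9 : (2 / D) ^ s = (D / 2) ^ (-s) := by
          rw [Real.rpow_neg (by positivity), ← Real.inv_rpow (by positivity), inv_div]
        rw [h9]
        exact Real.rpow_le_rpow_of_nonpos (by positivity) h8 (by linarith)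
      refine h3.trans ?_
      rw [lintegral_const, Measure.restrict_apply MeasurableSet.univ, Set.univ_inter,
        div_eq_mul_inv ((2 / D) ^ s), ENNReal.ofReal_mul (by positivity)]
      gcongr
      refine (ball_le h hρ z (by positivity)).trans (ENNReal.ofReal_le_ofReal ?_)
      have : Real.pi * ρ * (r / 8) ^ 2 = (Real.pi * ρ * r ^ 2) / 64 := by ring
      rw [this, hr2]
      norm_num
    have h3 : ∫⁻ u in (Metric.ball z (r / 8))ᶜ, ‖u - b‖ₑ ^ (-s) ∂μ ≤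
        ENNReal.ofReal ((8 / r) ^ s) * L := by
      rw [hL, ← lintegral_const_mul _ hmeas]
      refine le_trans ?_ (setLIntegral_le_lintegral (Metric.ball z (r / 8))ᶜ _)
      refine lintegral_mono_ae ?_
      filter_upwards [ae_restrict_mem Metric.isOpen_ball.measurableSet.compl,
        ae_restrict_of_ae (ae_ne h b)] with u h5 h6
      rw [ratio_eq hs h6, neg_eq h6, ← ENNReal.ofReal_mul (by positivity)]
      apply ENNReal.ofReal_le_ofReal
      rw [Set.mem_compl_iff, Metric.mem_ball, not_lt, dist_eq_norm] at h5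
      have h7 : 0 < ‖u - b‖ := norm_pos_iff.mpr (sub_ne_zero.mpr h6)
      rw [← Real.mul_rpow (by positivity) (by positivity), Real.rpow_neg h7.le,
        ← Real.inv_rpow h7.le]
      refine Real.rpow_le_rpow (by positivity) ?_ hs.le
      have h8 : 1 ≤ 8 / r * ‖u - z‖ := by
        rw [div_mul_eq_mul_div, one_le_div hr0]
        linarith
      calc ‖u - b‖⁻¹ = 1 * ‖u - b‖⁻¹ := by ring
        _ ≤ (8 / r * ‖u - z‖) * ‖u - b‖⁻¹ := by gcongr
        _ = 8 / r * (‖u - z‖ / ‖u - b‖) := by ring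
    have h4 : ENNReal.ofReal ((2 / D) ^ s / 64) ≤ ENNReal.ofReal ((12 / r) ^ s / 48) * L := by
      calc ENNReal.ofReal ((2 / D) ^ s / 64)
          = ENNReal.ofReal ((12 / r) ^ s / 48) * ENNReal.ofReal (3 / 4 * (r / (6 * D)) ^ s) := by
            rw [← ENNReal.ofReal_mul (by positivity)]
            congr 1
            have : (2 / D) ^ s = (12 / r) ^ s * (r / (6 * D)) ^ s := by
              rw [← Real.mul_rpow (by positivity) (by positivity)]
              congr 1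
              field_simp
              ring
            rw [this]
            ring
        _ ≤ _ := by gcongr
    rw [hsplit]
    calc _ ≤ ENNReal.ofReal ((12 / r) ^ s / 48) * L + ENNReal.ofReal ((8 / r) ^ s) * L :=
          add_le_add (h2.trans h4) h3
      _ = ENNReal.ofReal ((12 / r) ^ s / 48 + (8 / r) ^ s) * L := by
          rw [← add_mul, ← ENNReal.ofReal_add (by positivity) (by positivity)]
      _ ≤ _ := by
          gcongr
          have e1 : (12 / r) ^ s = 12 ^ s * (Real.pi * ρ) ^ (s / 2) := by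
            rw [Real.div_rpow (by norm_num) hr0.le, ← hrs, Real.rpow_neg hr0.le,
              div_eq_mul_inv]
          have e2 : (8 / r) ^ s ≤ (12 / r) ^ s :=
            Real.rpow_le_rpow (by positivity) (by gcongr; norm_num) hs.le
          have e3 : 0 < (12 / r) ^ s := by positivity
          have e4 : 2 ≤ 4 / (2 - s) := by
            rw [le_div_iff₀ h2s]
            linarith
          rw [mul_assoc, ← e1]
          nlinarith

end Law

theorem inv_rpow_eq (x : ℝ≥0∞) (s : ℝ) : x⁻¹ ^ s = x ^ (-s) := by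
  rw [ENNReal.inv_rpow, ENNReal.rpow_neg]

/-- the moments and the decoupling inequality, for all laws with density at most `ρ` -/
theorem law' (s : ℝ) (hs : 0 < s) (hs2 : s < 2) (ρ : ℝ) (hρ : 0 < ρ) :
    ∃ C k : ℝ≥0∞, C ≠ ⊤ ∧ k ≠ ⊤ ∧ 0 < k ∧ ∀ (μ : Measure ℂ) [IsProbabilityMeasure μ],
      μ ≤ ENNReal.ofReal ρ • (volume : Measure ℂ) →
      (∀ b : ℂ, ∫⁻ u, ‖u - b‖ₑ⁻¹ ^ s ∂μ ≤ C) ∧
      ∀ z b : ℂ, k * ∫⁻ u, ‖u - b‖ₑ⁻¹ ^ s ∂μ ≤ ∫⁻ u, ‖u - z‖ₑ ^ s * ‖u - b‖ₑ⁻¹ ^ s ∂μ := by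
  have h2s : 0 < 2 - s := by linarith
  have hpr : 0 < Real.pi * ρ := mul_pos Real.pi_pos hρ
  have hK : 0 < 4 / (2 - s) * 12 ^ s * (Real.pi * ρ) ^ (s / 2) := by positivity
  refine ⟨ENNReal.ofReal (2 / (2 - s) * (Real.pi * ρ) ^ (s / 2)),
    (ENNReal.ofReal (4 / (2 - s) * 12 ^ s * (Real.pi * ρ) ^ (s / 2)))⁻¹, ENNReal.ofReal_ne_top,
    ENNReal.inv_ne_top.mpr (ENNReal.ofReal_pos.mpr hK).ne',
    ENNReal.inv_pos.mpr ENNReal.ofReal_ne_top, fun μ _ h => ⟨fun b => ?_, fun z b => ?_⟩⟩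
  · simp only [inv_rpow_eq]
    exact Law.moment μ ρ hρ h hs hs2 b
  · simp only [inv_rpow_eq]
    have h1 := Law.decouple μ ρ hρ h hs hs2 z b
    rw [mul_comm, ← div_eq_mul_inv]
    exact ENNReal.div_le_of_le_mul' h1

theorem law (s : ℝ) (hs : 0 < s) (hs2 : s < 2) (ρ R : ℝ) (hρ : 0 < ρ) (hR : 0 < R) :
    ∃ C k : ℝ≥0∞, C ≠ ⊤ ∧ k ≠ ⊤ ∧ 0 < k ∧ ∀ (μ : Measure ℂ) [IsProbabilityMeasure μ] (d : ℂ),
      μ ≤ ENNReal.ofReal ρ • (volume : Measure ℂ) → μ (Metric.closedBall d R)ᶜ = 0 →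
      (∀ b : ℂ, ∫⁻ u, ‖u - b‖ₑ⁻¹ ^ s ∂μ ≤ C) ∧
      ∀ z b : ℂ, k * ∫⁻ u, ‖u - b‖ₑ⁻¹ ^ s ∂μ ≤ ∫⁻ u, ‖u - z‖ₑ ^ s * ‖u - b‖ₑ⁻¹ ^ s ∂μ := by
  obtain ⟨C, k, h1, h2, h3, h4⟩ := law' s hs hs2 ρ hρ
  exact ⟨C, k, h1, h2, h3, fun μ _ _ h _ => h4 μ h⟩

end Pool.Agent.J4.H86.RD
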