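import Mathlib

/-! Project RD, piece LP (second copy): the canonical system of `ℓ^p`. -/

set_option autoImplicit false

namespace Pool.Agent.J4.H86.RD

open Filter Topology

namespace Two

theorem LP_sum_rpow_le {ι : Type*} (A : Finset ι) (a : ι → ℝ) (ha : ∀ i, 0 ≤ a i) {s t : ℝ} (hs : 0 < s)
    (hst : s ≤ t) : ∑ x ∈ A, a x ^ t ≤ (∑ x ∈ A, a x ^ s) ^ (t / s) := by
  have hS0 : 0 ≤ ∑ x ∈ A, a x ^ s := Finset.sum_nonneg fun x _ => Real.rpow_nonneg (ha x) _
  have ht : 0 < t := lt_of_lt_of_le hs hst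
  have hle : ∀ x ∈ A, a x ^ t ≤ a x ^ s * (∑ x ∈ A, a x ^ s) ^ (t / s - 1) := by
    intro x hx
    have h1 : a x ^ s ≤ ∑ x ∈ A, a x ^ s :=
      Finset.single_le_sum (f := fun x => a x ^ s) (fun i _ => Real.rpow_nonneg (ha i) _) hx
    have h2 : 0 ≤ t / s - 1 := by
      rw [sub_nonneg, one_le_div hs]
      exact hst
    rcases (ha x).eq_or_lt with h0 | h0
    · rw [← h0, Real.zero_rpow ht.ne', Real.zero_rpow hs.ne', zero_mul]
    · have h3 : a x ^ t = a x ^ s * (a x ^ s) ^ (t / s - 1) := by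
        rw [← Real.rpow_mul (ha x), ← Real.rpow_add h0]
        congr 1
        field_simp
        ring
      rw [h3]
      exact mul_le_mul_of_nonneg_left (Real.rpow_le_rpow (Real.rpow_nonneg (ha x) _) h1 h2)
        (Real.rpow_nonneg (ha x) _)
  refine (Finset.sum_le_sum hle).trans ?_
  rw [← Finset.sum_mul]
  rcases hS0.eq_or_lt with h0 | h0
  · rw [← h0, zero_mul, Real.zero_rpow]
    positivity
  · refine le_of_eq ?_
    have h4 : (∑ x ∈ A, a x ^ s) * (∑ x ∈ A, a x ^ s) ^ (t / s - 1) =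
        (∑ x ∈ A, a x ^ s) ^ (1 + (t / s - 1)) := by
      rw [Real.rpow_add h0, Real.rpow_one]
    rw [h4]
    congr 1
    ring

theorem LP_norm_le {ι : Type*} (A : Finset ι) (a : ι → ℝ) (ha : ∀ i, 0 ≤ a i) {s t : ℝ} (hs : 0 < s)
    (hst : s ≤ t) : (∑ x ∈ A, a x ^ t) ^ (1 / t) ≤ (∑ x ∈ A, a x ^ s) ^ (1 / s) := by
  have ht : 0 < t := lt_of_lt_of_le hs hst
  have hT0 : 0 ≤ ∑ x ∈ A, a x ^ t := Finset.sum_nonneg fun x _ => Real.rpow_nonneg (ha x) _
  have hS0 : 0 ≤ ∑ x ∈ A, a x ^ s := Finset.sum_nonneg fun x _ => Real.rpow_nonneg (ha x) _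
  have h1 := Real.rpow_le_rpow hT0 (LP_sum_rpow_le A a ha hs hst) (by positivity : 0 ≤ 1 / t)
  refine h1.trans (le_of_eq ?_)
  rw [← Real.rpow_mul hS0]
  congr 1
  field_simp

theorem lp_system {ι : Type*} [DecidableEq ι] {s q : ℝ} (hsq : s.HolderConjugate q) (p : ENNReal)
    [Fact (1 ≤ p)] (hp : p ≠ ⊤) (hs : s ≤ p.toReal) (hq : p.toReal ≤ q) :
    ∃ f : ι → (lp (fun _ : ι => ℂ) p →L[ℂ] ℂ), (∀ i v, f i v = v i) ∧
      (∀ x y, f x (lp.single p y (1 : ℂ)) = if x = y then 1 else 0) ∧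
      Dense (Submodule.span ℂ (Set.range (fun i : ι => lp.single p i (1 : ℂ))) :
        Set (lp (fun _ : ι => ℂ) p)) ∧
      (∀ v, (∀ i, f i v = 0) → v = 0) ∧
      ∀ (A : Finset ι) (c : ι → ℂ),
        ‖∑ x ∈ A, c x • (lp.single p x (1 : ℂ) : lp (fun _ : ι => ℂ) p)‖
          ≤ 1 * (∑ x ∈ A, ‖c x‖ ^ s) ^ (1 / s) ∧
        ‖∑ x ∈ A, c x • f x‖ ≤ 1 * (∑ x ∈ A, ‖c x‖ ^ s) ^ (1 / s) := by
  have hs1 : 1 < s := hsq.lt
  have hs0 : 0 < s := by linarith
  have hP1 : 1 < p.toReal := lt_of_lt_of_le hs1 hs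
  have hP0 : 0 < p.toReal := by linarith
  have hsm : ∀ (c : ℂ) (x : ι), c • (lp.single p x (1 : ℂ) : lp (fun _ : ι => ℂ) p) =
      lp.single p x c := by
    intro c x
    ext j
    simp [lp.single_apply, Pi.single_apply]
  refine ⟨fun i => lp.evalCLM ℂ (fun _ : ι => ℂ) p i, fun i v => rfl, ?_, ?_, ?_, ?_⟩
  · intro x y
    show (lp.single p y (1 : ℂ) : lp (fun _ : ι => ℂ) p) x = _
    rw [lp.single_apply, Pi.single_apply]
  · intro v
    have h1 := lp.hasSum_single hp v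
    refine mem_closure_of_tendsto h1 (Eventually.of_forall fun A => ?_)
    refine Submodule.sum_mem _ fun i _ => ?_
    rw [← hsm]
    exact Submodule.smul_mem _ _ (Submodule.subset_span (Set.mem_range_self i))
  · intro v hv
    ext i
    exact hv i
  · intro A c
    refine ⟨?_, ?_⟩
    · rw [one_mul, Finset.sum_congr rfl (fun x _ => hsm (c x) x)]
      have h1 := lp.norm_sum_single hP0 (fun x => c x) A
      have h2 : ‖∑ x ∈ A, (lp.single p x (c x) : lp (fun _ : ι => ℂ) p)‖ =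
          (∑ x ∈ A, ‖c x‖ ^ p.toReal) ^ (1 / p.toReal) := by
        rw [← h1, ← Real.rpow_mul (norm_nonneg _), mul_one_div, div_self hP0.ne', Real.rpow_one]
      rw [h2]
      exact LP_norm_le A _ (fun i => norm_nonneg _) hs0 hs
    · rw [one_mul]
      have hpc : p.toReal.HolderConjugate (p.toReal / (p.toReal - 1)) :=
        Real.HolderConjugate.conjExponent hP1
      obtain ⟨P', hP'⟩ : ∃ P' : ℝ, P' = p.toReal / (p.toReal - 1) := ⟨_, rfl⟩
      rw [← hP'] at hpc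
      have hsP : s ≤ P' := by
        have h1 : P'⁻¹ = 1 - p.toReal⁻¹ := by
          have := hpc.inv_add_inv_eq_one
          linarith
        have h2 : s⁻¹ = 1 - q⁻¹ := by
          have := hsq.inv_add_inv_eq_one
          linarith
        have h3 : q⁻¹ ≤ p.toReal⁻¹ := inv_anti₀ hP0 hq
        have h4 : P'⁻¹ ≤ s⁻¹ := by rw [h1, h2]; linarith
        have h5 : 0 < P' := hpc.symm.pos
        exact (inv_le_inv₀ h5 hs0).1 h4
      refine le_trans ?_ (LP_norm_le A (fun x => ‖c x‖) (fun i => norm_nonneg _) hs0 hsP)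
      refine ContinuousLinearMap.opNorm_le_bound _
        (Real.rpow_nonneg (Finset.sum_nonneg fun x _ => Real.rpow_nonneg (norm_nonneg _) _) _) ?_
      intro v
      have h1 : (∑ x ∈ A, c x • lp.evalCLM ℂ (fun _ : ι => ℂ) p x) v = ∑ x ∈ A, c x * v x := by
        rw [sum_apply]
        rfl
      rw [h1]
      have h2 : ‖∑ x ∈ A, c x * v x‖ ≤ ∑ x ∈ A, ‖c x‖ * ‖v x‖ := by
        refine (norm_sum_le _ _).trans (le_of_eq ?_)
        exact Finset.sum_congr rfl fun x _ => norm_mul _ _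
      refine h2.trans ?_
      refine (Real.inner_le_Lp_mul_Lq A (fun x => ‖c x‖) (fun x => ‖v x‖) hpc.symm).trans ?_
      simp only [abs_norm]
      refine mul_le_mul_of_nonneg_left ?_
        (Real.rpow_nonneg (Finset.sum_nonneg fun x _ => Real.rpow_nonneg (norm_nonneg _) _) _)
      have h3 := lp.sum_rpow_le_norm_rpow hP0 v A
      have h4 := Real.rpow_le_rpow (Finset.sum_nonneg fun x _ => Real.rpow_nonneg (norm_nonneg _) _)
        h3 (by positivity : 0 ≤ 1 / p.toReal)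
      rwa [← Real.rpow_mul (norm_nonneg _), mul_one_div, div_self hP0.ne', Real.rpow_one] at h4

end Two

end Pool.Agent.J4.H86.RD
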