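import Pool.Agent.J4.H86.RD.Defs

/-! ORTH: orthogonality of `S x_φ` and `y_ψ` for disjoint supports. -/

set_option autoImplicit false
open MeasureTheory Complex Filter Topology ProbabilityTheory
open scoped ENNReal
open Pool.Agent.H761R2.SV (dbar)

namespace Pool.Agent.J4.H86.RD

namespace Orth

theorem dbar_zero {φ : ℂ → ℂ} {z : ℂ} (hz : z ∉ tsupport φ) : dbar φ z = 0 := by
  have h1 : fderiv ℝ φ z = 0 := by
    by_contra h
    exact hz (support_fderiv_subset ℝ h)
  simp [dbar, h1]

theorem continuous_dbar' {φ : ℂ → ℂ} (hφ : Tst φ) : Continuous (dbar φ) :=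
  Pool.Agent.H761R2.SV.continuous_dbar hφ.1

theorem hasCompactSupport_dbar {φ : ℂ → ℂ} (hφ : Tst φ) : HasCompactSupport (dbar φ) := by
  refine HasCompactSupport.intro hφ.2 (fun z hz => dbar_zero hz)

theorem integrable_dbar_smul {Y : Type*} [NormedAddCommGroup Y] [NormedSpace ℂ Y] {φ : ℂ → ℂ}
    (hφ : Tst φ) {g : ℂ → Y} (hg : LocallyIntegrable g volume) :
    Integrable (fun z => dbar φ z • g z) :=
  hg.integrable_smul_left_of_hasCompactSupport (continuous_dbar' hφ) (hasCompactSupport_dbar hφ)

theorem integrable_dbar {φ : ℂ → ℂ} (hφ : Tst φ) : Integrable (dbar φ) :=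
  (continuous_dbar' hφ).integrable_of_hasCompactSupport (hasCompactSupport_dbar hφ)

/-- the Cauchy kernel, cut off -/
noncomputable def kern (K L : Set ℂ) (p : ℂ × ℂ) : ℂ :=
  (L ×ˢ K).indicator (fun q => (q.2 - q.1)⁻¹) p

theorem measurable_ker {K L : Set ℂ} (hK : IsClosed K) (hL : IsClosed L) :
    Measurable (kern K L) := by
  unfold kern
  refine Measurable.indicator ?_ (hL.measurableSet.prod hK.measurableSet)
  fun_prop

theorem bound_ker {K L : Set ℂ} (hK : IsCompact K) (hL : IsClosed L) (hd : Disjoint K L) :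
    ∃ C : ℝ, ∀ p, ‖kern K L p‖ ≤ C := by
  obtain ⟨δ, hδ, h⟩ := hd.exists_thickenings hK hL
  refine ⟨δ⁻¹, fun p => ?_⟩
  unfold kern
  by_cases hp : p ∈ L ×ˢ K
  · rw [Set.indicator_of_mem hp, norm_inv]
    obtain ⟨h1, h2⟩ := hp
    refine inv_anti₀ hδ ?_
    by_contra hlt
    push Not at hlt
    have h3 : p.1 ∈ Metric.thickening δ K := by
      rw [Metric.mem_thickening_iff]
      refine ⟨p.2, h2, ?_⟩
      rw [dist_comm, dist_eq_norm]
      exact hlt
    have h4 : p.1 ∈ Metric.thickening δ L := Metric.self_subset_thickening hδ L h1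
    exact Set.disjoint_left.1 h h3 h4
  · rw [Set.indicator_of_notMem hp, norm_zero]
    positivity

theorem integrable_ker {K L : Set ℂ} (hK : IsCompact K) (hL : IsClosed L) (hd : Disjoint K L)
    {a b : ℂ → ℂ} (ha : Integrable a) (hb : Integrable b) :
    Integrable (fun p : ℂ × ℂ => kern K L p * (a p.1 * b p.2)) (volume.prod volume) := by
  obtain ⟨C, hC⟩ := bound_ker hK hL hd
  have h1 : Integrable (fun p : ℂ × ℂ => a p.1 * b p.2) (volume.prod volume) := ha.mul_prod hb
  exact h1.bdd_mul (measurable_ker hK.isClosed hL).aestronglyMeasurable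
    (Eventually.of_forall hC)

end Orth

open Orth

variable {X : Type*} [NormedAddCommGroup X] [NormedSpace ℂ X]

theorem orth [CompleteSpace X] {T S : X →L[ℂ] X} (hST : S ∘L T = T ∘L S) {e : X} {g : ℂ → X}
    (hg : LocRes T e g) {f : X →L[ℂ] ℂ} {h : ℂ → (X →L[ℂ] ℂ)} (hh : LocResDual T f h)
    {φ ψ : ℂ → ℂ} (hφ : Tst φ) (hψ : Tst ψ) (hd : Disjoint (tsupport φ) (tsupport ψ)) :
    (∫ z, dbar ψ z • h z) (S (∫ w, dbar φ w • g w)) = 0 := by
  set K := tsupport φ with hK
  set L := tsupport ψ with hL
  have hKc : IsCompact K := hφ.2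
  have hLc : IsCompact L := hψ.2
  set α : ℂ → ℂ := fun w => dbar φ w * f (S (g w)) with hα
  set β : ℂ → ℂ := fun z => dbar ψ z * h z (S e) with hβ
  have hgi : Integrable (fun w => dbar φ w • g w) := integrable_dbar_smul hφ hg.loc
  have hhi : Integrable (fun z => dbar ψ z • h z) := integrable_dbar_smul hψ hh.loc
  have hαi : Integrable α := by
    have := (f.comp S).integrable_comp hgi
    refine this.congr (Eventually.of_forall fun w => ?_)
    simp [hα]
  have hβi : Integrable β := by
    have := (ContinuousLinearMap.apply ℂ ℂ (S e)).integrable_comp hhi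
    refine this.congr (Eventually.of_forall fun z => ?_)
    simp [hβ]
  have hai := integrable_dbar hψ
  have hbi := integrable_dbar hφ
  -- step 1
  have h1 : (∫ z, dbar ψ z • h z) (S (∫ w, dbar φ w • g w)) =
      ∫ z, ∫ w, dbar ψ z * (dbar φ w * h z (S (g w))) := by
    have e1 : (∫ z, dbar ψ z • h z) (S (∫ w, dbar φ w • g w)) =
        ∫ z, (dbar ψ z • h z) (S (∫ w, dbar φ w • g w)) :=
      ((ContinuousLinearMap.apply ℂ ℂ (S (∫ w, dbar φ w • g w))).integral_comp_comm hhi).symm
    rw [e1]
    refine integral_congr_ae (Eventually.of_forall fun z => ?_)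
    have e2 : ((h z).comp S) (∫ w, dbar φ w • g w) =
        ∫ w, ((h z).comp S) (dbar φ w • g w) :=
      (((h z).comp S).integral_comp_comm hgi).symm
    have e3 : h z (S (∫ w, dbar φ w • g w)) = ∫ w, dbar φ w * h z (S (g w)) := by
      have e4 : h z (S (∫ w, dbar φ w • g w)) = ((h z).comp S) (∫ w, dbar φ w • g w) := rfl
      rw [e4, e2]
      refine integral_congr_ae (Eventually.of_forall fun w => ?_)
      simp
    simp only [_root_.smul_apply, smul_eq_mul]
    rw [e3, ← integral_const_mul]
  -- step 2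
  have h2 : ∫ z, ∫ w, dbar ψ z * (dbar φ w * h z (S (g w))) =
      ∫ z, ∫ w, (kern K L (z, w) * (dbar ψ z * α w) - kern K L (z, w) * (β z * dbar φ w)) := by
    refine integral_congr_ae ?_
    filter_upwards [hh.eq] with z hz
    refine integral_congr_ae ?_
    filter_upwards [hg.eq] with w hw
    by_cases hzL : z ∈ L
    · by_cases hwK : w ∈ K
      · have hne : w - z ≠ 0 := by
          intro h0
          have : w = z := sub_eq_zero.1 h0
          subst this
          exact Set.disjoint_left.1 hd hwK hzL
        have hk : kern K L (z, w) = (w - z)⁻¹ := by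
          unfold kern
          rw [Set.indicator_of_mem (Set.mk_mem_prod hzL hwK)]
        have hST' : T (S (g w)) = S (T (g w)) := by
          have := congrArg (fun A : X →L[ℂ] X => A (g w)) hST
          simpa using this.symm
        have h3 : T (g w) = e + w • g w := by
          rw [← hw]; abel
        have h4 := hz (S (g w))
        rw [hST', h3] at h4
        simp only [map_add, map_smul, smul_eq_mul] at h4
        have h5 : (w - z) * h z (S (g w)) = f (S (g w)) - h z (S e) := by
          linear_combination h4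
        have h6 : h z (S (g w)) = (w - z)⁻¹ * (f (S (g w)) - h z (S e)) := by
          rw [← h5, inv_mul_cancel_left₀ hne]
        rw [hk, h6]
        simp only [hα, hβ]
        ring
      · have h0 : dbar φ w = 0 := dbar_zero hwK
        simp [hα, h0]
    · have h0 : dbar ψ z = 0 := dbar_zero hzL
      simp [hβ, h0]
  have hI1 := integrable_ker (K := K) (L := L) hKc hLc.isClosed hd hai hαi
  have hI2 := integrable_ker (K := K) (L := L) hKc hLc.isClosed hd hβi hbi
  -- step 3
  have h3 : ∫ z, ∫ w, (kern K L (z, w) * (dbar ψ z * α w) - kern K L (z, w) * (β z * dbar φ w)) =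
      (∫ p : ℂ × ℂ, kern K L p * (dbar ψ p.1 * α p.2) ∂(volume.prod volume)) -
      ∫ p : ℂ × ℂ, kern K L p * (β p.1 * dbar φ p.2) ∂(volume.prod volume) := by
    rw [← integral_sub hI1 hI2]
    exact (integral_prod (fun p : ℂ × ℂ => kern K L p * (dbar ψ p.1 * α p.2) -
      kern K L p * (β p.1 * dbar φ p.2)) (hI1.sub hI2)).symm
  have h4 : ∫ p : ℂ × ℂ, kern K L p * (dbar ψ p.1 * α p.2) ∂(volume.prod volume) = 0 := by
    rw [integral_prod_symm _ hI1]
    have : ∀ w, ∫ z, kern K L (z, w) * (dbar ψ z * α w) = 0 := by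
      intro w
      by_cases hwK : w ∈ K
      · have e1 : ∀ z, kern K L (z, w) * (dbar ψ z * α w) = α w * (dbar ψ z * (w - z)⁻¹) := by
          intro z
          by_cases hzL : z ∈ L
          · have hk : kern K L (z, w) = (w - z)⁻¹ := by
              unfold kern
              rw [Set.indicator_of_mem (Set.mk_mem_prod hzL hwK)]
            rw [hk]; ring
          · have h0 : dbar ψ z = 0 := dbar_zero hzL
            simp [h0]
        simp_rw [e1]
        rw [integral_const_mul, Pool.Agent.H761R2.SV.pompeiu_compact hψ.1 hψ.2 w,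
          image_eq_zero_of_notMem_tsupport (fun hwL => Set.disjoint_left.1 hd hwK hwL)]
        simp
      · have h0 : dbar φ w = 0 := dbar_zero hwK
        simp [hα, h0]
    simp [this]
  have h5 : ∫ p : ℂ × ℂ, kern K L p * (β p.1 * dbar φ p.2) ∂(volume.prod volume) = 0 := by
    rw [integral_prod _ hI2]
    have : ∀ z, ∫ w, kern K L (z, w) * (β z * dbar φ w) = 0 := by
      intro z
      by_cases hzL : z ∈ L
      · have e1 : ∀ w, kern K L (z, w) * (β z * dbar φ w) = (-β z) * (dbar φ w * (z - w)⁻¹) := by
          intro w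
          by_cases hwK : w ∈ K
          · have hk : kern K L (z, w) = (w - z)⁻¹ := by
              unfold kern
              rw [Set.indicator_of_mem (Set.mk_mem_prod hzL hwK)]
            rw [hk, ← neg_sub z w, inv_neg]; ring
          · have h0 : dbar φ w = 0 := dbar_zero hwK
            simp [h0]
        simp_rw [e1]
        rw [integral_const_mul, Pool.Agent.H761R2.SV.pompeiu_compact hφ.1 hφ.2 z,
          image_eq_zero_of_notMem_tsupport (fun hzK => Set.disjoint_left.1 hd hzK hzL)]
        simp
      · have h0 : dbar ψ z = 0 := dbar_zero hzL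
        simp [hβ, h0]
    simp [this]
  rw [h1, h2, h3, h4, h5, sub_zero]

end Pool.Agent.J4.H86.RD
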