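import Pool.Agent.J4.H86.RD.Defs2
import Pool.Agent.J4.H86.RD.GBAS

set_option autoImplicit false
open MeasureTheory Complex Filter Topology ProbabilityTheory
open scoped ENNReal
open Pool.Agent.H761R2.SV (dbar)

namespace Pool.Agent.J4.H86.RD

section prob
variable {Ω : Type*} [MeasurableSpace Ω] {P : Measure Ω} [IsProbabilityMeasure P]
variable {ι : Type*} [DecidableEq ι]

/-- `prob_col'`, with the limit of the columns as a hypothesis -/
theorem prob_col_aux' [Countable ι] {s q : ℝ} (_hsq : s.HolderConjugate q)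
    (exists_col' : ∀ (B : ι → ι → ℂ) (l : ι → ℂ) (A : ℕ → Finset ι)
      (_ : Monotone A) (_ : ∀ x, ∃ n, x ∈ A n) (_ : ∀ n, IsUnit (Mat B (A n) l))
      (_ : ∀ x, Summable (fun w => ‖B x w‖ ^ q)) (y : ι)
      (_ : liminf (fun n => ∑ x ∈ A n, ‖G B (A n) l x y‖ₑ ^ s) atTop ≠ ⊤),
      ∃ g : ι → ℂ,
        ∑' x, ‖g x‖ₑ ^ s ≤ liminf (fun n => ∑ x ∈ A n, ‖G B (A n) l x y‖ₑ ^ s) atTop ∧
        ∀ x, l x * g x + ∑' w, (if w = x then 0 else B x w * g w) = if x = y then 1 else 0)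
    (B : ι → ι → ℂ) {lam : ι → Ω → ℂ} (hm : ∀ i, Measurable (lam i))
    (hrow : ∀ x, Summable (fun w => ‖B x w‖ ^ q)) (a : ι → ℝ≥0∞) (ha : ∀ y, a y ≠ ⊤)
    (hfv : ∀ (z : ℂ) (A : Finset ι),
      (∀ᵐ ω ∂P, IsUnit (Mat B A (fun i => lam i ω - z))) ∧
      ∀ y, ∫⁻ ω, ∑ x ∈ A, ‖G B A (fun i => lam i ω - z) x y‖ₑ ^ s ∂P ≤ a y) :
    ∀ᵐ ω ∂P, ∀ y, ∃ L : ℂ → ℝ≥0∞, Measurable L ∧
      (∀ R : ℝ, ∫⁻ z in Metric.closedBall (0 : ℂ) R, L z ≠ ⊤) ∧
      ∀ᵐ z : ℂ, ∃ g : ι → ℂ, ∑' x, ‖g x‖ₑ ^ s ≤ L z ∧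
        ∀ x, (lam x ω - z) * g x + ∑' w, (if w = x then 0 else B x w * g w)
          = if x = y then 1 else 0 := by
  obtain ⟨f, hf⟩ := exists_injective_nat ι
  have hfin : ∀ n : ℕ, {x : ι | f x < n}.Finite := fun n =>
    Set.Finite.preimage (hf.injOn) (Set.finite_lt_nat n)
  let A : ℕ → Finset ι := fun n => (hfin n).toFinset
  have hmem : ∀ n x, x ∈ A n ↔ f x < n := fun n x => by
    simp [A]
  have hmono : Monotone A := by
    intro m n hmn x hx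
    rw [hmem] at hx ⊢
    omega
  have hexh : ∀ x, ∃ n, x ∈ A n := fun x => ⟨f x + 1, by rw [hmem]; omega⟩
  -- the map (ω, z) ↦ (lam i ω - z)
  have hpi : Measurable (fun q : Ω × ℂ => (fun i => lam i q.1 - q.2 : ι → ℂ)) := by
    refine measurable_pi_lambda _ fun i => ?_
    exact ((hm i).comp measurable_fst).sub measurable_snd
  let Φ : ι → ℕ → Ω × ℂ → ℝ≥0∞ := fun y n q =>
    ∑ x ∈ A n, ‖G B (A n) (fun i => lam i q.1 - q.2) x y‖ₑ ^ s
  have hΦ : ∀ y n, Measurable (Φ y n) := by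
    intro y n
    refine Finset.measurable_sum _ fun x _ => ?_
    exact (((measurable_G B (A n) x y).comp hpi).enorm).pow_const s
  let L0 : ι → Ω × ℂ → ℝ≥0∞ := fun y q => liminf (fun n => Φ y n q) atTop
  have hL0 : ∀ y, Measurable (L0 y) := fun y => Measurable.liminf (hΦ y)
  -- expectation for fixed z
  have hE : ∀ y (z : ℂ), ∫⁻ ω, L0 y (ω, z) ∂P ≤ a y := by
    intro y z
    have hms : ∀ n, Measurable fun ω : Ω => Φ y n (ω, z) := fun n =>
      (hΦ y n).comp (measurable_id.prodMk measurable_const)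
    have h1 : ∫⁻ ω, L0 y (ω, z) ∂P ≤ liminf (fun n => ∫⁻ ω, Φ y n (ω, z) ∂P) atTop :=
      lintegral_liminf_le hms
    refine h1.trans ?_
    have h2 : ∀ n, ∫⁻ ω, Φ y n (ω, z) ∂P ≤ a y := fun n => (hfv z (A n)).2 y
    calc liminf (fun n => ∫⁻ ω, Φ y n (ω, z) ∂P) atTop ≤ liminf (fun _ : ℕ => a y) atTop :=
          liminf_le_liminf (Eventually.of_forall h2)
      _ = a y := liminf_const _
  -- Tonelli
  have hT : ∀ y (n : ℕ), ∀ᵐ ω ∂P, ∫⁻ z in Metric.closedBall (0 : ℂ) n, L0 y (ω, z) < ⊤ := by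
    intro y n
    have hmeas : Measurable fun ω => ∫⁻ z in Metric.closedBall (0 : ℂ) n, L0 y (ω, z) :=
      (hL0 y).lintegral_prod_right'
    refine ae_lt_top hmeas ?_
    have hsw : ∫⁻ ω, (∫⁻ z in Metric.closedBall (0 : ℂ) n, L0 y (ω, z)) ∂P =
        ∫⁻ z in Metric.closedBall (0 : ℂ) n, (∫⁻ ω, L0 y (ω, z) ∂P) :=
      lintegral_lintegral_swap (f := fun ω z => L0 y (ω, z)) (hL0 y).aemeasurable
    rw [hsw]
    refine ne_of_lt ?_
    calc ∫⁻ z in Metric.closedBall (0 : ℂ) n, (∫⁻ ω, L0 y (ω, z) ∂P)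
        ≤ ∫⁻ _ in Metric.closedBall (0 : ℂ) n, a y := lintegral_mono fun z => hE y z
      _ = a y * volume (Metric.closedBall (0 : ℂ) n) := by
          rw [setLIntegral_const]
      _ < ⊤ := ENNReal.mul_lt_top (ha y).lt_top measure_closedBall_lt_top
  -- invertibility
  have hU : ∀ᵐ ω ∂P, ∀ᵐ z : ℂ, ∀ n, IsUnit (Mat B (A n) (fun i => lam i ω - z)) := by
    have hS : MeasurableSet {q : Ω × ℂ | ∀ n, IsUnit (Mat B (A n) (fun i => lam i q.1 - q.2))} := by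
      have : {q : Ω × ℂ | ∀ n, IsUnit (Mat B (A n) (fun i => lam i q.1 - q.2))} =
          ⋂ n, (fun q : Ω × ℂ => (fun i => lam i q.1 - q.2 : ι → ℂ)) ⁻¹'
            {l : ι → ℂ | IsUnit (Mat B (A n) l)} := by
        ext q
        simp
      rw [this]
      exact MeasurableSet.iInter fun n => hpi (measurableSet_unit B (A n))
    refine (Measure.ae_ae_comm (μ := P) (ν := (volume : Measure ℂ))
      (p := fun ω z => ∀ n, IsUnit (Mat B (A n) (fun i => lam i ω - z))) hS).mpr ?_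
    exact Eventually.of_forall fun z => ae_all_iff.mpr fun n => (hfv z (A n)).1
  have hT' : ∀ᵐ ω ∂P, ∀ y, ∀ n : ℕ, ∫⁻ z in Metric.closedBall (0 : ℂ) n, L0 y (ω, z) < ⊤ :=
    ae_all_iff.mpr fun y => ae_all_iff.mpr fun n => hT y n
  filter_upwards [hU, hT'] with ω hω1 hω2 y
  have hLm : Measurable fun z : ℂ => L0 y (ω, z) := (hL0 y).comp measurable_prodMk_left
  refine ⟨fun z => L0 y (ω, z), hLm, ?_, ?_⟩
  · intro R
    refine ne_of_lt (lt_of_le_of_lt ?_ (hω2 y ⌈R⌉₊))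
    exact lintegral_mono_set (Metric.closedBall_subset_closedBall (Nat.le_ceil R))
  · have hfinite : ∀ᵐ z : ℂ, ∀ n : ℕ, z ∈ Metric.closedBall (0 : ℂ) n → L0 y (ω, z) < ⊤ := by
      refine ae_all_iff.mpr fun n => ?_
      rw [← ae_restrict_iff' measurableSet_closedBall]
      exact ae_lt_top hLm (hω2 y n).ne
    filter_upwards [hω1, hfinite] with z hz1 hz2
    have hlt : L0 y (ω, z) < ⊤ := hz2 ⌈‖z‖⌉₊ (by
      rw [Metric.mem_closedBall, dist_zero_right]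
      exact Nat.le_ceil _)
    exact exists_col' B (fun i => lam i ω - z) A hmono hexh hz1 hrow y hlt.ne

end prob

end Pool.Agent.J4.H86.RD
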