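import Pool.Agent.J4.H86.RD.Defs

/-! Project RD, piece SCHUR. -/

set_option autoImplicit false
open MeasureTheory Complex Filter Topology ProbabilityTheory
open scoped ENNReal

namespace Pool.Agent.J4.H86.RD

section fv
variable {ι : Type*} [DecidableEq ι]

namespace Schur

lemma mv (B : ι → ι → ℂ) (A : Finset ι) (l v : ι → ℂ) (u : ι) (hu : u ∈ A) :
    (Mat B A l).mulVec (fun i : A => v i) ⟨u, hu⟩ = l u * v u + ∑ w ∈ A.erase u, B u w * v w := by
  unfold Matrix.mulVec dotProduct
  have h1 : ∀ j : A, Mat B A l ⟨u, hu⟩ j * v j = (fun w : ι => (if u = w then l u else B u w) * v w) j := by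
    intro j
    simp only [Mat, Matrix.of_apply, Subtype.ext_iff]
  rw [Finset.sum_congr rfl (fun j _ => h1 j),
    Finset.sum_coe_sort A (fun w : ι => (if u = w then l u else B u w) * v w),
    ← Finset.add_sum_erase A _ hu, if_pos rfl]
  congr 1
  refine Finset.sum_congr rfl fun w hw => ?_
  rw [if_neg (Finset.ne_of_mem_erase hw).symm]

lemma gv (B : ι → ι → ℂ) (A : Finset ι) (l v : ι → ℂ) (hA : IsUnit (Mat B A l)) (w : ι) (hw : w ∈ A) :
    ∑ u ∈ A, G B A l w u * (l u * v u + ∑ w' ∈ A.erase u, B u w' * v w') = v w := by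
  have hdet : IsUnit (Mat B A l).det := (Matrix.isUnit_iff_isUnit_det _).mp hA
  have h1 : (Mat B A l)⁻¹.mulVec ((Mat B A l).mulVec (fun i : A => v i)) = fun i : A => v i := by
    rw [Matrix.mulVec_mulVec, Matrix.nonsing_inv_mul _ hdet, Matrix.one_mulVec]
  have h2 := congrFun h1 ⟨w, hw⟩
  have h3 : (Mat B A l)⁻¹.mulVec ((Mat B A l).mulVec (fun i : A => v i)) ⟨w, hw⟩ =
      ∑ u : A, (fun u : ι => G B A l w u * (l u * v u + ∑ w' ∈ A.erase u, B u w' * v w')) u := by
    conv_lhs => unfold Matrix.mulVec dotProduct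
    refine Finset.sum_congr rfl fun u _ => ?_
    have h4 := mv B A l v u.1 u.2
    unfold Matrix.mulVec dotProduct at h4
    simp only
    rw [← h4]
    congr 1
    unfold G
    rw [dif_pos ⟨hw, u.2⟩]
  rw [h3, Finset.sum_coe_sort A
    (fun u : ι => G B A l w u * (l u * v u + ∑ w' ∈ A.erase u, B u w' * v w'))] at h2
  exact h2

lemma solve (B : ι → ι → ℂ) (A : Finset ι) (l : ι → ℂ) (x : ι) (hA : IsUnit (Mat B A l)) (v r : ι → ℂ)
    (hr : ∀ u ∈ A, l u * v u + ∑ w ∈ A.erase u, B u w * v w + B u x * v x = r u)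
    (hrx : l x * v x + ∑ w ∈ A, B x w * v w = r x) :
    (∀ w ∈ A, v w = ∑ u ∈ A, G B A l w u * (r u - B u x * v x)) ∧
      v x * (l x - beta B A l x) = r x - ∑ w ∈ A, B x w * ∑ u ∈ A, G B A l w u * r u := by
  have h1 : ∀ w ∈ A, v w = ∑ u ∈ A, G B A l w u * (r u - B u x * v x) := by
    intro w hw
    rw [← gv B A l v hA w hw]
    refine Finset.sum_congr rfl fun u hu => ?_
    rw [← hr u hu]
    ring
  refine ⟨h1, ?_⟩
  have h2 : ∑ w ∈ A, B x w * v w = ∑ w ∈ A, B x w * (∑ u ∈ A, G B A l w u * r u) -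
      v x * beta B A l x := by
    rw [beta, Finset.mul_sum, ← Finset.sum_sub_distrib]
    refine Finset.sum_congr rfl fun w hw => ?_
    rw [h1 w hw, Finset.mul_sum, Finset.mul_sum, Finset.mul_sum, ← Finset.sum_sub_distrib]
    refine Finset.sum_congr rfl fun u _ => ?_
    ring
  rw [← hrx, h2]
  ring

end Schur

open Schur in
theorem schur (B : ι → ι → ℂ) (A : Finset ι) (l : ι → ℂ) (x : ι) (hx : x ∉ A)
    (hA : IsUnit (Mat B A l)) (hb : l x ≠ beta B A l x) :
    IsUnit (Mat B (insert x A) l) ∧ ∀ y, G B (insert x A) l x y * (l x - beta B A l x)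
      = (if y = x then 1 else 0) - ∑ w ∈ A, B x w * G B A l w y := by
  have herase : ∀ u ∈ A, (insert x A).erase u = insert x (A.erase u) := by
    intro u hu
    rw [Finset.erase_insert_of_ne]
    rintro rfl
    exact hx hu
  have hxe : ∀ u ∈ A, x ∉ A.erase u := fun u _ h => hx (Finset.mem_of_mem_erase h)
  have hrow : ∀ (v : ι → ℂ), ∀ u ∈ A, l u * v u + ∑ w ∈ (insert x A).erase u, B u w * v w =
      l u * v u + ∑ w ∈ A.erase u, B u w * v w + B u x * v x := by
    intro v u hu
    rw [herase u hu, Finset.sum_insert (hxe u hu)]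
    ring
  have hrowx : ∀ (v : ι → ℂ), l x * v x + ∑ w ∈ (insert x A).erase x, B x w * v w =
      l x * v x + ∑ w ∈ A, B x w * v w := by
    intro v
    rw [Finset.erase_insert hx]
  have hunit : IsUnit (Mat B (insert x A) l) := by
    rw [← Matrix.mulVec_injective_iff_isUnit]
    intro v1 v2 h12
    set d : {i // i ∈ insert x A} → ℂ := v1 - v2 with hd
    have hd0 : (Mat B (insert x A) l).mulVec d = 0 := by
      rw [hd, Matrix.mulVec_sub, sub_eq_zero]
      exact h12
    set v : ι → ℂ := fun i => if h : i ∈ insert x A then d ⟨i, h⟩ else 0 with hv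
    have hvd : (fun i : {i // i ∈ insert x A} => v i) = d := by
      funext i
      simp only [hv]
      rw [dif_pos i.2]
    have hM : ∀ u (hu : u ∈ insert x A), l u * v u + ∑ w ∈ (insert x A).erase u, B u w * v w = 0 := by
      intro u hu
      rw [← mv B (insert x A) l v u hu, hvd, hd0]
      rfl
    have hs := solve B A l x hA v (fun _ => 0)
      (fun u hu => by rw [← hrow v u hu]; exact hM u (Finset.mem_insert_of_mem hu))
      (by rw [← hrowx v]; exact hM x (Finset.mem_insert_self x A))
    have hvx : v x = 0 := by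
      have h1 := hs.2
      simp only [mul_zero, Finset.sum_const_zero, sub_zero] at h1
      rcases mul_eq_zero.mp h1 with h | h
      · exact h
      · exact absurd (sub_eq_zero.mp h) hb
    have hva : ∀ w ∈ A, v w = 0 := by
      intro w hw
      rw [hs.1 w hw, hvx]
      simp
    have hd1 : d = 0 := by
      rw [← hvd]
      funext i
      rcases Finset.mem_insert.mp i.2 with h | h
      · show v i.1 = 0
        rw [h, hvx]
      · exact hva i.1 h
    rw [hd] at hd1
    exact sub_eq_zero.mp hd1
  refine ⟨hunit, ?_⟩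
  intro y
  by_cases hy : y ∈ insert x A
  · have hdet : IsUnit (Mat B (insert x A) l).det := (Matrix.isUnit_iff_isUnit_det _).mp hunit
    set v : ι → ℂ := fun w => G B (insert x A) l w y with hv
    have hM : ∀ u (hu : u ∈ insert x A), l u * v u + ∑ w ∈ (insert x A).erase u, B u w * v w =
        if u = y then 1 else 0 := by
      intro u hu
      rw [← mv B (insert x A) l v u hu]
      have h1 : (fun i : {i // i ∈ insert x A} => v i) = fun i => (Mat B (insert x A) l)⁻¹ i ⟨y, hy⟩ := by
        funext i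
        simp only [hv]
        unfold G
        rw [dif_pos ⟨i.2, hy⟩]
      rw [h1]
      have h2 : (Mat B (insert x A) l).mulVec (fun i => (Mat B (insert x A) l)⁻¹ i ⟨y, hy⟩) ⟨u, hu⟩ =
          ((Mat B (insert x A) l) * (Mat B (insert x A) l)⁻¹) ⟨u, hu⟩ ⟨y, hy⟩ := rfl
      rw [h2, Matrix.mul_nonsing_inv _ hdet, Matrix.one_apply]
      simp only [Subtype.mk.injEq]
    have hs := solve B A l x hA v (fun u => if u = y then 1 else 0)
      (fun u hu => by rw [← hrow v u hu]; exact hM u (Finset.mem_insert_of_mem hu))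
      (by rw [← hrowx v]; exact hM x (Finset.mem_insert_self x A))
    have h3 := hs.2
    have h4 : G B (insert x A) l x y = v x := rfl
    rw [h4, h3]
    have h5 : (if x = y then (1 : ℂ) else 0) = if y = x then 1 else 0 := by
      by_cases h : x = y
      · rw [if_pos h, if_pos h.symm]
      · rw [if_neg h, if_neg (fun h' => h h'.symm)]
    rw [h5]
    congr 1
    refine Finset.sum_congr rfl fun w hw => ?_
    congr 1
    simp only [mul_ite, mul_one, mul_zero]
    rw [Finset.sum_ite_eq']
    by_cases hyA : y ∈ A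
    · rw [if_pos hyA]
    · rw [if_neg hyA]
      unfold G
      rw [dif_neg (fun h => hyA h.2)]
  · have h1 : G B (insert x A) l x y = 0 := by
      unfold G
      rw [dif_neg (fun h => hy h.2)]
    have h2 : y ≠ x := fun h => hy (h ▸ Finset.mem_insert_self x A)
    have h3 : ∀ w ∈ A, B x w * G B A l w y = 0 := by
      intro w _
      unfold G
      rw [dif_neg (fun h => hy (Finset.mem_insert_of_mem h.2)), mul_zero]
    rw [h1, if_neg h2, Finset.sum_eq_zero h3]
    simp

end fv

end Pool.Agent.J4.H86.RD
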